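import Pool.Agent.Q83.SG.Stm

set_option autoImplicit false

open MeasureTheory ProbabilityTheory Filter
open scoped ENNReal NNReal

namespace Pool.Agent.Q83.SG

theorem t_CHAIN (h1 : S_COUNT) (h2 : S_CHAINN) (h3 : S_NUMER) (h4 : S_SMALL) : S_CHAIN := by
  intro ε hε
  obtain ⟨C, hC, hcount⟩ := h1
  obtain ⟨a, ha, hnum⟩ := h3 C ε hC hε
  refine ⟨12 * a, by positivity, ?_⟩
  intro Ω _ P _ X κ hκ hX
  have hsub : {ω | ∃ D, Cont D ∧ 12 * a * κ * (bd D).card ≤ |X D ω|} ⊆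
      ⋃ N : ℕ, {ω | ∃ D, Cont D ∧ (bd D).card = N + 2 ∧
        12 * a * κ * ((N + 2 : ℕ) : ℝ) ≤ |X D ω|} := by
    rintro ω ⟨D, hD, hle⟩
    have h2D := h4.2.1 D ⟨0, hD.1⟩
    refine Set.mem_iUnion.2 ⟨(bd D).card - 2, D, hD, by omega, ?_⟩
    have e : (bd D).card - 2 + 2 = (bd D).card := by omega
    rw [e]
    exact hle
  refine (measure_mono hsub).trans ((measure_iUnion_le _).trans ?_)
  refine le_trans (ENNReal.tsum_le_tsum fun N => h2 C hC hcount Ω P X κ hκ hX a ha (N + 2)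
    (by omega)) ?_
  refine le_trans (le_of_eq ?_) hnum
  refine tsum_congr fun N => ?_
  refine Finset.sum_congr rfl fun l _ => ?_
  push_cast
  rfl

end Pool.Agent.Q83.SG
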