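import Pool.Agent.Q83.SG.Stm

set_option autoImplicit false

open MeasureTheory ProbabilityTheory Filter
open scoped ENNReal NNReal

namespace Pool.Agent.Q83.SG

theorem geo_id (r : ℝ) (n : ℕ) : (1 - r) ^ 2 * ∑ l ∈ Finset.range n, ((l : ℝ) + 1) * r ^ l =
    1 - (n + 1) * r ^ n + n * r ^ (n + 1) := by
  induction n with
  | zero => simp
  | succ n ih =>
    rw [Finset.sum_range_succ, mul_add, ih]
    push_cast
    ring

theorem r_bd : (0 : ℝ) < (√2)⁻¹ ∧ (√2 : ℝ)⁻¹ ≤ 0.7072 ∧ ((√2 : ℝ)⁻¹) ^ 2 = 1 / 2 := by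
  have h2 : (0 : ℝ) < √2 := by positivity
  have hsq : (√2 : ℝ) ^ 2 = 2 := Real.sq_sqrt (by norm_num)
  refine ⟨by positivity, ?_, ?_⟩
  · have h3 : (1.4141 : ℝ) ≤ √2 := Real.le_sqrt_of_sq_le (by norm_num)
    have h4 : (√2 : ℝ)⁻¹ ≤ (1.4141)⁻¹ := inv_anti₀ (by norm_num) h3
    exact h4.trans (by norm_num)
  · rw [inv_pow, hsq]; norm_num

theorem geo_le (n : ℕ) : ∑ l ∈ Finset.range n, ((l : ℝ) + 1) * ((√2)⁻¹) ^ l ≤ 12 := by
  obtain ⟨h0, h1, h2⟩ := r_bd
  set r : ℝ := (√2)⁻¹ with hr
  have hid := geo_id r n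
  have hpow : 0 ≤ r ^ n := by positivity
  have h3 : (n : ℝ) * r ^ (n + 1) ≤ (n + 1) * r ^ n := by
    rw [pow_succ]
    have : (0 : ℝ) ≤ n := Nat.cast_nonneg n
    have hr1 : r ≤ 1 := by linarith
    have h4 : r ^ n * r ≤ r ^ n := by nlinarith
    nlinarith
  have h5 : (1 - r) ^ 2 * ∑ l ∈ Finset.range n, ((l : ℝ) + 1) * r ^ l ≤ 1 := by
    rw [hid]; linarith
  have h6 : (1 : ℝ) / 12 ≤ (1 - r) ^ 2 := by nlinarith
  have h7 : 0 ≤ ∑ l ∈ Finset.range n, ((l : ℝ) + 1) * r ^ l :=
    Finset.sum_nonneg fun l _ => by positivity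
  nlinarith

theorem idx_zero (x : Pt) : idx 0 x = x := by
  funext i
  simp [idx]

theorem cube_zero (z : Pt) : cube 0 z = {z} := by
  ext x
  simp only [cube, Fintype.mem_piFinset, Finset.mem_Ico, pow_zero, one_mul, Finset.mem_singleton]
  constructor
  · intro h
    funext i
    have := h i
    omega
  · rintro rfl i
    omega

theorem maj_zero (D : Finset Pt) : maj 0 D = D := by
  ext z
  simp only [maj, Finset.mem_filter, Finset.mem_image, idx_zero, cube_zero, pow_zero]
  constructor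
  · rintro ⟨⟨x, hx, rfl⟩, -⟩
    exact hx
  · intro hz
    refine ⟨⟨z, hz, rfl⟩, ?_⟩
    have : D ∩ {z} = {z} := Finset.inter_singleton_of_mem hz
    rw [this, Finset.card_singleton]
    norm_num

theorem cg_zero (D : Finset Pt) : cg 0 D = D := by
  unfold cg
  rw [maj_zero]
  ext x
  simp [cube_zero]

theorem four_pow_gt (N : ℕ) : 128 * N < 4 ^ (N + 10) := by
  have h : N < 4 ^ N := Nat.lt_pow_self (by norm_num)
  calc 128 * N < 128 * 4 ^ N := by omega
    _ ≤ 4 ^ 10 * 4 ^ N := Nat.mul_le_mul_right _ (by norm_num)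
    _ = 4 ^ (N + 10) := by rw [pow_add]; ring

theorem t_CHAINN (hcd : S_CGDIFF) (hsm : S_SMALL) : S_CHAINN := by
  classical
  intro C hC hcount Ω _ P _ X κ hκ hX a ha N hN
  choose F hF hFc using fun l => hcount N l
  have hN0 : (0 : ℝ) < N := by
    have : 0 < N := by omega
    exact_mod_cast this
  obtain ⟨hr0, hr1, hr2⟩ := r_bd
  set r : ℝ := (√2)⁻¹ with hr
  set t : ℕ → ℝ := fun l => a * κ * N * ((l + 1) * r ^ l) with ht
  have htpos : ∀ l, 0 < t l := fun l => by
    rw [ht]
    positivity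
  set Pr : ℕ → Finset (Finset Pt × Finset Pt) := fun l => (F l ×ˢ F (l + 1)).filter fun p =>
    ∃ D, Cont D ∧ (bd D).card = N ∧ maj l D = p.1 ∧ maj (l + 1) D = p.2 with hPr
  set E : ℕ → Finset Pt × Finset Pt → Set Ω := fun l p =>
    {ω | t l ≤ |X (p.1.biUnion (cube l)) ω - X (p.2.biUnion (cube (l + 1))) ω|} with hE
  set S : Finset ℕ := (Finset.range (N + 10)).filter fun l => 4 ^ l ≤ 128 * N with hS
  have hsub : {ω | ∃ D, Cont D ∧ (bd D).card = N ∧ 12 * a * κ * N ≤ |X D ω|} ⊆
      ⋃ l ∈ S, ⋃ p ∈ Pr l, E l p := by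
    rintro ω ⟨D, hD, hDN, hle⟩
    by_contra hcon
    simp only [Set.mem_iUnion, not_exists] at hcon
    have hex : ∃ l : ℕ, 128 * N < 4 ^ l := ⟨N + 10, four_pow_gt N⟩
    set l₀ := Nat.find hex with hl₀
    have hl₀s : 128 * N < 4 ^ l₀ := Nat.find_spec hex
    have hlt : ∀ l < l₀, |X (cg l D) ω - X (cg (l + 1) D) ω| < t l := by
      intro l hl
      have h1 : 4 ^ l ≤ 128 * N := not_lt.1 (Nat.find_min hex hl)
      have h2 : l ∈ S := by
        rw [hS, Finset.mem_filter, Finset.mem_range]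
        refine ⟨?_, h1⟩
        by_contra h3
        have h4 : 4 ^ (N + 10) ≤ 4 ^ l := Nat.pow_le_pow_right (by norm_num) (by omega)
        have := four_pow_gt N
        omega
      have h3 : (maj l D, maj (l + 1) D) ∈ Pr l := by
        rw [hPr, Finset.mem_filter, Finset.mem_product]
        exact ⟨⟨hF l D hD hDN, hF (l + 1) D hD hDN⟩, D, hD, hDN, rfl, rfl⟩
      have h4 := hcon l h2 _ h3
      have h5 : ¬ (t l ≤ |X (cg l D) ω - X (cg (l + 1) D) ω|) := h4
      exact not_le.1 h5
    have hl₀pos : 0 < l₀ := by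
      rw [Nat.pos_iff_ne_zero]
      intro h0
      rw [h0] at hl₀s
      omega
    have htel : ∑ l ∈ Finset.range l₀, (X (cg l D) ω - X (cg (l + 1) D) ω) = X D ω := by
      rw [Finset.sum_range_sub', cg_zero]
      have h0 : cg l₀ D = ∅ := by
        unfold cg
        rw [hsm.2.2 l₀ D (by rw [hDN]; exact hl₀s)]
        rfl
      rw [h0, hX.1 ω, sub_zero]
    have hsum : |X D ω| < 12 * a * κ * N := by
      calc |X D ω| = |∑ l ∈ Finset.range l₀, (X (cg l D) ω - X (cg (l + 1) D) ω)| := by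
            rw [htel]
        _ ≤ ∑ l ∈ Finset.range l₀, |X (cg l D) ω - X (cg (l + 1) D) ω| :=
            Finset.abs_sum_le_sum_abs _ _
        _ < ∑ l ∈ Finset.range l₀, t l :=
            Finset.sum_lt_sum_of_nonempty ⟨0, Finset.mem_range.2 hl₀pos⟩ fun l hl =>
              hlt l (Finset.mem_range.1 hl)
        _ = a * κ * N * ∑ l ∈ Finset.range l₀, ((l : ℝ) + 1) * r ^ l := by
            rw [ht, Finset.mul_sum]
        _ ≤ a * κ * N * 12 := by
            apply mul_le_mul_of_nonneg_left (geo_le l₀)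
            positivity
        _ = 12 * a * κ * N := by ring
    exact absurd hle (not_le.2 hsum)
  refine (measure_mono hsub).trans ?_
  refine (measure_biUnion_finset_le _ _).trans ?_
  refine Finset.sum_le_sum fun l _ => ?_
  have hone : ∀ p ∈ Pr l, P (E l p) ≤
      ENNReal.ofReal (2 * Real.exp (-(a ^ 2 * (l + 1) ^ 2 / 6 * N / 4 ^ l))) := by
    intro p hp
    rw [hPr, Finset.mem_filter] at hp
    obtain ⟨-, D, hD, hDN, h1, h2⟩ := hp
    have hA : p.1.biUnion (cube l) = cg l D := by rw [← h1]; rfl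
    have hB : p.2.biUnion (cube (l + 1)) = cg (l + 1) D := by rw [← h2]; rfl
    rw [hE]
    simp only
    rw [hA, hB]
    by_cases heq : cg l D = cg (l + 1) D
    · have : {ω | t l ≤ |X (cg l D) ω - X (cg (l + 1) D) ω|} = ∅ := by
        ext ω
        simp only [heq, sub_self, abs_zero, Set.mem_ofPred_eq, Set.mem_empty_iff_false, iff_false,
          not_le]
        exact htpos l
      rw [this, measure_empty]
      exact bot_le
    · refine (hX.2 _ _ (t l) (htpos l)).trans (ENNReal.ofReal_le_ofReal ?_)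
      refine mul_le_mul_of_nonneg_left (Real.exp_le_exp.2 ?_) (by norm_num)
      have hcpos : 0 < (symmDiff (cg l D) (cg (l + 1) D)).card := by
        rw [Finset.card_pos, Finset.nonempty_iff_ne_empty]
        intro h0
        exact heq (symmDiff_eq_bot.1 h0)
      have hcle : (symmDiff (cg l D) (cg (l + 1) D)).card ≤ 6 * 2 ^ l * N := by
        have h3 := hcd l D
        have h4 := hcd (l + 1) D
        rw [hDN] at h3 h4
        have h5 : symmDiff (cg l D) (cg (l + 1) D) ⊆
            symmDiff (cg l D) D ∪ symmDiff D (cg (l + 1) D) := by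
          have := symmDiff_triangle (cg l D) D (cg (l + 1) D)
          exact this
        have h6 := (Finset.card_le_card h5).trans (Finset.card_union_le _ _)
        rw [symmDiff_comm (cg l D) D] at h6
        have h7 : 2 * 2 ^ (l + 1) * N = 2 * (2 * 2 ^ l * N) := by rw [pow_succ]; ring
        rw [h7] at h4
        have h8 : 6 * 2 ^ l * N = 3 * (2 * 2 ^ l * N) := by ring
        omega
      have hcle' : ((symmDiff (cg l D) (cg (l + 1) D)).card : ℝ) ≤ 6 * 2 ^ l * N := by
        exact_mod_cast hcle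
      have hcpos' : (0 : ℝ) < (symmDiff (cg l D) (cg (l + 1) D)).card := by exact_mod_cast hcpos
      have hkey : a ^ 2 * (l + 1) ^ 2 / 6 * N / 4 ^ l ≤
          t l ^ 2 / (κ ^ 2 * (symmDiff (cg l D) (cg (l + 1) D)).card) := by
        have e1 : a ^ 2 * ((l : ℝ) + 1) ^ 2 / 6 * N / 4 ^ l =
            t l ^ 2 / (κ ^ 2 * (6 * 2 ^ l * N)) := by
          have e2 : r ^ l * r ^ l = (1 / 2) ^ l := by
            rw [← mul_pow, ← pow_two, hr2]
          have e3 : t l ^ 2 = a ^ 2 * κ ^ 2 * N ^ 2 * ((l + 1) ^ 2 * (1 / 2) ^ l) := by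
            rw [ht]
            simp only
            rw [← e2]
            ring
          rw [e3]
          have e4 : (4 : ℝ) ^ l = 2 ^ l * 2 ^ l := by rw [← mul_pow]; norm_num
          have e5 : ((1 : ℝ) / 2) ^ l = 1 / 2 ^ l := by rw [div_pow, one_pow]
          rw [e4, e5]
          field_simp
        rw [e1]
        refine div_le_div_of_nonneg_left (by positivity) (by positivity) ?_
        exact mul_le_mul_of_nonneg_left hcle' (by positivity)
      rw [neg_div]
      exact neg_le_neg hkey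
  calc P (⋃ p ∈ Pr l, E l p) ≤ ∑ p ∈ Pr l, P (E l p) := measure_biUnion_finset_le _ _
    _ ≤ ∑ p ∈ Pr l, ENNReal.ofReal (2 * Real.exp (-(a ^ 2 * (l + 1) ^ 2 / 6 * N / 4 ^ l))) :=
        Finset.sum_le_sum hone
    _ = ENNReal.ofReal ((Pr l).card * (2 * Real.exp (-(a ^ 2 * (l + 1) ^ 2 / 6 * N / 4 ^ l)))) := by
        rw [Finset.sum_const, nsmul_eq_mul, ENNReal.ofReal_mul (Nat.cast_nonneg _),
          ENNReal.ofReal_natCast]
    _ ≤ _ := by
        refine ENNReal.ofReal_le_ofReal ?_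
        have h1 : ((Pr l).card : ℝ) ≤ (F l).card * (F (l + 1)).card := by
          have : (Pr l).card ≤ (F l).card * (F (l + 1)).card := by
            rw [← Finset.card_product]
            exact Finset.card_filter_le _ _
          exact_mod_cast this
        have h2 := hFc l
        have h3 := hFc (l + 1)
        have h4 : ((l + 1 : ℕ) : ℝ) = (l : ℝ) + 1 := by push_cast; rfl
        rw [h4] at h3
        have hy : (0 : ℝ) ≤ N / 4 ^ l := by positivity
        have h5 : C * ((l : ℝ) + 1) * N / 4 ^ l + C * ((l : ℝ) + 1 + 1) * N / 4 ^ (l + 1) ≤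
            4 * C * (l + 1) * N / 4 ^ l := by
          have e1 : C * ((l : ℝ) + 1 + 1) * N / 4 ^ (l + 1) = C * (l + 2) / 4 * (N / 4 ^ l) := by
            rw [pow_succ]
            field_simp
            ring
          have e2 : C * ((l : ℝ) + 1) * N / 4 ^ l = C * (l + 1) * (N / 4 ^ l) := by ring
          have e3 : 4 * C * ((l : ℝ) + 1) * N / 4 ^ l = 4 * C * (l + 1) * (N / 4 ^ l) := by ring
          rw [e1, e2, e3, ← add_mul]
          refine mul_le_mul_of_nonneg_right ?_ hy
          have hl : (0 : ℝ) ≤ l := Nat.cast_nonneg l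
          nlinarith
        calc ((Pr l).card : ℝ) * (2 * Real.exp (-(a ^ 2 * (l + 1) ^ 2 / 6 * N / 4 ^ l)))
            ≤ ((F l).card * (F (l + 1)).card) *
              (2 * Real.exp (-(a ^ 2 * (l + 1) ^ 2 / 6 * N / 4 ^ l))) := by
              refine mul_le_mul_of_nonneg_right h1 (by positivity)
          _ ≤ ((C * (N + 1) ^ 3 * Real.exp (C * (l + 1) * N / 4 ^ l)) *
              (C * (N + 1) ^ 3 * Real.exp (C * (l + 1 + 1) * N / 4 ^ (l + 1)))) *
              (2 * Real.exp (-(a ^ 2 * (l + 1) ^ 2 / 6 * N / 4 ^ l))) := by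
              refine mul_le_mul_of_nonneg_right ?_ (by positivity)
              exact mul_le_mul h2 h3 (by positivity) (by positivity)
          _ = 2 * C ^ 2 * (N + 1) ^ 6 * (Real.exp (C * (l + 1) * N / 4 ^ l +
              C * (l + 1 + 1) * N / 4 ^ (l + 1)) *
              Real.exp (-(a ^ 2 * (l + 1) ^ 2 / 6 * N / 4 ^ l))) := by
              rw [Real.exp_add]
              ring
          _ ≤ 2 * C ^ 2 * (N + 1) ^ 6 * (Real.exp (4 * C * (l + 1) * N / 4 ^ l) *
              Real.exp (-(a ^ 2 * (l + 1) ^ 2 / 6 * N / 4 ^ l))) := by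
              refine mul_le_mul_of_nonneg_left ?_ (by positivity)
              exact mul_le_mul_of_nonneg_right (Real.exp_le_exp.2 h5) (Real.exp_pos _).le
          _ = 2 * C ^ 2 * (N + 1) ^ 6 *
              Real.exp ((4 * C * (l + 1) - a ^ 2 * (l + 1) ^ 2 / 6) * N / 4 ^ l) := by
              rw [← Real.exp_add]
              congr 2
              ring

end Pool.Agent.Q83.SG
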