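import Pool.Agent.Q83.SG.Stm

set_option autoImplicit false

open MeasureTheory ProbabilityTheory Filter
open scoped ENNReal NNReal

namespace Pool.Agent.Q83.SG

theorem exp_bd (l n : ℕ) : ((192 : ℝ) / (1 / 2 ^ l) ^ 3) ^ n ≤ Real.exp (n * (6 + 3 * l)) := by
  have h1 : ((192 : ℝ) / (1 / 2 ^ l) ^ 3) = 192 * 8 ^ l := by
    have : (8 : ℝ) ^ l = (2 ^ l) ^ 3 := by
      rw [← pow_mul, mul_comm, pow_mul]; norm_num
    rw [this]
    field_simp
  have he1 : (2.7 : ℝ) ≤ Real.exp 1 := by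
    have := Real.exp_one_gt_d9
    linarith
  have h2 : (192 : ℝ) ≤ Real.exp 6 := by
    have : Real.exp 6 = Real.exp 1 ^ 6 := by rw [← Real.exp_nat_mul]; norm_num
    rw [this]
    calc (192 : ℝ) ≤ 2.7 ^ 6 := by norm_num
      _ ≤ Real.exp 1 ^ 6 := pow_le_pow_left₀ (by norm_num) he1 6
  have h3 : (8 : ℝ) ≤ Real.exp 3 := by
    have : Real.exp 3 = Real.exp 1 ^ 3 := by rw [← Real.exp_nat_mul]; norm_num
    rw [this]
    calc (8 : ℝ) ≤ 2.7 ^ 3 := by norm_num
      _ ≤ Real.exp 1 ^ 3 := pow_le_pow_left₀ (by norm_num) he1 3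
  rw [h1, Real.exp_nat_mul]
  refine pow_le_pow_left₀ (by positivity) ?_ n
  rw [Real.exp_add]
  refine mul_le_mul h2 ?_ (by positivity) (Real.exp_pos _).le
  calc (8 : ℝ) ^ l ≤ Real.exp 3 ^ l := pow_le_pow_left₀ (by norm_num) h3 l
    _ = Real.exp (3 * l) := by rw [← Real.exp_nat_mul]; ring_nf

theorem t_COUNT (h1 : S_COARSE) (h2 : S_SMALL) (h3 : S_LISTS) (h4 : S_VISIT) : S_COUNT := by
  classical
  refine ⟨1926, by norm_num, fun N l => ?_⟩
  have hb0 : (0 : ℝ) < 1 / 2 ^ l := by positivity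
  have hb1 : (1 : ℝ) / 2 ^ l ≤ 1 := by
    rw [div_le_one (by positivity)]
    exact one_le_pow₀ (by norm_num)
  choose G hG hGc using fun (j n : ℕ) =>
    h3 (1 / 2 ^ l) hb0 hb1 n (6 * N / 2 ^ l + 9 * n) (idx l (Pi.single 0 (j : ℤ)))
  set n₀ : ℕ := 128 * N / 4 ^ l with hn₀
  set W : Finset (List Ed) := (Finset.range (2 * N + 1)).biUnion fun j =>
    (Finset.range (n₀ + 1)).biUnion fun n => G j n with hW
  set φ : List Ed → Finset Pt := fun w =>
    if h : ∃ M : Finset Pt, bd M = w.toFinset then Classical.choose h else ∅ with hφ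
  refine ⟨W.image φ, ?_, ?_⟩
  · intro D hD hDN
    obtain ⟨j, w, hj, hw, hlen, hjump⟩ := h4 D l hD
    rw [hDN] at hj hjump
    have hc := (h1 l D).2
    rw [hDN, ← hlen] at hc
    have hn : w.length ≤ n₀ := (Nat.le_div_iff_mul_le (by positivity)).2 hc
    have hj2 : jump (idx l (Pi.single 0 (j : ℤ))) w ≤ 6 * N / 2 ^ l + 9 * w.length := by
      have h5 : jump (idx l (Pi.single 0 (j : ℤ))) w ≤ (6 * N + 9 * 2 ^ l * w.length) / 2 ^ l := by
        rw [Nat.le_div_iff_mul_le (by positivity), mul_comm]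
        exact hjump
      have h6 : 6 * N + 9 * 2 ^ l * w.length = 6 * N + 2 ^ l * (9 * w.length) := by ring
      rw [h6, Nat.add_mul_div_left _ _ (by positivity)] at h5
      exact h5
    have hwW : w ∈ W := by
      rw [hW]
      simp only [Finset.mem_biUnion, Finset.mem_range]
      exact ⟨j, by omega, w.length, by omega, hG j w.length w rfl hj2⟩
    refine Finset.mem_image.2 ⟨w, hwW, ?_⟩
    have hex : ∃ M : Finset Pt, bd M = w.toFinset := ⟨maj l D, hw.symm⟩
    rw [hφ]
    simp only [dif_pos hex]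
    apply h2.1
    rw [Classical.choose_spec hex, hw]
  · have hy : (0 : ℝ) ≤ N / 4 ^ l := by positivity
    have hterm : ∀ j n : ℕ, n ≤ n₀ →
        ((G j n).card : ℝ) ≤ Real.exp (1926 * (l + 1) * N / 4 ^ l) := by
      intro j n hn
      refine (hGc j n).trans ?_
      refine (mul_le_mul_of_nonneg_left (exp_bd l n) (Real.exp_pos _).le).trans ?_
      rw [← Real.exp_add]
      refine Real.exp_le_exp.2 ?_
      have hl : (0 : ℝ) ≤ l := Nat.cast_nonneg l
      have hn' : (n : ℝ) ≤ 128 * (N / 4 ^ l) := by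
        have h5 : n * 4 ^ l ≤ 128 * N := (Nat.le_div_iff_mul_le (by positivity)).1 hn
        have h6 : (n : ℝ) * 4 ^ l ≤ 128 * N := by exact_mod_cast h5
        rw [← mul_div_assoc, le_div_iff₀ (by positivity)]
        exact h6
      have hT : (1 : ℝ) / 2 ^ l * ((6 * N / 2 ^ l + 9 * n : ℕ) : ℝ) ≤ 6 * (N / 4 ^ l) + 9 * n := by
        have h5 : ((6 * N / 2 ^ l : ℕ) : ℝ) ≤ 6 * N / 2 ^ l := by
          have := @Nat.cast_div_le ℝ _ _ _ (6 * N) (2 ^ l)
          push_cast at this
          exact this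
        push_cast
        have h6 : (1 : ℝ) / 2 ^ l * (6 * N / 2 ^ l) = 6 * (N / 4 ^ l) := by
          have : (4 : ℝ) ^ l = 2 ^ l * 2 ^ l := by rw [← mul_pow]; norm_num
          rw [this]
          field_simp
        have hn0 : (0 : ℝ) ≤ n := Nat.cast_nonneg n
        calc (1 : ℝ) / 2 ^ l * (((6 * N / 2 ^ l : ℕ) : ℝ) + 9 * n)
            ≤ 1 / 2 ^ l * (6 * N / 2 ^ l + 9 * n) := by
              refine mul_le_mul_of_nonneg_left ?_ hb0.le
              linarith
          _ = 6 * (N / 4 ^ l) + 1 / 2 ^ l * (9 * n) := by rw [mul_add, h6]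
          _ ≤ 6 * (N / 4 ^ l) + 1 * (9 * n) := by
              have : 1 / 2 ^ l * (9 * (n : ℝ)) ≤ 1 * (9 * n) :=
                mul_le_mul_of_nonneg_right hb1 (by positivity)
              linarith
          _ = 6 * (N / 4 ^ l) + 9 * n := by ring
      have h7 : (n : ℝ) * (15 + 3 * l) ≤ 128 * (N / 4 ^ l) * (15 + 3 * l) :=
        mul_le_mul_of_nonneg_right hn' (by positivity)
      have h8 : 1926 * ((l : ℝ) + 1) * N / 4 ^ l = 1926 * (l + 1) * (N / 4 ^ l) := by ring
      rw [h8]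
      have h9 : 6 * ((N : ℝ) / 4 ^ l) + 128 * (N / 4 ^ l) * (15 + 3 * l) ≤
          1926 * (l + 1) * (N / 4 ^ l) := by
        have : 6 * ((N : ℝ) / 4 ^ l) + 128 * (N / 4 ^ l) * (15 + 3 * l) =
            (1926 + 384 * l) * (N / 4 ^ l) := by ring
        rw [this]
        refine mul_le_mul_of_nonneg_right ?_ hy
        linarith
      linarith
    have hWc : (W.card : ℝ) ≤ (2 * N + 1) * (n₀ + 1) * Real.exp (1926 * (l + 1) * N / 4 ^ l) := by
      have h5 : (W.card : ℝ) ≤ ∑ j ∈ Finset.range (2 * N + 1), ∑ n ∈ Finset.range (n₀ + 1),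
          ((G j n).card : ℝ) := by
        have h6 : W.card ≤ ∑ j ∈ Finset.range (2 * N + 1), ∑ n ∈ Finset.range (n₀ + 1),
            (G j n).card :=
          Finset.card_biUnion_le.trans (Finset.sum_le_sum fun j _ => Finset.card_biUnion_le)
        exact_mod_cast h6
      refine h5.trans ?_
      calc ∑ j ∈ Finset.range (2 * N + 1), ∑ n ∈ Finset.range (n₀ + 1), ((G j n).card : ℝ)
          ≤ ∑ j ∈ Finset.range (2 * N + 1), ∑ n ∈ Finset.range (n₀ + 1),
            Real.exp (1926 * (l + 1) * N / 4 ^ l) := by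
            refine Finset.sum_le_sum fun j _ => Finset.sum_le_sum fun n hn => ?_
            exact hterm j n (by have := Finset.mem_range.1 hn; omega)
        _ = _ := by
            rw [Finset.sum_const, Finset.sum_const, Finset.card_range, Finset.card_range,
              nsmul_eq_mul, nsmul_eq_mul]
            push_cast
            ring
    have hn₀' : (n₀ : ℝ) ≤ 128 * N := by
      have : n₀ ≤ 128 * N := Nat.div_le_self _ _
      exact_mod_cast this
    have hN : (0 : ℝ) ≤ N := Nat.cast_nonneg N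
    calc ((W.image φ).card : ℝ) ≤ W.card := by exact_mod_cast Finset.card_image_le
      _ ≤ (2 * N + 1) * (n₀ + 1) * Real.exp (1926 * (l + 1) * N / 4 ^ l) := hWc
      _ ≤ 1926 * (N + 1) ^ 3 * Real.exp (1926 * (l + 1) * N / 4 ^ l) := by
          refine mul_le_mul_of_nonneg_right ?_ (Real.exp_pos _).le
          calc ((2 : ℝ) * N + 1) * (n₀ + 1) ≤ (2 * N + 1) * (128 * N + 1) := by
                refine mul_le_mul_of_nonneg_left ?_ (by positivity)
                linarith
            _ ≤ 1926 * (N + 1) ^ 3 := by nlinarith [mul_nonneg hN hN, mul_nonneg (mul_nonneg hN hN) hN]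

end Pool.Agent.Q83.SG
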