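import Pool.Agent.Q83.SG.Stm

set_option autoImplicit false

open MeasureTheory ProbabilityTheory Filter
open scoped ENNReal NNReal

namespace Pool.Agent.Q83.SG

theorem plant_diff {m : ℕ} (H : Set (Fin m → ℤ)) (ψ : ℝ → ℝ) {J J' : Bond m → ℝ}
    (hJ : ∀ b, b.2.isLeft → J b = J' b) (b : Bond m) :
    |plant H ψ J b - plant H ψ J' b| ≤ |J b - J' b| := by
  unfold plant
  by_cases hb : b.2.isLeft
  · simp [hJ b hb]
  · simp [hb]

theorem plant_ge {m : ℕ} {H : Set (Fin m → ℤ)} {ψ : ℝ → ℝ} {K : ℝ} (hψ : ∀ x, K ≤ ψ x)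
    {h : Fin m → ℤ} (hh : h ∈ H) (J : Bond m → ℝ) (x : Pt) (i : Fin 3) :
    K ≤ plant H ψ J ((x, h), Sum.inl i) := by
  unfold plant
  simp [hh, hψ]

theorem t_LRO0 (h1 : S_CHAIN) (h2 : S_TAIL) (h3 : S_LIP) (h4 : S_PEI0) : S_LRO0 := by
  intro m c ε hε
  obtain ⟨lam, hlam, hch⟩ := h1 ε hε
  obtain ⟨κ, hκ, htl⟩ := h2 m c
  refine ⟨lam * κ + 1, by positivity, ?_⟩
  intro μ _ hsym hsub ψ hψ hψK H h hh L τ hτ hτh
  obtain ⟨lip1, -, meas, comm⟩ := h3 m (box m L) τ hτ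
  set Φ : (Bond m → ℝ) → ℝ := fun J => mx (box m L) τ (plant H ψ J) with hΦ
  have hΦm : Measurable Φ := (meas H ψ 1 hψ).1
  have hΦl : ∀ J J' : Bond m → ℝ, (∀ b, b.2.isLeft → J b = J' b) →
      |Φ J - Φ J'| ≤ 1 * ∑ b ∈ bonds (box m L), |J b - J' b| := by
    intro J J' hJ
    rw [one_mul]
    exact (lip1 _ _).trans (Finset.sum_le_sum fun b _ => plant_diff H ψ hJ b)
  have ht := htl μ hsym hsub Φ (bonds (box m L)) 1 one_pos hΦm hΦl h
  have hc := hch (Bond m → ℝ) (law m μ) (fun A J => Φ J - Φ (flipAt (vert h A) J)) (1 * κ)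
    (by positivity) ht
  refine le_trans (measure_mono ?_) hc
  rintro J ⟨σ, hσ, hne⟩
  by_contra hcon
  apply hne
  refine h4 m L h τ σ (lam * κ + 1) (plant H ψ J) hτ hτh (by positivity)
    (fun x i => plant_ge hψK hh J x i) ?_ hσ
  intro D hD
  have hlt : ¬ (lam * (1 * κ) * (bd D).card ≤ |Φ J - Φ (flipAt (vert h D) J)|) :=
    fun hle => hcon ⟨D, hD, hle⟩
  rw [not_le] at hlt
  have e1 : Φ (flipAt (vert h D) J) = mx (box m L) τ (flipAt (vert h D) (plant H ψ J)) := by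
    rw [hΦ]
    simp only
    rw [(comm H ψ h D J 1).1]
  rw [e1] at hlt
  have h0 : (0 : ℝ) ≤ ((bd D).card : ℝ) := Nat.cast_nonneg _
  have e2 : |mx (box m L) τ (plant H ψ J) - mx (box m L) τ (flipAt (vert h D) (plant H ψ J))| <
      lam * (1 * κ) * (bd D).card := hlt
  nlinarith

theorem t_LRO1 (h1 : S_CHAIN) (h2 : S_TAIL) (h3 : S_LIP) (h4 : S_PEI1) (h5 : S_SER) :
    S_LRO1 := by
  intro m c ε hε
  obtain ⟨lam, hlam, hch⟩ := h1 ε hε
  obtain ⟨κ, hκ, htl⟩ := h2 m c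
  obtain ⟨K₁, hK₁, hser⟩ := h5 (1 / 8) (by norm_num)
  refine ⟨lam * κ + K₁, by positivity, ?_⟩
  intro μ _ hsym hsub ψ hψ hψK β hβ H h hh L τ hτ hτh
  have hβ0 : 0 < β := by linarith
  obtain ⟨-, lip1, meas, comm⟩ := h3 m (box m L) τ hτ
  set Φ : (Bond m → ℝ) → ℝ := fun J => lz (box m L) τ (β • plant H ψ J) with hΦ
  have hΦm : Measurable Φ := (meas H ψ β hψ).2
  have hΦl : ∀ J J' : Bond m → ℝ, (∀ b, b.2.isLeft → J b = J' b) →
      |Φ J - Φ J'| ≤ β * ∑ b ∈ bonds (box m L), |J b - J' b| := by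
    intro J J' hJ
    refine (lip1 _ _).trans ?_
    rw [Finset.mul_sum]
    refine Finset.sum_le_sum fun b _ => ?_
    rw [Pi.smul_apply, Pi.smul_apply, smul_eq_mul, smul_eq_mul, ← mul_sub, abs_mul,
      abs_of_pos hβ0]
    exact mul_le_mul_of_nonneg_left (plant_diff H ψ hJ b) hβ0.le
  have ht := htl μ hsym hsub Φ (bonds (box m L)) β hβ0 hΦm hΦl h
  have hc := hch (Bond m → ℝ) (law m μ) (fun A J => Φ J - Φ (flipAt (vert h A) J)) (β * κ)
    (by positivity) ht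
  refine le_trans (measure_mono ?_) hc
  intro J hJ
  by_contra hcon
  have key := h4 m L h τ (β * (lam * κ + K₁)) (β • plant H ψ J) hτ hτh (by positivity) ?_ ?_
  · obtain ⟨U, hU, hmis⟩ := key
    have hK : K₁ ≤ β * (lam * κ + K₁) := by
      have : 0 < lam * κ := by positivity
      nlinarith
    have := hser _ hK U hU
    have hJ' : 1 / 8 < mis (box m L) τ (β • plant H ψ J) (0, h) := hJ
    linarith
  · intro x i
    rw [Pi.smul_apply, smul_eq_mul]
    exact mul_le_mul_of_nonneg_left (plant_ge hψK hh J x i) hβ0.le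
  · intro D hD
    have hlt : ¬ (lam * (β * κ) * (bd D).card ≤ |Φ J - Φ (flipAt (vert h D) J)|) :=
      fun hle => hcon ⟨D, hD, hle⟩
    rw [not_le] at hlt
    have e1 : Φ (flipAt (vert h D) J) =
        lz (box m L) τ (flipAt (vert h D) (β • plant H ψ J)) := by
      rw [hΦ]
      simp only
      rw [(comm H ψ h D J β).1, (comm H ψ h D (plant H ψ J) β).2]
    rw [e1] at hlt
    have h0 : (0 : ℝ) ≤ ((bd D).card : ℝ) := Nat.cast_nonneg _
    have e2 : |lz (box m L) τ (β • plant H ψ J) -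
        lz (box m L) τ (flipAt (vert h D) (β • plant H ψ J))| < lam * (β * κ) * (bd D).card := hlt
    have h3 : 0 ≤ β * K₁ * (bd D).card := by positivity
    nlinarith

end Pool.Agent.Q83.SG
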