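import Pool.Agent.Q83.SG.Stm

set_option autoImplicit false

open MeasureTheory ProbabilityTheory Filter
open scoped ENNReal NNReal

namespace Pool.Agent.Q83.SG

theorem t_PAT2 : S_PAT2 := by
  intro Ω _ P _ G hne hP
  set Bad : Set Ω := ⋃ s : Fin 2 → Bool, ⋃ i : Fin 2, {ω | ∃ p ∈ G s ω, p i ≠ s i} with hBad
  have e16 : ENNReal.ofReal (1 / 16) = 1 / 16 := by
    rw [ENNReal.ofReal_div_of_pos (by norm_num)]
    simp
  have hB : P Bad ≤ 1 / 2 := by
    refine (measure_iUnion_le _).trans ?_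
    rw [tsum_fintype]
    have h2 : ∀ s : Fin 2 → Bool, P (⋃ i : Fin 2, {ω | ∃ p ∈ G s ω, p i ≠ s i}) ≤
        2 * (1 / 16) := by
      intro s
      refine (measure_iUnion_le _).trans ?_
      rw [tsum_fintype]
      refine (Finset.sum_le_sum fun i _ => hP s i).trans ?_
      rw [e16]
      simp
    refine (Finset.sum_le_sum fun s _ => h2 s).trans ?_
    rw [Finset.sum_const, Finset.card_univ, nsmul_eq_mul]
    have hcard : Fintype.card (Fin 2 → Bool) = 4 := by rfl
    rw [hcard]
    have h816 : ((4 : ℕ) : ℝ≥0∞) * (2 * (1 / 16)) = ENNReal.ofReal (4 * (2 * (1 / 16))) := by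
      rw [ENNReal.ofReal_mul (by norm_num), ENNReal.ofReal_mul (by norm_num), e16]
      simp
    rw [h816]
    norm_num
    rw [ENNReal.ofReal_div_of_pos (by norm_num)]
    simp
  have hsub : Badᶜ ⊆ {ω | 4 ≤ (⋃ s, G s ω).ncard} := by
    intro ω hω
    have hall : ∀ s : Fin 2 → Bool, s ∈ ⋃ s, G s ω := by
      intro s
      obtain ⟨p, hp⟩ := hne s ω
      have hps : p = s := by
        funext i
        by_contra hcon
        exact hω (Set.mem_iUnion.2 ⟨s, Set.mem_iUnion.2 ⟨i, p, hp, hcon⟩⟩)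
      rw [hps] at hp
      exact Set.mem_iUnion.2 ⟨s, hp⟩
    have huniv : (⋃ s, G s ω) = Set.univ := Set.eq_univ_of_forall hall
    change 4 ≤ (⋃ s, G s ω).ncard
    rw [huniv, Set.ncard_univ, Nat.card_eq_fintype_card]
    exact le_rfl
  have h3 : (1 : ℝ≥0∞) ≤ P {ω | 4 ≤ (⋃ s, G s ω).ncard} + P Bad := by
    calc (1 : ℝ≥0∞) = P Set.univ := measure_univ.symm
      _ ≤ P ({ω | 4 ≤ (⋃ s, G s ω).ncard} ∪ Bad) := by
          refine measure_mono fun ω _ => ?_
          by_cases h : ω ∈ Bad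
          · exact Or.inr h
          · exact Or.inl (hsub h)
      _ ≤ _ := measure_union_le _ _
  by_contra hcon
  rw [not_le] at hcon
  have h4 : P {ω | 4 ≤ (⋃ s, G s ω).ncard} + P Bad < 1 / 2 + 1 / 2 :=
    ENNReal.add_lt_add_of_lt_of_le (ne_top_of_le_ne_top (by norm_num) hB) hcon hB
  rw [ENNReal.add_halves] at h4
  exact absurd h3 (not_le.2 h4)

theorem meas_pair {m : ℕ} (Λ : Finset (Site m)) (σ : Site m → ℝ) :
    Measurable fun J : Bond m → ℝ => pair J Λ σ := by
  unfold pair
  exact Finset.measurable_sum _ fun b _ => (measurable_pi_apply b).mul_const _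

theorem meas_plant {m : ℕ} (H : Set (Fin m → ℤ)) {ψ : ℝ → ℝ} (hψ : Measurable ψ) :
    Measurable fun J : Bond m → ℝ => plant H ψ J := by
  refine measurable_pi_lambda _ fun b => ?_
  unfold plant
  by_cases h : b.2.isLeft ∧ b.1.2 ∈ H
  · simp only [if_pos h]
    exact hψ.comp (measurable_pi_apply b)
  · simp only [if_neg h]
    exact measurable_pi_apply b

theorem t_MEAS1 : S_MEAS1 := by
  intro m L H ψ hψ β v τ
  have h1 : Measurable fun J : Bond m → ℝ => β • plant H ψ J := (meas_plant H hψ).const_smul β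
  have h2 : ∀ T : Finset (Site m), Measurable fun J : Bond m → ℝ =>
      Real.exp (pair (β • plant H ψ J) (box m L) (sw T τ)) := fun T =>
    Real.measurable_exp.comp ((meas_pair (box m L) (sw T τ)).comp h1)
  have h3 : Measurable fun J : Bond m → ℝ => mis (box m L) τ (β • plant H ψ J) v := by
    unfold mis
    exact (Finset.measurable_sum _ fun T _ => h2 T).div (Finset.measurable_sum _ fun T _ => h2 T)
  exact h3 measurableSet_Ioi

end Pool.Agent.Q83.SG
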