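import Pool.Agent.Q83.SG.T2

set_option autoImplicit false

open MeasureTheory ProbabilityTheory Filter
open scoped ENNReal NNReal

namespace Pool.Agent.Q83.SG

/-! ## finite volume measures -/

theorem den_pos {m : ℕ} (J : Bond m → ℝ) (Λ : Finset (Site m)) (ω : Site m → Bool) :
    0 < ∑ η : Λ → Bool, Real.exp (pair J Λ (spin (glue Λ η ω))) :=
  Finset.sum_pos (fun _ _ => Real.exp_pos _) ⟨fun _ => true, Finset.mem_univ _⟩

theorem fv_compl {m : ℕ} (J : Bond m → ℝ) (Λ : Finset (Site m)) (ω : Site m → Bool)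
    (A : Set (Site m → Bool)) : fv J Λ ω A + fv J Λ ω Aᶜ = 1 := by
  unfold fv
  rw [← add_div, ← Finset.sum_add_distrib, div_eq_one_iff_eq (den_pos J Λ ω).ne']
  refine Finset.sum_congr rfl fun η _ => ?_
  by_cases h : glue Λ η ω ∈ A
  · simp [h]
  · simp [h]

theorem fv_mono {m : ℕ} (J : Bond m → ℝ) (Λ : Finset (Site m)) (ω : Site m → Bool)
    {A B : Set (Site m → Bool)} (h : A ⊆ B) : fv J Λ ω A ≤ fv J Λ ω B := by
  unfold fv
  refine div_le_div_of_nonneg_right (Finset.sum_le_sum fun η _ => ?_) (den_pos J Λ ω).le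
  refine mul_le_mul_of_nonneg_left ?_ (Real.exp_pos _).le
  exact Set.indicator_le_indicator_of_subset h (fun _ => zero_le_one) _

theorem fv_union {m : ℕ} (J : Bond m → ℝ) (Λ : Finset (Site m)) (ω : Site m → Bool)
    (A B : Set (Site m → Bool)) : fv J Λ ω (A ∪ B) ≤ fv J Λ ω A + fv J Λ ω B := by
  unfold fv
  rw [← add_div, ← Finset.sum_add_distrib]
  refine div_le_div_of_nonneg_right (Finset.sum_le_sum fun η _ => ?_) (den_pos J Λ ω).le
  rw [← mul_add]
  refine mul_le_mul_of_nonneg_left ?_ (Real.exp_pos _).le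
  by_cases hA : glue Λ η ω ∈ A <;> by_cases hB : glue Λ η ω ∈ B <;> simp [hA, hB]

/-! ## boundary conditions -/

/-- The boundary condition with sign `s i` on the plane of height `hs i`. -/
noncomputable def bcb {m k : ℕ} (hs : Fin k → Fin m → ℤ) (s : Fin k → Bool) : Site m → Bool :=
  fun v => Function.extend hs s (fun _ => true) v.2

theorem bcb_apply {m k : ℕ} {hs : Fin k → Fin m → ℤ} (hinj : Function.Injective hs)
    (s : Fin k → Bool) (x : Pt) (i : Fin k) : bcb hs s (x, hs i) = s i := by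
  unfold bcb
  exact hinj.extend_apply _ _ i

theorem spin_pm {m : ℕ} (ω : Site m → Bool) (v : Site m) : spin ω v = 1 ∨ spin ω v = -1 :=
  sg_pm _

theorem mem_box {m L : ℕ} {v : Site m} : v ∈ box m L ↔
    (∀ i, -(L : ℤ) ≤ v.1 i ∧ v.1 i ≤ L) ∧ ∀ j, -(L : ℤ) ≤ v.2 j ∧ v.2 j ≤ L := by
  unfold box
  simp only [Finset.mem_product, Fintype.mem_piFinset, Finset.mem_Icc]

theorem eventually_box {m : ℕ} (v : Site m) : ∀ᶠ L : ℕ in atTop, v ∈ box m L := by
  have h1 : ∀ i, ∀ᶠ L : ℕ in atTop, -(L : ℤ) ≤ v.1 i ∧ v.1 i ≤ L := by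
    intro i
    filter_upwards [eventually_ge_atTop (v.1 i).natAbs] with L hL
    omega
  have h2 : ∀ j, ∀ᶠ L : ℕ in atTop, -(L : ℤ) ≤ v.2 j ∧ v.2 j ≤ L := by
    intro j
    filter_upwards [eventually_ge_atTop (v.2 j).natAbs] with L hL
    omega
  filter_upwards [Filter.eventually_all.2 h1, Filter.eventually_all.2 h2] with L h1 h2
  exact mem_box.2 ⟨h1, h2⟩

/-- The translation of configurations. -/
def tr {m : ℕ} (x : Pt) (ω : Site m → Bool) : Site m → Bool := fun v => ω (v - (x, 0))

theorem tr_meas {m : ℕ} (x : Pt) : Measurable (tr (m := m) x) :=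
  measurable_pi_lambda _ fun _ => measurable_pi_apply _

theorem pow_mul_le {k : ℕ} (hk : k ≤ 2) : 2 ^ k * k ≤ 8 := by
  interval_cases k <;> norm_num

theorem main1 (hlro : S_LRO1) (hmis : S_MIS) (hzo : S_ZO) (hmeas : S_MEAS1) (m : ℕ) (c : ℝ≥0) :
    ∃ K₀ : ℝ, ∀ (μ : Measure ℝ) [IsProbabilityMeasure μ], μ.map (fun x => -x) = μ →
    HasSubgaussianMGF id c μ → ∀ ψ : ℝ → ℝ, Measurable ψ → (∀ x, K₀ ≤ ψ x) →
    ∀ β : ℝ, 1 ≤ β → ∀ (H : Set (Fin m → ℤ)) (k : ℕ), k ≤ 2 → ∀ hs : Fin k → Fin m → ℤ,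
    Function.Injective hs → (∀ i, hs i ∈ H) → ∀ᵐ J ∂(law m μ), ∃ x : Pt, ∃ᶠ L : ℕ in atTop,
      ∀ s i, fv (shift x (β • plant H ψ J)) (box m L) (bcb hs s)
        {ω | ω ((0 : Pt), hs i) ≠ s i} ≤ 1 / 8 := by
  obtain ⟨K₀, hK₀, hl⟩ := hlro m c (1 / 16) (by norm_num)
  refine ⟨K₀, fun μ _ hsym hsub ψ hψ hψK β hβ H k hk hs hinj hsH => ?_⟩
  set Q : ℕ → Set (Bond m → ℝ) := fun L => ⋂ s : Fin k → Bool, ⋂ i : Fin k,
    {J | 1 / 8 < mis (box m L) (spin (bcb hs s)) (β • plant H ψ J) ((0 : Pt), hs i)}ᶜ with hQ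
  have hQm : ∀ L, MeasurableSet (Q L) := fun L => MeasurableSet.iInter fun s =>
    MeasurableSet.iInter fun i => (hmeas m L H ψ hψ β _ _).compl
  have hQP : ∀ L, 1 / 2 ≤ law m μ (Q L) := by
    intro L
    have h1 : law m μ (Q L)ᶜ ≤ 1 / 2 := by
      rw [hQ]
      simp only [Set.compl_iInter, compl_compl]
      refine (measure_iUnion_le _).trans ?_
      rw [tsum_fintype]
      have h2 : ∀ s : Fin k → Bool, law m μ (⋃ i : Fin k,
          {J | 1 / 8 < mis (box m L) (spin (bcb hs s)) (β • plant H ψ J) ((0 : Pt), hs i)}) ≤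
          k * ENNReal.ofReal (1 / 16) := by
        intro s
        refine (measure_iUnion_le _).trans ?_
        rw [tsum_fintype]
        refine (Finset.sum_le_sum fun i _ => hl μ hsym hsub ψ hψ hψK β hβ H (hs i) (hsH i) L
          (spin (bcb hs s)) (spin_pm _) (fun x => rfl)).trans ?_
        simp
      refine (Finset.sum_le_sum fun s _ => h2 s).trans ?_
      rw [Finset.sum_const, Finset.card_univ, nsmul_eq_mul]
      have e : ENNReal.ofReal (1 / 16) = 1 / 16 := by
        rw [ENNReal.ofReal_div_of_pos (by norm_num)]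
        simp
      rw [e]
      have hcard : Fintype.card (Fin k → Bool) = 2 ^ k := by simp
      rw [hcard]
      have hnat : ((2 ^ k : ℕ) : ℝ≥0∞) * (k * (1 / 16)) = ((2 ^ k * k : ℕ) : ℝ≥0∞) * (1 / 16) := by
        push_cast
        ring
      rw [hnat]
      have h8 : (2 ^ k * k : ℕ) ≤ 8 := pow_mul_le hk
      calc ((2 ^ k * k : ℕ) : ℝ≥0∞) * (1 / 16) ≤ ((8 : ℕ) : ℝ≥0∞) * (1 / 16) := by
            gcongr
        _ = 1 / 2 := by
            have h816 : ((8 : ℕ) : ℝ≥0∞) * (1 / 16) = ENNReal.ofReal (8 * (1 / 16)) := by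
              rw [ENNReal.ofReal_mul (by norm_num), e]
              simp
            rw [h816]
            norm_num
            rw [ENNReal.ofReal_div_of_pos (by norm_num)]
            simp
    have h3 : (1 : ℝ≥0∞) ≤ law m μ (Q L) + law m μ (Q L)ᶜ := by
      rw [measure_add_measure_compl (hQm L), measure_univ]
    by_contra hcon
    rw [not_le] at hcon
    have h4 : law m μ (Q L) + law m μ (Q L)ᶜ < 1 / 2 + 1 / 2 :=
      ENNReal.add_lt_add_of_lt_of_le (by norm_num) hcon h1
    rw [ENNReal.add_halves] at h4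
    exact absurd h3 (not_le.2 h4)
  obtain ⟨hFm, hF0⟩ := freq_measure (law m μ) _ hQm hQP
  filter_upwards [hzo m μ _ hFm hF0] with J hJ
  obtain ⟨x, hx⟩ := hJ
  have hx' : ∃ᶠ L in atTop, shift x J ∈ Q L := hx
  have hev : ∀ᶠ L : ℕ in atTop, ∀ i : Fin k, ((0 : Pt), hs i) ∈ box m L :=
    Filter.eventually_all.2 fun i => eventually_box _
  refine ⟨x, (hx'.and_eventually hev).mono ?_⟩
  rintro L ⟨hL, hbox⟩ s i
  have e1 : {ω : Site m → Bool | ω ((0 : Pt), hs i) ≠ s i} =
      {ω' | ω' ((0 : Pt), hs i) ≠ bcb hs s ((0 : Pt), hs i)} := by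
    rw [bcb_apply hinj]
  have e2 : shift x (β • plant H ψ J) = β • plant H ψ (shift x J) := by
    rw [plant_shift]
    rfl
  rw [e1, e2, hmis m _ _ _ _ (hbox i)]
  have h5 := Set.mem_iInter.1 (Set.mem_iInter.1 hL s) i
  exact not_lt.1 h5

theorem t_T1 (hlro : S_LRO1) (hmis : S_MIS) (hzo : S_ZO) (hmeas : S_MEAS1) (hgib : S_GIBL)
    (htrn : S_TRN1) : S_T1 := by
  intro m c
  obtain ⟨K₀, hm⟩ := main1 hlro hmis hzo hmeas m c
  refine ⟨K₀, fun μ _ hsym hsub ψ hψ hψK β hβ H => ⟨fun hH => ?_, fun hH => ?_⟩⟩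
  · obtain ⟨h0, hh0⟩ := hH
    set hs : Fin 1 → Fin m → ℤ := fun _ => h0 with hhs
    have hinj : Function.Injective hs := fun i j _ => Subsingleton.elim i j
    filter_upwards [hm μ hsym hsub ψ hψ hψK β hβ H 1 (by norm_num) hs hinj (fun _ => hh0)]
      with J hJ
    obtain ⟨x, hx⟩ := hJ
    set A : Bool → Set (Site m → Bool) := fun b => {ω | ω ((0 : Pt), h0) = b} with hA
    have hclo : ∀ b, IsClopen (A b) := by
      intro b
      exact (isClopen_discrete ({b} : Set Bool)).preimage (continuous_apply ((0 : Pt), h0))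
    have hex : ∀ b, ∃ π : Measure (Site m → Bool), IsGibbs (shift x (β • plant H ψ J)) π ∧
        7 / 8 ≤ (π (A b)).toReal := by
      intro b
      refine hgib m _ (A b) (7 / 8) (hclo b) (hx.mono fun L hL => ⟨bcb hs fun _ => b, ?_⟩)
      have h1 := hL (fun _ => b) 0
      have h2 := fv_compl (shift x (β • plant H ψ J)) (box m L) (bcb hs fun _ => b) (A b)
      have e : (A b)ᶜ = {ω | ω ((0 : Pt), hs 0) ≠ b} := by
        ext ω; simp [hA, hhs]
      rw [e] at h2
      linarith
    obtain ⟨π, hπ, hπA⟩ := hex true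
    obtain ⟨π', hπ', hπA'⟩ := hex false
    refine ⟨π.map (tr x), π'.map (tr x), htrn m x _ π hπ, htrn m x _ π' hπ', fun heq => ?_⟩
    have := hπ.1
    have := hπ'.1
    have hval : ∀ (ρ : Measure (Site m → Bool)),
        (ρ.map (tr x)) {ω | ω ((x, h0) : Site m) = true} = ρ (A true) := by
      intro ρ
      have hms : MeasurableSet {ω : Site m → Bool | ω ((x, h0) : Site m) = true} := by
        have hf : Measurable fun ω : Site m → Bool => ω ((x, h0) : Site m) :=
          measurable_pi_apply _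
        exact hf (measurableSet_singleton true)
      rw [Measure.map_apply (tr_meas x) hms]
      congr 1
      ext ω
      have : (tr x ω) (x, h0) = ω ((0 : Pt), h0) := by
        unfold tr
        congr 1
        ext1 <;> simp
      simp only [Set.mem_preimage, Set.mem_ofPred_eq, this, hA]
    have h1 := hval π
    have h2 := hval π'
    rw [heq, h2] at h1
    have hdis : (π' (A true)).toReal ≤ 1 - (π' (A false)).toReal := by
      have hc : (A false)ᶜ = A true := by
        ext ω; simp [hA]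
      rw [← hc]
      have h6 : π'.real (A false)ᶜ = 1 - π'.real (A false) := by
        rw [measureReal_compl (hclo false).1.measurableSet, probReal_univ]
      exact h6.le
    rw [h1] at hdis
    linarith
  · obtain ⟨h0, hh0, h1, hh1, hne⟩ := hH
    set hs : Fin 2 → Fin m → ℤ := ![h0, h1] with hhs
    have hinj : Function.Injective hs := by
      intro i j hij
      fin_cases i <;> fin_cases j <;> simp_all
    have hsH : ∀ i, hs i ∈ H := by
      intro i
      fin_cases i <;> simpa [hhs]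
    filter_upwards [hm μ hsym hsub ψ hψ hψK β hβ H 2 le_rfl hs hinj hsH] with J hJ
    obtain ⟨x, hx⟩ := hJ
    set A : Set (Site m → Bool) := {ω | ω ((0 : Pt), h0) = ω ((0 : Pt), h1)} with hA
    have hclo : IsClopen A := by
      have hc : Continuous fun ω : Site m → Bool => (ω ((0 : Pt), h0), ω ((0 : Pt), h1)) :=
        (continuous_apply _).prodMk (continuous_apply _)
      exact (isClopen_discrete {p : Bool × Bool | p.1 = p.2}).preimage hc
    have hhs0 : hs 0 = h0 := rfl
    have hhs1 : hs 1 = h1 := rfl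
    obtain ⟨π, hπ, hπA⟩ : ∃ π : Measure (Site m → Bool),
        IsGibbs (shift x (β • plant H ψ J)) π ∧ 3 / 4 ≤ (π A).toReal := by
      refine hgib m _ A (3 / 4) hclo (hx.mono fun L hL => ⟨bcb hs ![true, true], ?_⟩)
      have a0 := hL ![true, true] 0
      have a1 := hL ![true, true] 1
      rw [hhs0] at a0
      rw [hhs1] at a1
      have h2 := fv_compl (shift x (β • plant H ψ J)) (box m L) (bcb hs ![true, true]) A
      have hsub : Aᶜ ⊆ {ω : Site m → Bool | ω ((0 : Pt), h0) ≠ ![true, true] 0} ∪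
          {ω | ω ((0 : Pt), h1) ≠ ![true, true] 1} := by
        intro ω hω
        by_contra hcon
        simp only [Set.mem_union, Set.mem_ofPred_eq, not_or, not_not, Matrix.cons_val_zero,
          Matrix.cons_val_one] at hcon
        exact hω (by rw [hA, Set.mem_ofPred_eq, hcon.1, hcon.2])
      have h3 := fv_mono (shift x (β • plant H ψ J)) (box m L) (bcb hs ![true, true]) hsub
      have h4 := fv_union (shift x (β • plant H ψ J)) (box m L) (bcb hs ![true, true])
        {ω : Site m → Bool | ω ((0 : Pt), h0) ≠ ![true, true] 0}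
        {ω | ω ((0 : Pt), h1) ≠ ![true, true] 1}
      linarith
    obtain ⟨π', hπ', hπA'⟩ : ∃ π : Measure (Site m → Bool),
        IsGibbs (shift x (β • plant H ψ J)) π ∧ 3 / 4 ≤ (π Aᶜ).toReal := by
      refine hgib m _ Aᶜ (3 / 4) hclo.compl (hx.mono fun L hL => ⟨bcb hs ![true, false], ?_⟩)
      have a0 := hL ![true, false] 0
      have a1 := hL ![true, false] 1
      rw [hhs0] at a0
      rw [hhs1] at a1
      have h2 := fv_compl (shift x (β • plant H ψ J)) (box m L) (bcb hs ![true, false]) A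
      have hsub : A ⊆ {ω : Site m → Bool | ω ((0 : Pt), h0) ≠ ![true, false] 0} ∪
          {ω | ω ((0 : Pt), h1) ≠ ![true, false] 1} := by
        intro ω hω
        by_contra hcon
        simp only [Set.mem_union, Set.mem_ofPred_eq, not_or, not_not, Matrix.cons_val_zero,
          Matrix.cons_val_one] at hcon
        have hω' : ω ((0 : Pt), h0) = ω ((0 : Pt), h1) := hω
        rw [hcon.1, hcon.2] at hω'
        exact Bool.noConfusion hω'
      have h3 := fv_mono (shift x (β • plant H ψ J)) (box m L) (bcb hs ![true, false]) hsub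
      have h4 := fv_union (shift x (β • plant H ψ J)) (box m L) (bcb hs ![true, false])
        {ω : Site m → Bool | ω ((0 : Pt), h0) ≠ ![true, false] 0}
        {ω | ω ((0 : Pt), h1) ≠ ![true, false] 1}
      linarith
    have := hπ.1
    have := hπ'.1
    have hval : ∀ (ρ : Measure (Site m → Bool)),
        (ρ.map (tr x)) {ω | ω ((x, h0) : Site m) = ω ((x, h1) : Site m)} = ρ A := by
      intro ρ
      have hms : MeasurableSet {ω : Site m → Bool | ω ((x, h0) : Site m) = ω (x, h1)} :=
        measurableSet_eq_fun (measurable_pi_apply _) (measurable_pi_apply _)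
      rw [Measure.map_apply (tr_meas x) hms]
      congr 1
      ext ω
      have e0 : (tr x ω) (x, h0) = ω ((0 : Pt), h0) := by
        unfold tr
        congr 1
        ext1 <;> simp
      have e1 : (tr x ω) (x, h1) = ω ((0 : Pt), h1) := by
        unfold tr
        congr 1
        ext1 <;> simp
      simp only [Set.mem_preimage, Set.mem_ofPred_eq, e0, e1, hA]
    refine ⟨π.map (tr x), π'.map (tr x), (x, h0), (x, h1), htrn m x _ π hπ,
      htrn m x _ π' hπ', ?_, ?_⟩
    · rw [hval π]
      linarith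
    · rw [hval π']
      have h6 : π'.real Aᶜ = 1 - π'.real A := by
        rw [measureReal_compl hclo.1.measurableSet, probReal_univ]
      have h7 : (π' Aᶜ).toReal = 1 - (π' A).toReal := h6
      linarith

end Pool.Agent.Q83.SG
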