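import Pool.Agent.Q83.SG.Stm

set_option autoImplicit false

open MeasureTheory ProbabilityTheory Filter
open scoped ENNReal NNReal

namespace Pool.Agent.Q83.SG

/-! ## translations -/

theorem plant_shift {m : ℕ} (x : Pt) (H : Set (Fin m → ℤ)) (ψ : ℝ → ℝ) (J : Bond m → ℝ) :
    plant H ψ (shift x J) = shift x (plant H ψ J) := by
  funext b
  have e : (b.1 + ((x, 0) : Site m)).2 = b.1.2 := by simp
  by_cases h : b.2.isLeft ∧ b.1.2 ∈ H
  · have h' : b.2.isLeft ∧ (b.1 + ((x, 0) : Site m)).2 ∈ H := by rw [e]; exact h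
    simp only [plant, shift, if_pos h, if_pos h']
  · have h' : ¬ (b.2.isLeft ∧ (b.1 + ((x, 0) : Site m)).2 ∈ H) := by rw [e]; exact h
    simp only [plant, shift, if_neg h, if_neg h']

theorem mem_mapadd {m : ℕ} {T : Finset (Site m)} {w v : Site m} :
    v ∈ T.map (Equiv.addRight w).toEmbedding ↔ v - w ∈ T := by
  rw [Finset.mem_map]
  constructor
  · rintro ⟨a, ha, rfl⟩
    simpa using ha
  · intro h
    exact ⟨v - w, h, by simp⟩

theorem mem_mapsub {m : ℕ} {T : Finset (Site m)} {w v : Site m} :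
    v ∈ T.map (Equiv.subRight w).toEmbedding ↔ v + w ∈ T := by
  rw [Finset.mem_map]
  constructor
  · rintro ⟨a, ha, rfl⟩
    simpa using ha
  · intro h
    exact ⟨v + w, h, by simp⟩

theorem far_add {m : ℕ} (w : Site m) (b : Bond m) : far (b.1 + w, b.2) = far b + w := by
  unfold far
  simp only
  abel

theorem mem_bonds {m : ℕ} {Λ : Finset (Site m)} {b : Bond m} :
    b ∈ bonds Λ ↔ b.1 ∈ Λ ∨ far b ∈ Λ := by
  unfold bonds far
  simp only [Finset.mem_biUnion, Finset.mem_univ, true_and, Finset.mem_insert,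
    Finset.mem_singleton]
  constructor
  · rintro ⟨v, hv, a, h | h⟩
    · left; rw [h]; exact hv
    · right; rw [h]; simpa using hv
  · rintro (h | h)
    · exact ⟨b.1, h, b.2, Or.inl rfl⟩
    · refine ⟨b.1 + dir b.2, h, b.2, Or.inr ?_⟩
      ext1
      · simp
      · rfl

theorem pair_shift {m : ℕ} (x : Pt) (J : Bond m → ℝ) (T : Finset (Site m)) (σ : Site m → ℝ) :
    pair J (T.map (Equiv.addRight ((x, 0) : Site m)).toEmbedding) (fun v => σ (v - (x, 0))) =
      pair (shift x J) T σ := by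
  unfold pair
  symm
  refine Finset.sum_bij (fun b _ => ((b.1 + (x, 0), b.2) : Bond m)) ?_ ?_ ?_ ?_
  · intro b hb
    rw [mem_bonds] at hb ⊢
    rw [far_add, mem_mapadd, mem_mapadd, add_sub_cancel_right, add_sub_cancel_right]
    exact hb
  · intro b _ b' _ h
    rw [Prod.mk.injEq] at h
    exact Prod.ext (add_right_cancel h.1) h.2
  · intro b hb
    refine ⟨(b.1 - (x, 0), b.2), ?_, ?_⟩
    · rw [mem_bonds] at hb ⊢
      have e : far ((b.1 - (x, 0), b.2) : Bond m) = far b - (x, 0) := by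
        unfold far
        simp only
        abel
      rw [mem_mapadd, mem_mapadd] at hb
      rw [e]
      exact hb
    · simp
  · intro b _
    unfold shift
    rw [far_add]
    simp

theorem weak_shift {m : ℕ} {x : Pt} {J : Bond m → ℝ} {σ : Site m → ℝ} (h : Weak (shift x J) σ) :
    Weak J (fun v => σ (v - (x, 0))) := by
  refine ⟨fun v => h.1 _, fun T' => ?_⟩
  set T : Finset (Site m) := T'.map (Equiv.subRight ((x, 0) : Site m)).toEmbedding with hT
  have hTT : T' = T.map (Equiv.addRight ((x, 0) : Site m)).toEmbedding := by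
    ext v
    rw [hT, mem_mapadd, mem_mapsub, sub_add_cancel]
  have hsw : sw T' (fun v => σ (v - (x, 0))) = fun v => (sw T σ) (v - (x, 0)) := by
    funext v
    unfold sw
    have : v ∈ T' ↔ v - (x, 0) ∈ T := by
      rw [hT, mem_mapsub, sub_add_cancel]
    by_cases hv : v ∈ T'
    · simp [hv, this.1 hv]
    · have hv' : v - (x, 0) ∉ T := fun h => hv (this.2 h)
      simp [hv, hv']
  rw [hsw, hTT, pair_shift x J T (sw T σ), pair_shift x J T σ]
  exact h.2 T

/-! ## boundary conditions -/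

theorem sg_inj {a b : Bool} (h : sg a = sg b) : a = b := by
  cases a <;> cases b
  · rfl
  · norm_num [sg] at h
  · norm_num [sg] at h
  · rfl

theorem sg_pm (a : Bool) : sg a = 1 ∨ sg a = -1 := by
  unfold sg
  cases a <;> simp

/-- The boundary condition with sign `s i` on the plane of height `hs i`. -/
noncomputable def bc {m k : ℕ} (hs : Fin k → Fin m → ℤ) (s : Fin k → Bool) : Site m → ℝ :=
  fun v => Function.extend hs (fun i => sg (s i)) (fun _ => 1) v.2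

theorem bc_pm {m k : ℕ} (hs : Fin k → Fin m → ℤ) (s : Fin k → Bool) (v : Site m) :
    bc hs s v = 1 ∨ bc hs s v = -1 := by
  unfold bc Function.extend
  split_ifs
  · exact sg_pm _
  · left; rfl

theorem bc_apply {m k : ℕ} {hs : Fin k → Fin m → ℤ} (hinj : Function.Injective hs)
    (s : Fin k → Bool) (x : Pt) (i : Fin k) : bc hs s (x, hs i) = sg (s i) := by
  unfold bc
  exact hinj.extend_apply _ _ i

theorem sw_pm {m : ℕ} {τ : Site m → ℝ} (hτ : ∀ v, τ v = 1 ∨ τ v = -1) (T : Finset (Site m))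
    (v : Site m) : sw T τ v = 1 ∨ sw T τ v = -1 := by
  unfold sw
  split_ifs
  · rcases hτ v with h | h <;> simp [h]
  · exact hτ v

/-- The patterns of the maximisers. -/
def pat {m k : ℕ} (H : Set (Fin m → ℤ)) (ψ : ℝ → ℝ) (hs : Fin k → Fin m → ℤ) (L : ℕ)
    (s : Fin k → Bool) (J : Bond m → ℝ) : Set (Fin k → Bool) :=
  {p | ∃ σ, IsMax (box m L) (bc hs s) (plant H ψ J) σ ∧ ∀ i, σ ((0 : Pt), hs i) = sg (p i)}

theorem exists_max {m : ℕ} (Λ : Finset (Site m)) (τ : Site m → ℝ) (J : Bond m → ℝ) :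
    ∃ σ, IsMax Λ τ J σ := by
  obtain ⟨T, hT, hmax⟩ := Finset.exists_max_image Λ.powerset (fun T => pair J Λ (sw T τ))
    ⟨∅, Finset.empty_mem_powerset Λ⟩
  exact ⟨sw T τ, ⟨T, Finset.mem_powerset.1 hT, rfl⟩, fun T' hT' =>
    hmax T' (Finset.mem_powerset.2 hT')⟩

theorem exists_bool {a : ℝ} (h : a = 1 ∨ a = -1) : ∃ b, a = sg b := by
  rcases h with h | h
  · exact ⟨true, by simp [sg, h]⟩
  · exact ⟨false, by simp [sg, h]⟩

theorem pat_nonempty {m k : ℕ} (H : Set (Fin m → ℤ)) (ψ : ℝ → ℝ) (hs : Fin k → Fin m → ℤ) (L : ℕ)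
    (s : Fin k → Bool) (J : Bond m → ℝ) : (pat H ψ hs L s J).Nonempty := by
  obtain ⟨σ, hσ⟩ := exists_max (box m L) (bc hs s) (plant H ψ J)
  have hpm : ∀ v, σ v = 1 ∨ σ v = -1 := by
    obtain ⟨T, -, rfl⟩ := hσ.1
    exact sw_pm (bc_pm hs s) T
  choose p hp using fun i : Fin k => exists_bool (hpm ((0 : Pt), hs i))
  exact ⟨p, σ, hσ, hp⟩

/-! ## from boxes to the infinite volume -/

theorem freq_measure {Ω : Type} [MeasurableSpace Ω] (P : Measure Ω) [IsProbabilityMeasure P]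
    (Q : ℕ → Set Ω) (hQ : ∀ L, MeasurableSet (Q L)) (h : ∀ L, 1 / 2 ≤ P (Q L)) :
    MeasurableSet {ω | ∃ᶠ L in atTop, ω ∈ Q L} ∧ P {ω | ∃ᶠ L in atTop, ω ∈ Q L} ≠ 0 := by
  have e : {ω | ∃ᶠ L in atTop, ω ∈ Q L} = ⋂ N : ℕ, ⋃ L : ℕ, ⋃ _ : N ≤ L, Q L := by
    ext ω
    simp only [Set.mem_ofPred_eq, Filter.frequently_atTop, Set.mem_iInter, Set.mem_iUnion,
      exists_prop]
  have hm : ∀ N : ℕ, MeasurableSet (⋃ L : ℕ, ⋃ _ : N ≤ L, Q L) := fun N =>
    MeasurableSet.iUnion fun L => MeasurableSet.iUnion fun _ => hQ L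
  rw [e]
  refine ⟨MeasurableSet.iInter hm, ?_⟩
  have hanti : Antitone fun N : ℕ => ⋃ L : ℕ, ⋃ _ : N ≤ L, Q L := by
    intro N N' hN
    refine Set.iUnion_mono fun L => ?_
    intro ω hω
    simp only [Set.mem_iUnion, exists_prop] at hω ⊢
    exact ⟨hN.trans hω.1, hω.2⟩
  rw [hanti.measure_iInter (fun N => (hm N).nullMeasurableSet) ⟨0, measure_ne_top _ _⟩]
  have : (1 / 2 : ℝ≥0∞) ≤ ⨅ N : ℕ, P (⋃ L : ℕ, ⋃ _ : N ≤ L, Q L) := by
    refine le_iInf fun N => (h N).trans (measure_mono ?_)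
    intro ω hω
    simp only [Set.mem_iUnion, exists_prop]
    exact ⟨N, le_rfl, hω⟩
  intro h0
  rw [h0] at this
  simp at this

theorem main0 (hcpt : S_CPT) (hgen : S_GEN) (hzo : S_ZO) (hmeas : S_MEAS0)
    {m k : ℕ} (hm : 1 ≤ m) (μ : Measure ℝ) [IsProbabilityMeasure μ] (hat : ∀ x, μ {x} = 0)
    (ψ : ℝ → ℝ) (hψ : Measurable ψ) (H : Set (Fin m → ℤ)) (hs : Fin k → Fin m → ℤ) (n : ℕ)
    (hP : ∀ L, 1 / 2 ≤ law m μ {J | n ≤ (⋃ s, pat H ψ hs L s J).ncard}) :
    ∀ᵐ J ∂(law m μ), ∃ (Γ : Set (Fin k → Bool)) (x : Pt), n ≤ Γ.ncard ∧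
      ∀ p ∈ Γ, ∃ σ, IsGS (plant H ψ J) σ ∧ ∀ i, σ (x, hs i) = sg (p i) := by
  have hQm : ∀ L, MeasurableSet {J : Bond m → ℝ | n ≤ (⋃ s, pat H ψ hs L s J).ncard} :=
    fun L => hmeas m k L n H ψ hψ (fun i => ((0 : Pt), hs i)) (fun s => bc hs s)
  obtain ⟨hFm, hF0⟩ := freq_measure (law m μ) _ hQm hP
  filter_upwards [hzo m μ _ hFm hF0, hgen m hm μ hat H ψ hψ] with J hJ hg
  obtain ⟨x, hx⟩ := hJ
  have hx' : ∃ᶠ L in atTop, n ≤ (⋃ s, pat H ψ hs L s (shift x J)).ncard := hx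
  have hpig : ∃ Γ : Set (Fin k → Bool), ∃ᶠ L in atTop,
      (⋃ s, pat H ψ hs L s (shift x J)) = Γ ∧ n ≤ Γ.ncard := by
    by_contra hcon
    push Not at hcon
    have h1 : ∀ Γ : Set (Fin k → Bool), ∀ᶠ L in atTop,
        ¬ ((⋃ s, pat H ψ hs L s (shift x J)) = Γ ∧ n ≤ Γ.ncard) := by
      intro Γ
      filter_upwards [hcon Γ] with L hL h2
      exact absurd h2.2 (not_le.2 (hL h2.1))
    have h2 := Filter.eventually_all.2 h1
    obtain ⟨L, hL1, hL2⟩ := (hx'.and_eventually h2).exists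
    exact hL2 _ ⟨rfl, hL1⟩
  obtain ⟨Γ, hΓ⟩ := hpig
  refine ⟨Γ, x, ?_, ?_⟩
  · obtain ⟨L, hL⟩ := hΓ.exists
    exact hL.2
  · intro p hp
    have hfr : ∃ᶠ L : ℕ in atTop, ∃ τ σ : Site m → ℝ, (∀ v, τ v = 1 ∨ τ v = -1) ∧
        IsMax (box m L) τ (plant H ψ (shift x J)) σ ∧
        ∀ i, σ ((0 : Pt), hs i) = sg (p i) := by
      refine hΓ.mono fun L hL => ?_
      rw [← hL.1] at hp
      obtain ⟨s, hs'⟩ := Set.mem_iUnion.1 hp
      obtain ⟨σ, hσ, hσp⟩ := hs'
      exact ⟨bc hs s, σ, bc_pm hs s, hσ, hσp⟩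
    obtain ⟨σ, hσ, hσp⟩ := hcpt m k _ (fun i => ((0 : Pt), hs i)) p hfr
    rw [plant_shift] at hσ
    refine ⟨_, hg _ (weak_shift hσ), fun i => ?_⟩
    rw [← hσp i]
    congr 1
    ext1 <;> simp

theorem t_T2 (hlro : S_LRO0) (hpat2 : S_PAT2) (hpatk : S_PATK) (hcpt : S_CPT) (hgen : S_GEN)
    (hzo : S_ZO) (hmeas : S_MEAS0) : S_T2 := by
  intro m c hm
  obtain ⟨K₀, hK₀, hl⟩ := hlro m c (1 / 64) (by norm_num)
  refine ⟨K₀, fun μ _ hat hsym hsub ψ hψ hψK H => ?_⟩
  have hev : ∀ (k : ℕ) (hs : Fin k → Fin m → ℤ), Function.Injective hs → (∀ i, hs i ∈ H) →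
      ∀ (L : ℕ) (s : Fin k → Bool) (i : Fin k),
      law m μ {J | ∃ p ∈ pat H ψ hs L s J, p i ≠ s i} ≤ ENNReal.ofReal (1 / 64) := by
    intro k hs hinj hsH L s i
    refine le_trans (measure_mono ?_) (hl μ hsym hsub ψ hψ hψK H (hs i) (hsH i) L (bc hs s)
      (bc_pm hs s) (fun x => rfl))
    rintro J ⟨p, ⟨σ, hσ, hσp⟩, hne⟩
    refine ⟨σ, hσ, ?_⟩
    rw [hσp i, bc_apply hinj]
    exact fun h => hne (sg_inj h)
  constructor
  · intro hH
    obtain ⟨h0, hh0, h1, hh1, hne⟩ := hH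
    set hs : Fin 2 → Fin m → ℤ := ![h0, h1] with hhs
    have hinj : Function.Injective hs := by
      intro i j hij
      fin_cases i <;> fin_cases j <;> simp_all
    have hsH : ∀ i, hs i ∈ H := by
      intro i
      fin_cases i <;> simpa [hhs]
    have hP : ∀ L, 1 / 2 ≤ law m μ {J | 4 ≤ (⋃ s, pat H ψ hs L s J).ncard} := by
      intro L
      refine hpat2 (Bond m → ℝ) (law m μ) (fun s J => pat H ψ hs L s J)
        (fun s J => pat_nonempty H ψ hs L s J) fun s i => ?_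
      exact (hev 2 hs hinj hsH L s i).trans (ENNReal.ofReal_le_ofReal (by norm_num))
    filter_upwards [main0 hcpt hgen hzo hmeas hm μ hat ψ hψ H hs 4 hP] with J hJ
    obtain ⟨Γ, x, hΓ, hp⟩ := hJ
    have huniv : Γ = Set.univ := by
      have hc : (Set.univ : Set (Fin 2 → Bool)).ncard = 4 := by
        rw [Set.ncard_univ, Nat.card_eq_fintype_card]
        rfl
      refine Set.eq_of_subset_of_ncard_le (Set.subset_univ _) (by rw [hc]; exact hΓ)
        (Set.toFinite _)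
    obtain ⟨σ, hσ, hσp⟩ := hp ![true, true] (by rw [huniv]; trivial)
    obtain ⟨τ, hτ, hτp⟩ := hp ![true, false] (by rw [huniv]; trivial)
    have a0 := hσp 0
    have a1 := hσp 1
    have b0 := hτp 0
    have b1 := hτp 1
    simp only [sg, hhs, Matrix.cons_val_zero, Matrix.cons_val_one, if_true] at a0 a1 b0 b1
    refine ⟨σ, τ, hσ, hτ, ?_, ?_⟩
    · intro h
      rw [h, a1] at b1
      norm_num at b1
    · intro h
      rw [h, Pi.neg_apply, a0] at b0
      norm_num at b0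
  · intro hH
    have key : ∀ n : ℕ, ∀ᵐ J ∂(law m μ), (n : ℕ∞) ≤ {σ | IsGS (plant H ψ J) σ}.encard := by
      intro n
      obtain ⟨k, hk⟩ := hpatk n
      obtain ⟨t, htH, htk⟩ := hH.exists_subset_card_eq k
      set hs : Fin k → Fin m → ℤ := fun i => (t.equivFin.symm (Fin.cast htk.symm i)).1 with hhs
      have hinj : Function.Injective hs := by
        intro i j hij
        have h1 := t.equivFin.symm.injective (Subtype.ext hij)
        exact Fin.cast_injective _ h1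
      have hsH : ∀ i, hs i ∈ H := fun i => htH (t.equivFin.symm (Fin.cast htk.symm i)).2
      have hP : ∀ L, 1 / 2 ≤ law m μ {J | n ≤ (⋃ s, pat H ψ hs L s J).ncard} := fun L =>
        hk (Bond m → ℝ) (law m μ) (fun s J => pat H ψ hs L s J)
          (fun s J => pat_nonempty H ψ hs L s J) fun s i => hev k hs hinj hsH L s i
      filter_upwards [main0 hcpt hgen hzo hmeas hm μ hat ψ hψ H hs n hP] with J hJ
      obtain ⟨Γ, x, hΓ, hp⟩ := hJ
      choose! f hf hfp using hp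
      have hinjf : Set.InjOn f Γ := by
        intro p hp q hq hpq
        funext i
        apply sg_inj
        rw [← hfp p hp i, ← hfp q hq i, hpq]
      have h1 : (f '' Γ) ⊆ {σ | IsGS (plant H ψ J) σ} := by
        rintro _ ⟨p, hp, rfl⟩
        exact hf p hp
      calc (n : ℕ∞) ≤ (Γ.ncard : ℕ∞) := by exact_mod_cast hΓ
        _ = Γ.encard := (Set.toFinite Γ).cast_ncard_eq
        _ = (f '' Γ).encard := hinjf.encard_image.symm
        _ ≤ _ := Set.encard_le_encard h1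
    filter_upwards [ae_all_iff.2 key] with J hJ
    rw [← Set.encard_eq_top_iff]
    exact ENat.eq_top_iff_forall_ge.2 hJ

end Pool.Agent.Q83.SG
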