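import Pool.Agent.Q83.SG.Stm
import Pool.Agent.Q83.SG.LRO0
import Pool.Agent.Q83.SG.CHAIN
import Pool.Agent.Q83.SG.CHAINN
import Pool.Agent.Q83.SG.COUNT
import Pool.Agent.Q83.SG.PAT2
import Pool.Agent.Q83.SG.T1
import Pool.Agent.Q83.SG.T2
import Pool.Agent.Q239.SG.CONTOUR
import Pool.Agent.Q239.SG.ISO
import Pool.Agent.Q239.SG.CG
import Pool.Agent.Q239.SG.WALK
import Pool.Agent.Q198.SG.GIBL
import Pool.Agent.Q198.SG.MGF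
import Pool.Agent.Q198.SG.NUMER
import Pool.Agent.Q198.SG.TAIL
import Pool.Agent.Q198.SG.VISIT
import Pool.Agent.Q211.SG.ENE
import Pool.Agent.Q211.SG.GEN
import Pool.Agent.Q211.SG.MEAS0
import Pool.Agent.Q211.SG.MIS
import Pool.Agent.Q211.SG.PATK
import Pool.Agent.Q211.SG.PEI0
import Pool.Agent.Q211.SG.TRN
import Pool.Agent.Q211.SG.ZO
import Pool.Agent.Q299.SG.CPT
import Pool.Agent.Q299.SG.LIP
import Pool.Agent.Q299.SG.LISTS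
import Pool.Agent.Q299.SG.PEI1
import Pool.Agent.Q299.SG.SER
import Pool.Agent.Q299.SG.TRN1

/-! # Project SG: assembly -/

set_option autoImplicit false

namespace Pool.Agent.Q83.SG

theorem a_VISIT : S_VISIT := Q198.SG.t_VISIT Q239.SG.t_COARSE Q239.SG.t_WALK Q239.SG.t_START

theorem a_COUNT : S_COUNT := t_COUNT Q239.SG.t_COARSE Q239.SG.t_SMALL Q299.SG.t_LISTS a_VISIT

theorem a_CHAIN : S_CHAIN :=
  t_CHAIN a_COUNT (t_CHAINN Q239.SG.t_CGDIFF Q239.SG.t_SMALL) Q198.SG.t_NUMER Q239.SG.t_SMALL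

theorem a_TAIL : S_TAIL := Q198.SG.t_TAIL Q198.SG.t_MGF

theorem a_ENE : S_ENE := Q211.SG.t_ENE Q239.SG.t_CONTOUR

theorem a_LRO0 : S_LRO0 := t_LRO0 a_CHAIN a_TAIL Q299.SG.t_LIP (Q211.SG.t_PEI0 a_ENE)

theorem a_LRO1 : S_LRO1 := t_LRO1 a_CHAIN a_TAIL Q299.SG.t_LIP (Q299.SG.t_PEI1 a_ENE)
  (Q299.SG.t_SER a_COUNT Q239.SG.t_SMALL)

/-- **T2.** -/
theorem a_T2 : S_T2 := t_T2 a_LRO0 t_PAT2 Q211.SG.t_PATK Q299.SG.t_CPT Q211.SG.t_GEN Q211.SG.t_ZO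
  Q211.SG.t_MEAS0

/-- **T1.** -/
theorem a_T1 : S_T1 := t_T1 a_LRO1 Q211.SG.t_MIS Q211.SG.t_ZO t_MEAS1 Q198.SG.t_GIBL Q299.SG.t_TRN1

end Pool.Agent.Q83.SG
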