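import Pool.Agent.Q211.SG.ENE

/-!
# Project SG: the energy identity without a lower bound for the couplings

A variant of `Q211.SG.t_ENE` (helper211).
-/

set_option autoImplicit false

namespace Pool.Agent.Q83.SG

open Q211.SG (in_cube mem_box mem_prod term_change sw_mem sw_not sw_symm mem_bd)

/-- The bond of the plane of height `h` above the edge `e`. -/
def emb {m : ℕ} (h : Fin m → ℤ) (e : Ed) : Bond m := ((e.1, h), Sum.inl e.2)

theorem emb_inj {m : ℕ} (h : Fin m → ℤ) : Function.Injective (emb h) := by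
  intro e e' hee
  have h1 : e.1 = e'.1 := congrArg (fun b : Bond m => b.1.1) hee
  have h2 : (Sum.inl e.2 : Fin 3 ⊕ Fin m) = Sum.inl e'.2 := congrArg (fun b : Bond m => b.2) hee
  exact Prod.ext h1 (Sum.inl_injective h2)

theorem far_emb {m : ℕ} (h : Fin m → ℤ) (e : Ed) : far (emb h e) = (e.1 + un e.2, h) := by
  change ((e.1, h) : Site m) + (un e.2, 0) = _
  rw [Prod.mk_add_mk, add_zero]

def S_ENE2 : Prop := ∀ (m L : ℕ) (h : Fin m → ℤ) (τ : Site m → ℝ) (T : Finset (Site m)),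
  (∀ v, τ v = 1 ∨ τ v = -1) → (∀ x, τ (x, h) = τ (0, h)) → T ⊆ box m L →
  ((0 : Pt), h) ∈ T → ∃ D : Finset Pt, Cont D ∧
    (D ×ˢ {h} : Finset (Site m)) ⊆ box m L ∧
    ∀ (J : Bond m → ℝ), pair J (box m L) (sw T τ) + 2 * ∑ e ∈ bd D, J (emb h e) =
        pair (flipAt (vert h D) J) (box m L) (sw (symmDiff T (D ×ˢ {h})) τ)

theorem t_ENE2 (hC : S_CONTOUR) : S_ENE2 := by
  intro m L h τ T hτ hc hT h0
  classical
  obtain ⟨S, hS⟩ : ∃ S : Finset Pt, S = (T.filter fun v => v.2 = h).image Prod.fst := ⟨_, rfl⟩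
  have hSm : ∀ x, x ∈ S ↔ (x, h) ∈ T := by
    intro x
    rw [hS, Finset.mem_image]
    constructor
    · rintro ⟨v, hv, rfl⟩
      rw [Finset.mem_filter] at hv
      obtain ⟨hv1, hv2⟩ := hv
      rw [← hv2]
      exact hv1
    · intro hx
      exact ⟨(x, h), Finset.mem_filter.2 ⟨hx, rfl⟩, rfl⟩
  obtain ⟨D, hD, hDS⟩ := hC S ((hSm 0).2 h0)
  have hScube : ∀ x ∈ S, ∀ i, |x i| ≤ L := fun x hx => (mem_box.1 (hT ((hSm x).1 hx))).1
  have hDcube := in_cube D S L hScube hDS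
  have hDbox : (D ×ˢ {h} : Finset (Site m)) ⊆ box m L := by
    intro v hv
    obtain ⟨h1, h2⟩ := mem_prod.1 hv
    rw [mem_box]
    refine ⟨hDcube _ h1, ?_⟩
    rw [h2]
    exact (mem_box.1 (hT h0)).2
  refine ⟨D, hD, hDbox, fun J => ?_⟩
  rw [sw_symm]
  obtain ⟨σ, hσ⟩ : ∃ σ : Site m → ℝ, σ = sw T τ := ⟨_, rfl⟩
  rw [← hσ]
  -- the values at the boundary
  have hneg : ∀ e ∈ bd D, σ (e.1, h) * σ (e.1 + un e.2, h) = -1 := by
    intro e he
    have h1 := hDS he
    rw [mem_bd, hSm, hSm] at h1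
    have hsq : τ (0, h) * τ (0, h) = 1 := by
      rcases hτ (0, h) with h2 | h2 <;> rw [h2] <;> norm_num
    rw [hσ]
    by_cases h2 : (e.1, h) ∈ T <;> by_cases h3 : (e.1 + un e.2, h) ∈ T
    · exact absurd ⟨fun _ => h3, fun _ => h2⟩ h1
    · rw [sw_mem _ h2, sw_not _ h3, hc e.1, hc (e.1 + un e.2)]
      linarith
    · rw [sw_not _ h2, sw_mem _ h3, hc e.1, hc (e.1 + un e.2)]
      linarith
    · exact absurd ⟨fun h4 => absurd h4 h2, fun h4 => absurd h4 h3⟩ h1
  let g : Bond m → ℝ := fun b =>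
    flipAt (vert h D) J b * (sw (D ×ˢ {h}) σ b.1 * sw (D ×ˢ {h}) σ (far b)) -
      J b * (σ b.1 * σ (far b))
  have hg0 : ∀ b, b ∉ (bd D).image (emb h) → g b = 0 := by
    intro b hb
    rcases term_change h D σ J b with h1 | ⟨i, h1, h2, h3, -⟩
    · change _ - _ = (0 : ℝ)
      rw [h1, sub_self]
    · exfalso
      apply hb
      rw [Finset.mem_image]
      refine ⟨(b.1.1, i), h3, ?_⟩
      unfold emb
      ext1
      · ext1
        · rfl
        · exact h2.symm
      · exact h1.symm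
  have hg1 : ∀ e ∈ bd D, g (emb h e) = 2 * J (emb h e) := by
    intro e he
    have h2 := mem_bd.1 he
    have hf : flipAt (vert h D) J (emb h e) = J (emb h e) := by
      unfold flipAt
      rw [if_neg]
      intro hv
      have := hv.1
      simp [emb] at this
    have h5 := hneg e he
    have h6 : sw (D ×ˢ {h}) σ (emb h e).1 * sw (D ×ˢ {h}) σ (far (emb h e)) = 1 := by
      rw [far_emb]
      change sw (D ×ˢ {h}) σ (e.1, h) * sw (D ×ˢ {h}) σ (e.1 + un e.2, h) = 1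
      by_cases h6 : e.1 ∈ D <;> by_cases h7 : e.1 + un e.2 ∈ D
      · exact absurd ⟨fun _ => h7, fun _ => h6⟩ h2
      · have m1 : ((e.1, h) : Site m) ∈ D ×ˢ ({h} : Finset (Fin m → ℤ)) := mem_prod.2 ⟨h6, rfl⟩
        have m2 : ((e.1 + un e.2, h) : Site m) ∉ D ×ˢ ({h} : Finset (Fin m → ℤ)) :=
          fun h8 => h7 (mem_prod.1 h8).1
        rw [sw_mem _ m1, sw_not _ m2]
        linarith
      · have m1 : ((e.1 + un e.2, h) : Site m) ∈ D ×ˢ ({h} : Finset (Fin m → ℤ)) :=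
          mem_prod.2 ⟨h7, rfl⟩
        have m2 : ((e.1, h) : Site m) ∉ D ×ˢ ({h} : Finset (Fin m → ℤ)) :=
          fun h8 => h6 (mem_prod.1 h8).1
        rw [sw_not _ m2, sw_mem _ m1]
        linarith
      · exact absurd ⟨fun h8 => absurd h8 h6, fun h8 => absurd h8 h7⟩ h2
    have h7 : σ (emb h e).1 * σ (far (emb h e)) = -1 := by
      rw [far_emb]
      exact h5
    change _ - _ = _
    rw [hf, h6, h7]
    ring
  have hsub : (bd D).image (emb h) ⊆ bonds (box m L) := by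
    intro b hb
    obtain ⟨e, he, rfl⟩ := Finset.mem_image.1 hb
    rw [Q211.SG.mem_bonds]
    have h1 := mem_bd.1 he
    by_cases h2 : e.1 ∈ D
    · exact Or.inl (hDbox (mem_prod.2 ⟨h2, rfl⟩))
    · right
      rw [far_emb]
      apply hDbox
      refine mem_prod.2 ⟨?_, rfl⟩
      by_contra h3
      exact h1 ⟨fun h4 => absurd h4 h2, fun h4 => absurd h4 h3⟩
  have h1 : ∑ b ∈ bonds (box m L), g b = 2 * ∑ e ∈ bd D, J (emb h e) := by
    rw [← Finset.sum_subset hsub fun b _ hb => hg0 b hb,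
      Finset.sum_image fun a _ b _ hab => emb_inj h hab, Finset.mul_sum]
    exact Finset.sum_congr rfl hg1
  have h2 : ∑ b ∈ bonds (box m L), g b =
      pair (flipAt (vert h D) J) (box m L) (sw (D ×ˢ {h}) σ) - pair J (box m L) σ := by
    unfold pair
    rw [← Finset.sum_sub_distrib]
  linarith

end Pool.Agent.Q83.SG
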