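import Pool.Agent.Q83.SG.GAU
import Pool.Agent.Q83.SG.All

/-! # Project SG: the final theorems -/

set_option autoImplicit false

namespace Pool.Agent.Q83.SG

theorem a_ENE2 : S_ENE2 := t_ENE2 Q239.SG.t_CONTOUR

theorem a_SER : S_SER := Q299.SG.t_SER a_COUNT Q239.SG.t_SMALL

theorem a_T2c : S_T2c := t_T2c (t_T2b (t_LRO0b a_CHAIN a_TAIL Q299.SG.t_LIP a_ENE2 a_SER)
  t_PAT2 Q211.SG.t_PATK Q299.SG.t_CPT Q211.SG.t_GEN Q211.SG.t_ZO Q211.SG.t_MEAS0)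

theorem a_T1c : S_T1c := t_T1c (t_T1b (t_LRO1b a_CHAIN a_TAIL Q299.SG.t_LIP a_ENE2 a_SER)
  Q211.SG.t_MIS Q211.SG.t_ZO t_MEAS1 Q198.SG.t_GIBL Q299.SG.t_TRN1)

end Pool.Agent.Q83.SG
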