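import Pool.Agent.Q83.SG.TB
import Pool.Agent.Q299.SG.TRN1

/-!
# Project SG: gauge transformations
-/

set_option autoImplicit false

open MeasureTheory ProbabilityTheory Filter
open scoped ENNReal NNReal

namespace Pool.Agent.Q83.SG

/-- The gauge transformation of the couplings. -/
def gau {m : ℕ} (ε : Site m → Bool) (K : Bond m → ℝ) : Bond m → ℝ :=
  fun b => sg (ε b.1) * sg (ε (far b)) * K b

theorem sg_sq (a : Bool) : sg a * sg a = 1 := by cases a <;> norm_num [sg]

theorem sg_ne (a : Bool) : sg a ≠ 0 := by cases a <;> norm_num [sg]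

theorem sg_beq (a b : Bool) : sg (a == b) = sg a * sg b := by
  cases a <;> cases b <;> norm_num [sg]

/-- Ground states and gauge transformations. -/
theorem gs_gau {m : ℕ} (ε : Site m → Bool) (K : Bond m → ℝ) (σ : Site m → ℝ) (h : IsGS K σ) :
    IsGS (gau ε K) (fun v => sg (ε v) * σ v) := by
  refine ⟨fun v => ?_, fun ρ hρ hfin hne => ?_⟩
  · rcases sg_pm (ε v) with h1 | h1 <;> rcases h.1 v with h2 | h2 <;> simp [h1, h2]
  · set ρ' : Site m → ℝ := fun v => sg (ε v) * ρ v with hρ'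
    have hρρ : ∀ v, ρ v = sg (ε v) * ρ' v := by
      intro v
      rw [hρ']
      simp only
      rw [← mul_assoc, sg_sq, one_mul]
    have h1 : {v | ρ' v ≠ σ v} = {v | ρ v ≠ sg (ε v) * σ v} := by
      ext v
      rw [Set.mem_ofPred_eq, Set.mem_ofPred_eq, hρρ v]
      constructor
      · intro h2 h3
        exact h2 (mul_left_cancel₀ (sg_ne _) h3)
      · intro h2 h3
        exact h2 (by rw [h3])
    have h2 : ρ' ≠ σ := by
      intro h3
      apply hne
      funext v
      rw [hρρ v, h3]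
    have h3 := h.2 ρ' (fun v => by
      rcases sg_pm (ε v) with h1 | h1 <;> rcases hρ v with h2 | h2 <;> simp [hρ', h1, h2])
      (by rw [h1]; exact hfin) h2
    refine lt_of_lt_of_eq h3 (finsum_congr fun b => ?_)
    unfold gau
    rw [hρρ b.1, hρρ (far b)]
    have e1 := sg_sq (ε b.1)
    have e2 := sg_sq (ε (far b))
    have e3 : ∀ x y z w k : ℝ, x * x = 1 → y * y = 1 →
        x * y * k * (x * z * (y * w)) = k * (z * w) := by
      intro x y z w k hx hy
      calc x * y * k * (x * z * (y * w)) = (x * x) * (y * y) * (k * (z * w)) := by ring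
        _ = k * (z * w) := by rw [hx, hy]; ring
    rw [mul_sub, mul_sub, e3 _ _ _ _ _ e1 e2, e3 _ _ _ _ _ e1 e2]

/-- The gauge transformation of the configurations. -/
def gc {m : ℕ} (ε : Site m → Bool) (ω : Site m → Bool) : Site m → Bool := fun v => ε v == ω v

theorem gc_gc {m : ℕ} (ε ω : Site m → Bool) : gc ε (gc ε ω) = ω := by
  funext v
  unfold gc
  cases ε v <;> cases ω v <;> rfl

theorem gc_meas {m : ℕ} (ε : Site m → Bool) : Measurable (gc ε) := by
  refine measurable_pi_lambda _ fun v => ?_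
  exact (measurable_of_finite (fun a : Bool => ε v == a)).comp (measurable_pi_apply v)

/-- The gauge transformation as a measurable equivalence. -/
def gcE {m : ℕ} (ε : Site m → Bool) : (Site m → Bool) ≃ᵐ (Site m → Bool) where
  toFun := gc ε
  invFun := gc ε
  left_inv ω := gc_gc ε ω
  right_inv ω := gc_gc ε ω
  measurable_toFun := gc_meas ε
  measurable_invFun := gc_meas ε

theorem pair_gc {m : ℕ} (ε : Site m → Bool) (K : Bond m → ℝ) (Λ : Finset (Site m))
    (ω : Site m → Bool) : pair (gau ε K) Λ (spin (gc ε ω)) = pair K Λ (spin ω) := by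
  unfold pair
  refine Finset.sum_congr rfl fun b _ => ?_
  unfold gau spin gc
  rw [sg_beq, sg_beq]
  have e1 := sg_sq (ε b.1)
  have e2 := sg_sq (ε (far b))
  calc sg (ε b.1) * sg (ε (far b)) * K b * (sg (ε b.1) * sg (ω b.1) * (sg (ε (far b)) *
        sg (ω (far b)))) = (sg (ε b.1) * sg (ε b.1)) * (sg (ε (far b)) * sg (ε (far b))) *
        (K b * (sg (ω b.1) * sg (ω (far b)))) := by ring
    _ = _ := by rw [e1, e2]; ring

theorem glue_gc {m : ℕ} (ε : Site m → Bool) (Λ : Finset (Site m)) (η : Λ → Bool)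
    (ω : Site m → Bool) :
    glue Λ (fun v => ε v.1 == η v) (gc ε ω) = gc ε (glue Λ η ω) := by
  funext v
  have hr : gc ε (glue Λ η ω) v = (ε v == glue Λ η ω v) := rfl
  rw [hr]
  by_cases h : v ∈ Λ
  · rw [Q299.SG.glue_mem _ _ _ _ h, Q299.SG.glue_mem _ _ _ _ h]
  · rw [Q299.SG.glue_not_mem _ _ _ _ h, Q299.SG.glue_not_mem _ _ _ _ h]
    rfl

theorem fv_gc {m : ℕ} (ε : Site m → Bool) (K : Bond m → ℝ) (Λ : Finset (Site m))
    (ω : Site m → Bool) (A : Set (Site m → Bool)) :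
    fv (gau ε K) Λ (gc ε ω) A = fv K Λ ω (gc ε ⁻¹' A) := by
  let E : (Λ → Bool) ≃ (Λ → Bool) :=
    { toFun := fun η v => ε v.1 == η v
      invFun := fun η v => ε v.1 == η v
      left_inv := fun η => by
        funext v
        cases h1 : ε v.1 <;> cases h2 : η v <;> simp [h1, h2]
      right_inv := fun η => by
        funext v
        cases h1 : ε v.1 <;> cases h2 : η v <;> simp [h1, h2] }
  have hE : ∀ η, glue Λ (E η) (gc ε ω) = gc ε (glue Λ η ω) := fun η => glue_gc ε Λ η ω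
  have h1 : ∑ η : Λ → Bool, Real.exp (pair (gau ε K) Λ (spin (glue Λ η (gc ε ω))))
      = ∑ η : Λ → Bool, Real.exp (pair K Λ (spin (glue Λ η ω))) := by
    rw [← Equiv.sum_comp E]
    refine Finset.sum_congr rfl fun η _ => ?_
    rw [hE, pair_gc]
  have h2 : ∑ η : Λ → Bool, Real.exp (pair (gau ε K) Λ (spin (glue Λ η (gc ε ω)))) *
        A.indicator (fun _ => (1 : ℝ)) (glue Λ η (gc ε ω))
      = ∑ η : Λ → Bool, Real.exp (pair K Λ (spin (glue Λ η ω))) *
        (gc ε ⁻¹' A).indicator (fun _ => (1 : ℝ)) (glue Λ η ω) := by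
    rw [← Equiv.sum_comp E]
    refine Finset.sum_congr rfl fun η _ => ?_
    rw [hE, pair_gc]
    rfl
  unfold fv
  rw [h1, h2]

/-- Gibbs states and gauge transformations. -/
theorem gibbs_gau {m : ℕ} (ε : Site m → Bool) (K : Bond m → ℝ) (π : Measure (Site m → Bool))
    (h : IsGibbs K π) : IsGibbs (gau ε K) (π.map (gc ε)) := by
  have hp := h.1
  refine ⟨Measure.isProbabilityMeasure_map (gc_meas ε).aemeasurable, fun Λ A hA => ?_⟩
  rw [Measure.map_apply (gc_meas ε) hA, h.2 Λ (gc ε ⁻¹' A) (gc_meas ε hA)]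
  have h1 : ∫ ω, fv (gau ε K) Λ ω A ∂(π.map (gc ε)) = ∫ ω, fv (gau ε K) Λ (gc ε ω) A ∂π :=
    (gcE ε).measurableEmbedding.integral_map _
  rw [h1]
  refine integral_congr_ae (Eventually.of_forall fun ω => ?_)
  exact (fv_gc ε K Λ ω A).symm

/-! ## the couplings -/

open Classical in
/-- The couplings `J`, with `ε_u ε_v ψ (J b)` in place of `J b` on the bonds `b = {u, v}` inside
the planes of heights `h ∈ H`. -/
noncomputable def plantE {m : ℕ} (ε : Site m → Bool) (H : Set (Fin m → ℤ)) (ψ : ℝ → ℝ)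
    (J : Bond m → ℝ) : Bond m → ℝ :=
  fun b => if b.2.isLeft ∧ b.1.2 ∈ H then sg (ε b.1) * sg (ε (far b)) * ψ (J b) else J b

/-- The bonds where the sign is changed. -/
def negs {m : ℕ} (ε : Site m → Bool) (H : Set (Fin m → ℤ)) : Set (Bond m) :=
  {b | ¬ (b.2.isLeft ∧ b.1.2 ∈ H) ∧ sg (ε b.1) * sg (ε (far b)) = -1}

theorem sg_mul_pm (a b : Bool) : sg a * sg b = 1 ∨ sg a * sg b = -1 := by
  cases a <;> cases b <;> norm_num [sg]

theorem plantE_eq {m : ℕ} (ε : Site m → Bool) (H : Set (Fin m → ℤ)) (ψ : ℝ → ℝ)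
    (J : Bond m → ℝ) : plantE ε H ψ J = gau ε (plant H ψ (flipAt (negs ε H) J)) := by
  classical
  funext b
  unfold plantE gau plant flipAt
  by_cases h : b.2.isLeft ∧ b.1.2 ∈ H
  · have h1 : b ∉ negs ε H := fun h2 => h2.1 h
    rw [if_pos h, if_pos h, if_neg h1]
  · rw [if_neg h, if_neg h]
    rcases sg_mul_pm (ε b.1) (ε (far b)) with h2 | h2
    · have h1 : b ∉ negs ε H := fun h3 => by
        have := h3.2
        rw [h2] at this
        norm_num at this
      rw [if_neg h1, h2, one_mul]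
    · have h1 : b ∈ negs ε H := ⟨h, h2⟩
      rw [if_pos h1, h2]
      ring

theorem flip_law {m : ℕ} (μ : Measure ℝ) [IsProbabilityMeasure μ] (hsym : μ.map (fun x => -x) = μ)
    (S : Set (Bond m)) : (law m μ).map (flipAt S) = law m μ := by
  classical
  have h1 : flipAt S = fun (J : Bond m → ℝ) (b : Bond m) => (if b ∈ S then -J b else J b) := rfl
  have h2 := Measure.infinitePi_map_pi (μ := fun _ : Bond m => μ)
    (f := fun (b : Bond m) (x : ℝ) => if b ∈ S then -x else x)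
    (fun b => by
      by_cases hb : b ∈ S
      · simp only [hb, if_true]; exact measurable_neg
      · simp only [hb, if_false]; exact measurable_id)
  rw [h1, law, h2]
  congr 1
  funext b
  by_cases hb : b ∈ S
  · simp only [hb, if_true]
    exact hsym
  · simp only [hb, if_false]
    exact Measure.map_id

theorem flip_measurable {m : ℕ} (S : Set (Bond m)) :
    Measurable (flipAt S : (Bond m → ℝ) → Bond m → ℝ) := by
  classical
  rw [measurable_pi_iff]
  intro b
  unfold flipAt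
  split_ifs
  · exact (measurable_pi_apply b).neg
  · exact measurable_pi_apply b

theorem ae_flip {m : ℕ} (μ : Measure ℝ) [IsProbabilityMeasure μ] (hsym : μ.map (fun x => -x) = μ)
    (S : Set (Bond m)) {p : (Bond m → ℝ) → Prop} (h : ∀ᵐ J ∂(law m μ), p J) :
    ∀ᵐ J ∂(law m μ), p (flipAt S J) := by
  have h1 : ∀ᵐ J ∂((law m μ).map (flipAt S)), p J := by rw [flip_law μ hsym S]; exact h
  exact ae_of_ae_map (flip_measurable S).aemeasurable h1

theorem smul_gau {m : ℕ} (ε : Site m → Bool) (K : Bond m → ℝ) (β : ℝ) :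
    β • gau ε K = gau ε (β • K) := by
  funext b
  simp only [gau, Pi.smul_apply, smul_eq_mul]
  ring

/-- **T2**, with signs. -/
def S_T2c : Prop := ∀ (m : ℕ) (c : ℝ≥0), 1 ≤ m → ∃ K₀ : ℝ, ∀ (μ : Measure ℝ)
    [IsProbabilityMeasure μ], (∀ x, μ {x} = 0) → μ.map (fun x => -x) = μ →
    HasSubgaussianMGF id c μ → ∀ ψ : ℝ → ℝ, Measurable ψ → Strong μ ψ K₀ →
  ∀ (ε : Site m → Bool) (H : Set (Fin m → ℤ)),
    (H.Nontrivial → ∀ᵐ J ∂(law m μ), ∃ σ τ, IsGS (plantE ε H ψ J) σ ∧ IsGS (plantE ε H ψ J) τ ∧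
      τ ≠ σ ∧ τ ≠ -σ) ∧
    (H.Infinite → ∀ᵐ J ∂(law m μ), {σ | IsGS (plantE ε H ψ J) σ}.Infinite)

/-- **T1**, with signs. -/
def S_T1c : Prop := ∀ (m : ℕ) (c : ℝ≥0), ∃ K₀ : ℝ, ∀ (μ : Measure ℝ)
    [IsProbabilityMeasure μ], μ.map (fun x => -x) = μ →
    HasSubgaussianMGF id c μ → ∀ ψ : ℝ → ℝ, Measurable ψ → Strong μ ψ K₀ →
  ∀ β : ℝ, 1 ≤ β → ∀ (ε : Site m → Bool) (H : Set (Fin m → ℤ)),
    (H.Nonempty → ∀ᵐ J ∂(law m μ), ∃ π π' : Measure (Site m → Bool),
      IsGibbs (β • plantE ε H ψ J) π ∧ IsGibbs (β • plantE ε H ψ J) π' ∧ π ≠ π') ∧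
    (H.Nontrivial → ∀ᵐ J ∂(law m μ), ∃ (π π' : Measure (Site m → Bool)) (u v : Site m),
      IsGibbs (β • plantE ε H ψ J) π ∧ IsGibbs (β • plantE ε H ψ J) π' ∧
      1 / 2 < (π {ω | ω u = ω v}).toReal ∧ (π' {ω | ω u = ω v}).toReal < 1 / 2)

theorem t_T2c (h : S_T2b) : S_T2c := by
  intro m c hm
  obtain ⟨K₀, hK⟩ := h m c hm
  refine ⟨K₀, fun μ _ hat hsym hsub ψ hψ hS ε H => ⟨fun hH => ?_, fun hH => ?_⟩⟩
  · filter_upwards [ae_flip μ hsym (negs ε H) ((hK μ hat hsym hsub ψ hψ hS H).1 hH)] with J hJ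
    obtain ⟨σ, τ, h1, h2, h3, h4⟩ := hJ
    rw [plantE_eq]
    refine ⟨_, _, gs_gau ε _ _ h1, gs_gau ε _ _ h2, fun h5 => h3 ?_, fun h5 => h4 ?_⟩
    · funext v
      exact mul_left_cancel₀ (sg_ne (ε v)) (congrFun h5 v)
    · funext v
      have h6 := congrFun h5 v
      simp only [Pi.neg_apply] at h6 ⊢
      rw [← mul_neg] at h6
      exact mul_left_cancel₀ (sg_ne (ε v)) h6
  · filter_upwards [ae_flip μ hsym (negs ε H) ((hK μ hat hsym hsub ψ hψ hS H).2 hH)] with J hJ
    rw [plantE_eq]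
    have hinj : Function.Injective fun (σ : Site m → ℝ) (v : Site m) => sg (ε v) * σ v := by
      intro σ τ h5
      funext v
      exact mul_left_cancel₀ (sg_ne (ε v)) (congrFun h5 v)
    refine (hJ.image hinj.injOn).mono ?_
    rintro _ ⟨σ, hσ, rfl⟩
    exact gs_gau ε _ _ hσ

theorem compl_half {m : ℕ} (π : Measure (Site m → Bool)) [IsProbabilityMeasure π] (u v : Site m) :
    (π {ω | ω u ≠ ω v}).toReal = 1 - (π {ω | ω u = ω v}).toReal := by
  have hm : MeasurableSet {ω : Site m → Bool | ω u = ω v} :=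
    measurableSet_eq_fun (measurable_pi_apply u) (measurable_pi_apply v)
  have h1 : {ω : Site m → Bool | ω u ≠ ω v} = {ω | ω u = ω v}ᶜ := rfl
  rw [h1, prob_compl_eq_one_sub hm, ENNReal.toReal_sub_of_le prob_le_one ENNReal.one_ne_top]
  simp

theorem gc_pre {m : ℕ} (ε : Site m → Bool) (u v : Site m) :
    (gc ε ⁻¹' {ω | ω u = ω v} = {ω | ω u = ω v}) ∨
    (gc ε ⁻¹' {ω | ω u = ω v} = {ω | ω u ≠ ω v}) := by
  by_cases h : ε u = ε v
  · left
    ext ω
    simp only [gc, Set.mem_preimage, Set.mem_ofPred_eq, h]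
    cases ε v <;> cases ω u <;> cases ω v <;> simp
  · right
    ext ω
    simp only [gc, Set.mem_preimage, Set.mem_ofPred_eq]
    revert h
    cases ε u <;> cases ε v <;> cases ω u <;> cases ω v <;> simp

theorem t_T1c (h : S_T1b) : S_T1c := by
  intro m c
  obtain ⟨K₀, hK⟩ := h m c
  refine ⟨K₀, fun μ _ hsym hsub ψ hψ hS β hβ ε H => ⟨fun hH => ?_, fun hH => ?_⟩⟩
  · filter_upwards [ae_flip μ hsym (negs ε H) ((hK μ hsym hsub ψ hψ hS β hβ H).1 hH)] with J hJ
    obtain ⟨π, π', h1, h2, h3⟩ := hJ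
    rw [plantE_eq, smul_gau]
    refine ⟨_, _, gibbs_gau ε _ _ h1, gibbs_gau ε _ _ h2, fun h5 => h3 ?_⟩
    exact (gcE ε).map_measurableEquiv_injective h5
  · filter_upwards [ae_flip μ hsym (negs ε H) ((hK μ hsym hsub ψ hψ hS β hβ H).2 hH)] with J hJ
    obtain ⟨π, π', u, v, h1, h2, h3, h4⟩ := hJ
    rw [plantE_eq, smul_gau]
    have hm : MeasurableSet {ω : Site m → Bool | ω u = ω v} :=
      measurableSet_eq_fun (measurable_pi_apply u) (measurable_pi_apply v)
    have i1 := h1.1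
    have i2 := h2.1
    rcases gc_pre ε u v with h5 | h5
    · refine ⟨_, _, u, v, gibbs_gau ε _ _ h1, gibbs_gau ε _ _ h2, ?_, ?_⟩
      · rw [Measure.map_apply (gc_meas ε) hm, h5]
        exact h3
      · rw [Measure.map_apply (gc_meas ε) hm, h5]
        exact h4
    · refine ⟨_, _, u, v, gibbs_gau ε _ _ h2, gibbs_gau ε _ _ h1, ?_, ?_⟩
      · rw [Measure.map_apply (gc_meas ε) hm, h5, compl_half]
        linarith
      · rw [Measure.map_apply (gc_meas ε) hm, h5, compl_half]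
        linarith

end Pool.Agent.Q83.SG
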