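import Pool.Agent.Q83.SG.PEI2
import Pool.Agent.Q83.SG.LRO0

/-!
# Project SG: long range order in the planes, general laws of the couplings of the planes
-/

set_option autoImplicit false

open MeasureTheory ProbabilityTheory Filter
open scoped ENNReal NNReal

namespace Pool.Agent.Q83.SG

def S_LRO0b : Prop := ∀ (m : ℕ) (c : ℝ≥0) (ε : ℝ), 0 < ε → ∃ K₀ : ℝ, 0 < K₀ ∧
  ∀ (μ : Measure ℝ) [IsProbabilityMeasure μ], μ.map (fun x => -x) = μ → HasSubgaussianMGF id c μ →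
  ∀ ψ : ℝ → ℝ, Measurable ψ → Strong μ ψ K₀ → ∀ (H : Set (Fin m → ℤ)) (h : Fin m → ℤ), h ∈ H →
  ∀ (L : ℕ) (τ : Site m → ℝ), (∀ v, τ v = 1 ∨ τ v = -1) → (∀ x, τ (x, h) = τ (0, h)) →
    law m μ {J | ∃ σ, IsMax (box m L) τ (plant H ψ J) σ ∧ σ (0, h) ≠ τ (0, h)} ≤ ENNReal.ofReal ε

def S_LRO1b : Prop := ∀ (m : ℕ) (c : ℝ≥0) (ε : ℝ), 0 < ε → ∃ K₀ : ℝ, 0 < K₀ ∧
  ∀ (μ : Measure ℝ) [IsProbabilityMeasure μ], μ.map (fun x => -x) = μ → HasSubgaussianMGF id c μ →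
  ∀ ψ : ℝ → ℝ, Measurable ψ → Strong μ ψ K₀ → ∀ β : ℝ, 1 ≤ β →
  ∀ (H : Set (Fin m → ℤ)) (h : Fin m → ℤ), h ∈ H →
  ∀ (L : ℕ) (τ : Site m → ℝ), (∀ v, τ v = 1 ∨ τ v = -1) → (∀ x, τ (x, h) = τ (0, h)) →
    law m μ {J | 1 / 8 < mis (box m L) τ (β • plant H ψ J) (0, h)} ≤ ENNReal.ofReal ε

theorem half_add_half (ε : ℝ) (hε : 0 < ε) :
    ENNReal.ofReal (ε / 2) + ENNReal.ofReal (ε / 2) = ENNReal.ofReal ε := by
  rw [← ENNReal.ofReal_add (by positivity) (by positivity)]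
  congr 1
  ring

theorem t_LRO0b (h1 : S_CHAIN) (h2 : S_TAIL) (h3 : S_LIP) (h4 : S_ENE2) (h5 : S_SER) :
    S_LRO0b := by
  intro m c ε hε
  obtain ⟨lam, hlam, hch⟩ := h1 (ε / 2) (by positivity)
  obtain ⟨κ, hκ, htl⟩ := h2 m c
  obtain ⟨K₁, hK₁, hst⟩ := t_STIFF h5 (ε / 2) (by positivity)
  refine ⟨(lam * κ + 1) + K₁, by positivity, ?_⟩
  intro μ _ hsym hsub ψ hψ hψK H h hh L τ hτ hτh
  obtain ⟨lip1, -, meas, comm⟩ := h3 m (box m L) τ hτ
  set Φ : (Bond m → ℝ) → ℝ := fun J => mx (box m L) τ (plant H ψ J) with hΦ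
  have hΦm : Measurable Φ := (meas H ψ 1 hψ).1
  have hΦl : ∀ J J' : Bond m → ℝ, (∀ b, b.2.isLeft → J b = J' b) →
      |Φ J - Φ J'| ≤ 1 * ∑ b ∈ bonds (box m L), |J b - J' b| := by
    intro J J' hJ
    rw [one_mul]
    exact (lip1 _ _).trans (Finset.sum_le_sum fun b _ => plant_diff H ψ hJ b)
  have ht := htl μ hsym hsub Φ (bonds (box m L)) 1 one_pos hΦm hΦl h
  have hc := hch (Bond m → ℝ) (law m μ) (fun A J => Φ J - Φ (flipAt (vert h A) J)) (1 * κ)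
    (by positivity) ht
  have hs := hst m μ ψ hψ (lam * κ + 1) hψK H h hh
  rw [← half_add_half ε hε]
  refine le_trans (measure_mono ?_) ((measure_union_le _ _).trans (add_le_add hc hs))
  rintro J ⟨σ, hσ, hne⟩
  by_contra hcon
  rw [Set.mem_union, not_or] at hcon
  obtain ⟨hcon, hstiff⟩ := hcon
  rw [Set.mem_ofPred_eq, not_not] at hstiff
  apply hne
  refine t_PEI0b h4 m L h τ σ (lam * κ + 1) (plant H ψ J) hτ hτh (by positivity) hstiff ?_ hσ
  intro D hD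
  have hlt : ¬ (lam * (1 * κ) * (bd D).card ≤ |Φ J - Φ (flipAt (vert h D) J)|) :=
    fun hle => hcon ⟨D, hD, hle⟩
  rw [not_le] at hlt
  have e1 : Φ (flipAt (vert h D) J) = mx (box m L) τ (flipAt (vert h D) (plant H ψ J)) := by
    rw [hΦ]
    simp only
    rw [(comm H ψ h D J 1).1]
  rw [e1] at hlt
  have h0 : (0 : ℝ) ≤ ((bd D).card : ℝ) := Nat.cast_nonneg _
  have e2 : |mx (box m L) τ (plant H ψ J) - mx (box m L) τ (flipAt (vert h D) (plant H ψ J))| <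
      lam * (1 * κ) * (bd D).card := hlt
  nlinarith

theorem t_LRO1b (h1 : S_CHAIN) (h2 : S_TAIL) (h3 : S_LIP) (h4 : S_ENE2) (h5 : S_SER) :
    S_LRO1b := by
  intro m c ε hε
  obtain ⟨lam, hlam, hch⟩ := h1 (ε / 2) (by positivity)
  obtain ⟨κ, hκ, htl⟩ := h2 m c
  obtain ⟨K₁, hK₁, hser⟩ := h5 (1 / 8) (by norm_num)
  obtain ⟨K₂, hK₂, hst⟩ := t_STIFF h5 (ε / 2) (by positivity)
  refine ⟨(lam * κ + K₁) + K₂, by positivity, ?_⟩
  intro μ _ hsym hsub ψ hψ hψK β hβ H h hh L τ hτ hτh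
  have hβ0 : 0 < β := by linarith
  obtain ⟨-, lip1, meas, comm⟩ := h3 m (box m L) τ hτ
  set Φ : (Bond m → ℝ) → ℝ := fun J => lz (box m L) τ (β • plant H ψ J) with hΦ
  have hΦm : Measurable Φ := (meas H ψ β hψ).2
  have hΦl : ∀ J J' : Bond m → ℝ, (∀ b, b.2.isLeft → J b = J' b) →
      |Φ J - Φ J'| ≤ β * ∑ b ∈ bonds (box m L), |J b - J' b| := by
    intro J J' hJ
    refine (lip1 _ _).trans ?_
    rw [Finset.mul_sum]
    refine Finset.sum_le_sum fun b _ => ?_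
    rw [Pi.smul_apply, Pi.smul_apply, smul_eq_mul, smul_eq_mul, ← mul_sub, abs_mul,
      abs_of_pos hβ0]
    exact mul_le_mul_of_nonneg_left (plant_diff H ψ hJ b) hβ0.le
  have ht := htl μ hsym hsub Φ (bonds (box m L)) β hβ0 hΦm hΦl h
  have hc := hch (Bond m → ℝ) (law m μ) (fun A J => Φ J - Φ (flipAt (vert h A) J)) (β * κ)
    (by positivity) ht
  have hs := hst m μ ψ hψ (lam * κ + K₁) hψK H h hh
  rw [← half_add_half ε hε]
  refine le_trans (measure_mono ?_) ((measure_union_le _ _).trans (add_le_add hc hs))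
  intro J hJ
  by_contra hcon
  rw [Set.mem_union, not_or] at hcon
  obtain ⟨hcon, hstiff⟩ := hcon
  rw [Set.mem_ofPred_eq, not_not] at hstiff
  have key := t_PEI1b h4 m L h τ (β * (lam * κ + K₁)) (β • plant H ψ J) hτ hτh ?_ ?_
  · obtain ⟨U, hU, hmis⟩ := key
    have hK : K₁ ≤ β * (lam * κ + K₁) := by
      have : 0 < lam * κ := by positivity
      nlinarith
    have := hser _ hK U hU
    have hJ' : 1 / 8 < mis (box m L) τ (β • plant H ψ J) (0, h) := hJ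
    linarith
  · intro D hD
    have h6 := mul_le_mul_of_nonneg_left (hstiff D hD) hβ0.le
    simp only [Pi.smul_apply, smul_eq_mul, ← Finset.mul_sum]
    rw [mul_assoc]
    exact h6
  · intro D hD
    have hlt : ¬ (lam * (β * κ) * (bd D).card ≤ |Φ J - Φ (flipAt (vert h D) J)|) :=
      fun hle => hcon ⟨D, hD, hle⟩
    rw [not_le] at hlt
    have e1 : Φ (flipAt (vert h D) J) =
        lz (box m L) τ (flipAt (vert h D) (β • plant H ψ J)) := by
      rw [hΦ]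
      simp only
      rw [(comm H ψ h D J β).1, (comm H ψ h D (plant H ψ J) β).2]
    rw [e1] at hlt
    have h0 : (0 : ℝ) ≤ ((bd D).card : ℝ) := Nat.cast_nonneg _
    have e2 : |lz (box m L) τ (β • plant H ψ J) -
        lz (box m L) τ (flipAt (vert h D) (β • plant H ψ J))| < lam * (β * κ) * (bd D).card := hlt
    have h3 : 0 ≤ β * K₁ * (bd D).card := by positivity
    nlinarith

end Pool.Agent.Q83.SG
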