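import Pool.Agent.Q83.SG.ENE2
import Pool.Agent.Q299.SG.PEI1

/-!
# Project SG: Peierls arguments without a lower bound for the single couplings

Variants of `Q211.SG.t_PEI0` (helper211) and `Q299.SG.t_PEI1` (helper299).
-/

set_option autoImplicit false

open MeasureTheory ProbabilityTheory Filter
open scoped ENNReal NNReal

namespace Pool.Agent.Q83.SG

/-- The contours of the plane of height `h` have energy at least `K` per edge. -/
def Stiff {m : ℕ} (h : Fin m → ℤ) (K : ℝ) (J : Bond m → ℝ) : Prop :=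
  ∀ D, Cont D → K * (bd D).card ≤ ∑ e ∈ bd D, J (emb h e)

theorem t_PEI0b (hE : S_ENE2) (m L : ℕ) (h : Fin m → ℤ) (τ σ : Site m → ℝ) (K : ℝ)
    (J : Bond m → ℝ) (hτ : ∀ v, τ v = 1 ∨ τ v = -1) (hc : ∀ x, τ (x, h) = τ (0, h)) (hK : 0 < K)
    (hJ : Stiff h K J)
    (hD : ∀ D, Cont D → |mx (box m L) τ J - mx (box m L) τ (flipAt (vert h D) J)| <
      K * (bd D).card)
    (hmax : IsMax (box m L) τ J σ) : σ (0, h) = τ (0, h) := by
  obtain ⟨⟨T, hT, hσ⟩, hm⟩ := hmax
  by_contra hne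
  have h0 : ((0 : Pt), h) ∈ T := by
    by_contra h0
    apply hne
    rw [hσ]
    unfold sw
    rw [if_neg h0]
  obtain ⟨D, hDc, hDb, hpair⟩ := hE m L h τ T hτ hc hT h0
  have h1 := hpair J
  have h2 : pair (flipAt (vert h D) J) (box m L) (sw (symmDiff T (D ×ˢ {h})) τ) ≤
      mx (box m L) τ (flipAt (vert h D) J) := by
    unfold mx
    apply Finset.le_sup' (fun T => pair (flipAt (vert h D) J) (box m L) (sw T τ))
    rw [Finset.mem_powerset]
    intro u hu
    rcases Finset.mem_symmDiff.1 hu with hu | hu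
    · exact hT hu.1
    · exact hDb hu.1
  have h3 : mx (box m L) τ J ≤ pair J (box m L) (sw T τ) := by
    unfold mx
    apply Finset.sup'_le
    intro T' hT'
    have := hm T' (Finset.mem_powerset.1 hT')
    rwa [hσ] at this
  have h4 := hD D hDc
  have h5 := neg_abs_le (mx (box m L) τ J - mx (box m L) τ (flipAt (vert h D) J))
  have h6 : 0 ≤ K * ((bd D).card : ℝ) := by positivity
  have h7 := hJ D hDc
  linarith

theorem t_PEI1b (hE : S_ENE2) (m L : ℕ) (hh : Fin m → ℤ) (τ : Site m → ℝ) (K : ℝ)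
    (J : Bond m → ℝ) (hτ : ∀ v, τ v = 1 ∨ τ v = -1) (hτh : ∀ x, τ (x, hh) = τ (0, hh))
    (hJ : Stiff hh K J)
    (hlz : ∀ D, Cont D → |lz (box m L) τ J - lz (box m L) τ (flipAt (vert hh D) J)| ≤
      K * (bd D).card) :
    ∃ U : Finset (Finset Pt), (∀ D ∈ U, Cont D) ∧
      mis (box m L) τ J (0, hh) ≤ ∑ D ∈ U, Real.exp (-(K * (bd D).card)) := by
  classical
  set B := box m L with hB
  set v₀ : Site m := ((0 : Pt), hh) with hv₀
  set U : Finset (Finset Pt) := ((Fintype.piFinset fun _ : Fin 3 =>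
    Finset.Icc (-(L : ℤ)) L).powerset).filter
      fun D => Cont D ∧ (D ×ˢ {hh} : Finset (Site m)) ⊆ B with hU
  refine ⟨U, fun D hD => (Finset.mem_filter.1 hD).2.1, ?_⟩
  -- the choice of the contours
  have hch : ∀ T ∈ B.powerset.filter (fun T => v₀ ∈ T), ∃ D ∈ U,
      pair J B (sw T τ) + 2 * K * (bd D).card ≤
        pair (flipAt (vert hh D) J) B (sw (symmDiff T (D ×ˢ {hh})) τ) := by
    intro T hT
    rw [Finset.mem_filter, Finset.mem_powerset] at hT
    obtain ⟨D, hD1, hD2, hD3⟩ := hE m L hh τ T hτ hτh hT.1 hT.2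
    refine ⟨D, ?_, ?_⟩
    · rw [hU, Finset.mem_filter, Finset.mem_powerset]
      refine ⟨fun x hx => ?_, hD1, hD2⟩
      have h1 : ((x, hh) : Site m) ∈ B := hD2 (by simp [hx])
      rw [hB] at h1
      unfold box at h1
      rw [Finset.mem_product] at h1
      exact h1.1
    · have h1 := hD3 J
      have h2 := hJ D hD1
      linarith
  choose! Dt hDU hDe using hch
  unfold mis
  rw [div_le_iff₀ (Q299.SG.Zpos B τ J)]
  have h1 : ∑ T ∈ B.powerset with v₀ ∈ T, Real.exp (pair J B (sw T τ)) =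
      ∑ D ∈ U, ∑ T ∈ B.powerset.filter (fun T => v₀ ∈ T) with Dt T = D,
        Real.exp (pair J B (sw T τ)) :=
    (Finset.sum_fiberwise_of_maps_to (fun T hT => hDU T hT) _).symm
  rw [h1, Finset.sum_mul]
  refine Finset.sum_le_sum fun D hD => ?_
  have hDc : Cont D := (Finset.mem_filter.1 hD).2.1
  have hDB : (D ×ˢ {hh} : Finset (Site m)) ⊆ B := (Finset.mem_filter.1 hD).2.2
  have h2 : ∑ T ∈ B.powerset.filter (fun T => v₀ ∈ T) with Dt T = D,
      Real.exp (pair J B (sw T τ)) ≤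
      ∑ T ∈ B.powerset.filter (fun T => v₀ ∈ T) with Dt T = D,
        Real.exp (-(2 * K * (bd D).card)) *
          Real.exp (pair (flipAt (vert hh D) J) B (sw (symmDiff T (D ×ˢ {hh})) τ)) := by
    refine Finset.sum_le_sum fun T hT => ?_
    rw [Finset.mem_filter] at hT
    have h3 := hDe T hT.1
    rw [hT.2] at h3
    rw [← Real.exp_add]
    exact Real.exp_le_exp.2 (by linarith)
  refine h2.trans ?_
  rw [← Finset.mul_sum]
  have h4 : ∑ T ∈ B.powerset.filter (fun T => v₀ ∈ T) with Dt T = D,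
      Real.exp (pair (flipAt (vert hh D) J) B (sw (symmDiff T (D ×ˢ {hh})) τ)) ≤
      ∑ T ∈ B.powerset, Real.exp (pair (flipAt (vert hh D) J) B (sw T τ)) := by
    have hinj : Function.Injective fun T : Finset (Site m) => symmDiff T (D ×ˢ {hh}) :=
      symmDiff_left_injective _
    rw [← Finset.sum_image (s := (B.powerset.filter (fun T => v₀ ∈ T)).filter
      (fun T => Dt T = D)) (g := fun T : Finset (Site m) => symmDiff T (D ×ˢ {hh}))
      (f := fun T => Real.exp (pair (flipAt (vert hh D) J) B (sw T τ)))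
      (fun a _ b _ hab => hinj hab)]
    refine Finset.sum_le_sum_of_subset_of_nonneg ?_ fun _ _ _ => (Real.exp_pos _).le
    intro T' hT'
    obtain ⟨T, hT, rfl⟩ := Finset.mem_image.1 hT'
    rw [Finset.mem_filter, Finset.mem_filter, Finset.mem_powerset] at hT
    rw [Finset.mem_powerset]
    intro v hv
    rw [Finset.mem_symmDiff] at hv
    rcases hv with hv | hv
    · exact hT.1.1 hv.1
    · exact hDB hv.1
  have h5 : ∑ T ∈ B.powerset, Real.exp (pair (flipAt (vert hh D) J) B (sw T τ)) ≤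
      Real.exp (K * (bd D).card) * ∑ T ∈ B.powerset, Real.exp (pair J B (sw T τ)) := by
    have h6 := hlz D hDc
    rw [abs_le] at h6
    have h7 : Real.log (∑ T ∈ B.powerset, Real.exp (pair (flipAt (vert hh D) J) B (sw T τ))) ≤
        K * (bd D).card + Real.log (∑ T ∈ B.powerset, Real.exp (pair J B (sw T τ))) := by
      have := h6.1
      unfold lz at this
      linarith
    have h8 := Real.exp_le_exp.2 h7
    rwa [Real.exp_log (Q299.SG.Zpos B τ _), Real.exp_add, Real.exp_log (Q299.SG.Zpos B τ J)] at h8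
  calc Real.exp (-(2 * K * (bd D).card)) *
        ∑ T ∈ B.powerset.filter (fun T => v₀ ∈ T) with Dt T = D,
          Real.exp (pair (flipAt (vert hh D) J) B (sw (symmDiff T (D ×ˢ {hh})) τ))
      ≤ Real.exp (-(2 * K * (bd D).card)) * (Real.exp (K * (bd D).card) *
          ∑ T ∈ B.powerset, Real.exp (pair J B (sw T τ))) :=
        mul_le_mul_of_nonneg_left (h4.trans h5) (Real.exp_pos _).le
    _ = Real.exp (-(K * (bd D).card)) * ∑ T ∈ B.powerset, Real.exp (pair J B (sw T τ)) := by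
        rw [← mul_assoc, ← Real.exp_add]
        congr 2
        ring

/-- The law of `ψ (J b)` is concentrated on large values. -/
def Strong (μ : Measure ℝ) (ψ : ℝ → ℝ) (K : ℝ) : Prop :=
  ∫⁻ x, ENNReal.ofReal (Real.exp (-ψ x)) ∂μ ≤ ENNReal.ofReal (Real.exp (-K))

theorem prod_bound {m : ℕ} (μ : Measure ℝ) [IsProbabilityMeasure μ] (ψ : ℝ → ℝ)
    (hψ : Measurable ψ) (M : ℝ) (hM : Strong μ ψ M) (S : Finset (Bond m)) (K : ℝ) :
    law m μ {J | ∑ b ∈ S, ψ (J b) < K * S.card} ≤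
      ENNReal.ofReal (Real.exp (-((M - K) * S.card))) := by
  classical
  set f : ℝ → ℝ≥0∞ := fun x => ENNReal.ofReal (Real.exp (-ψ x)) with hf
  have hfm : Measurable f := (Real.measurable_exp.comp hψ.neg).ennreal_ofReal
  have hI : ∫⁻ J : Bond m → ℝ, ∏ b ∈ S, f (J b) ∂(law m μ) = ∏ b ∈ S, ∫⁻ x, f x ∂μ := by
    have h1 : ∀ J : Bond m → ℝ, ∏ b ∈ S, f (J b) = ∏ b : S, f (J b) := fun J =>
      (Finset.prod_coe_sort S (fun b => f (J b))).symm
    have h2 : ∏ b ∈ S, ∫⁻ x, f x ∂μ = ∏ b : S, ∫⁻ x, f x ∂μ := by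
      simp
    rw [h2]
    simp_rw [h1]
    have hind : iIndepFun (fun (b : Bond m) (J : Bond m → ℝ) => f (J b)) (law m μ) :=
      iIndepFun_infinitePi (P := fun _ : Bond m => μ) (X := fun _ => f) (fun _ => hfm)
    have hind' : iIndepFun (fun (b : S) (J : Bond m → ℝ) => f (J b)) (law m μ) :=
      hind.precomp Subtype.val_injective
    rw [lintegral_prod_eq_prod_lintegral_of_indepFun Finset.univ
      (fun (b : S) (J : Bond m → ℝ) => f (J b)) hind'
      (fun b => hfm.comp (measurable_pi_apply _))]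
    refine Finset.prod_congr rfl fun b _ => ?_
    have e : μ = (law m μ).map (fun J : Bond m → ℝ => J (b : Bond m)) :=
      (Measure.infinitePi_map_eval (fun _ : Bond m => μ) (b : Bond m)).symm
    conv_rhs => rw [e]
    rw [lintegral_map hfm (measurable_pi_apply _)]
  have hle : ∏ b ∈ S, ∫⁻ x, f x ∂μ ≤ ENNReal.ofReal (Real.exp (-(M * S.card))) := by
    rw [Finset.prod_const]
    refine (pow_le_pow_left' hM _).trans (le_of_eq ?_)
    rw [← ENNReal.ofReal_pow (Real.exp_pos _).le, ← Real.exp_nat_mul]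
    congr 2
    ring
  have hmk := mul_meas_ge_le_lintegral (μ := law m μ)
    (f := fun J : Bond m → ℝ => ∏ b ∈ S, f (J b))
    (Finset.measurable_prod S fun b _ => hfm.comp (measurable_pi_apply b))
    (ENNReal.ofReal (Real.exp (-(K * S.card))))
  rw [hI] at hmk
  have hsub : {J : Bond m → ℝ | ∑ b ∈ S, ψ (J b) < K * S.card} ⊆
      {J | ENNReal.ofReal (Real.exp (-(K * S.card))) ≤ ∏ b ∈ S, f (J b)} := by
    intro J hJ
    rw [Set.mem_ofPred_eq] at hJ ⊢
    rw [hf, ← ENNReal.ofReal_prod_of_nonneg fun b _ => (Real.exp_pos _).le, ← Real.exp_sum,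
      Finset.sum_neg_distrib]
    exact ENNReal.ofReal_le_ofReal (Real.exp_le_exp.2 (neg_le_neg hJ.le))
  have h3 : ENNReal.ofReal (Real.exp (-(K * S.card))) *
      law m μ {J | ∑ b ∈ S, ψ (J b) < K * S.card} ≤
      ENNReal.ofReal (Real.exp (-(M * S.card))) :=
    (mul_le_mul' le_rfl (measure_mono hsub)).trans (hmk.trans hle)
  have e : ENNReal.ofReal (Real.exp (-((M - K) * S.card))) =
      ENNReal.ofReal (Real.exp (-(M * S.card))) / ENNReal.ofReal (Real.exp (-(K * S.card))) := by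
    rw [← ENNReal.ofReal_div_of_pos (Real.exp_pos _), ← Real.exp_sub]
    congr 2
    ring
  rw [e, ENNReal.le_div_iff_mul_le (Or.inl (ENNReal.ofReal_pos.2 (Real.exp_pos _)).ne')
    (Or.inl ENNReal.ofReal_ne_top), mul_comm]
  exact h3

/-- All contours have a large energy with large probability. -/
theorem t_STIFF (h5 : S_SER) (ε : ℝ) (hε : 0 < ε) : ∃ K₁ : ℝ, 0 < K₁ ∧
    ∀ (m : ℕ) (μ : Measure ℝ) [IsProbabilityMeasure μ] (ψ : ℝ → ℝ), Measurable ψ →
    ∀ K : ℝ, Strong μ ψ (K + K₁) → ∀ (H : Set (Fin m → ℤ)) (h : Fin m → ℤ), h ∈ H →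
      law m μ {J | ¬ Stiff h K (plant H ψ J)} ≤ ENNReal.ofReal ε := by
  classical
  obtain ⟨K₁, hK₁, hser⟩ := h5 ε hε
  refine ⟨K₁, hK₁, fun m μ _ ψ hψ K hS H h hh => ?_⟩
  have hpl : ∀ (J : Bond m → ℝ) (e : Ed), plant H ψ J (emb h e) = ψ (J (emb h e)) := by
    intro J e
    unfold plant emb
    simp [hh]
  have hset : {J : Bond m → ℝ | ¬ Stiff h K (plant H ψ J)} ⊆
      ⋃ D : {D : Finset Pt // Cont D}, {J : Bond m → ℝ | ∑ b ∈ (bd D.1).image (emb h), ψ (J b) <
        K * ((bd D.1).image (emb h)).card} := by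
    intro J hJ
    rw [Set.mem_ofPred_eq] at hJ
    unfold Stiff at hJ
    push Not at hJ
    obtain ⟨D, hD, hlt⟩ := hJ
    rw [Set.mem_iUnion]
    refine ⟨⟨D, hD⟩, ?_⟩
    rw [Set.mem_ofPred_eq, Finset.sum_image fun a _ b _ hab => emb_inj h hab,
      Finset.card_image_of_injective _ (emb_inj h)]
    simp_rw [hpl] at hlt
    exact hlt
  refine (measure_mono hset).trans ((measure_iUnion_le _).trans ?_)
  have hb : ∀ D : {D : Finset Pt // Cont D},
      law m μ {J : Bond m → ℝ | ∑ b ∈ (bd D.1).image (emb h), ψ (J b) <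
        K * ((bd D.1).image (emb h)).card} ≤
      ENNReal.ofReal (Real.exp (-(K₁ * (bd D.1).card))) := by
    intro D
    refine (prod_bound μ ψ hψ (K + K₁) hS _ K).trans (le_of_eq ?_)
    rw [Finset.card_image_of_injective _ (emb_inj h)]
    congr 3
    ring
  refine (ENNReal.tsum_le_tsum hb).trans ?_
  rw [ENNReal.tsum_eq_iSup_sum]
  refine iSup_le fun s => ?_
  rw [← ENNReal.ofReal_sum_of_nonneg fun _ _ => (Real.exp_pos _).le]
  refine ENNReal.ofReal_le_ofReal ?_
  have := hser K₁ le_rfl (s.map (Function.Embedding.subtype _)) (by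
    intro D hD
    rw [Finset.mem_map] at hD
    obtain ⟨a, -, rfl⟩ := hD
    exact a.2)
  rw [Finset.sum_map] at this
  exact this

end Pool.Agent.Q83.SG
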