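import Mathlib

/-!
# Project SG: a spin glass with strong three-dimensional planes

Definitions and statements. Sites of `ℤ^(3+m)` are pairs `(x, y)`, `x ∈ ℤ³`, `y ∈ ℤ^m`; the plane of
height `h` is `ℤ³ × {h}`. The couplings in some planes are at least `K`, all the others are iid,
symmetric and sub-Gaussian.

Theorem T2 (`S_T2`): for `K ≥ K₀` there are incongruent ground states as soon as there are two such
planes, and infinitely many ground states if there are infinitely many such planes.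
Theorem T1 (`S_T1`): for `K ≥ K₀`, `β ≥ 1` there is more than one Gibbs state, and with two planes
there are Gibbs states which are not related by the global flip.

The proof: energy (free energy) comparison under the measure preserving change of signs of the
couplings which join a set `D` of one plane to the rest (Ding, Zhuang), chaining along the coarse
grainings of `D` (Fisher, Froehlich, Spencer), Peierls argument.
-/

set_option autoImplicit false

open MeasureTheory ProbabilityTheory Filter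
open scoped ENNReal NNReal

namespace Pool.Agent.Q83.SG

/-! ## Points and edges of `ℤ³` -/

/-- The points of `ℤ³`. -/
abbrev Pt : Type := Fin 3 → ℤ

/-- The edge `(x, i)` joins `x` and `x + e_i`. -/
abbrev Ed : Type := Pt × Fin 3

/-- The unit vector `e_i`. -/
def un (i : Fin 3) : Pt := Pi.single i 1

/-- The edges with exactly one end in `D`. -/
def bd (D : Finset Pt) : Finset Ed :=
  (D.biUnion fun x => Finset.univ.biUnion fun i : Fin 3 =>
    ({(x, i), (x - un i, i)} : Finset Ed)).filter fun a => ¬ (a.1 ∈ D ↔ a.1 + un a.2 ∈ D)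

/-- Edges at distance at most one. -/
def Near (a b : Ed) : Prop := ∀ j, |a.1 j - b.1 j| ≤ 1

/-- `E` is connected for the relation `Near`. -/
def Conn (E : Finset Ed) : Prop :=
  ∀ a ∈ E, ∀ b ∈ E, Relation.ReflTransGen (fun u v => v ∈ E ∧ Near u v) a b

/-- The sets used as contours: finite sets which contain the origin, with connected boundary. -/
def Cont (D : Finset Pt) : Prop := (0 : Pt) ∈ D ∧ Conn (bd D)

/-- The cube of side `2 ^ l` with index `z`. -/
noncomputable def cube (l : ℕ) (z : Pt) : Finset Pt :=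
  Fintype.piFinset fun i => Finset.Ico (2 ^ l * z i) (2 ^ l * z i + 2 ^ l)

/-- The index of the cube of side `2 ^ l` which contains `x`. -/
def idx (l : ℕ) (x : Pt) : Pt := fun i => x i / 2 ^ l

/-- The indices of the cubes of side `2 ^ l` at least half of whose points are in `D`. -/
noncomputable def maj (l : ℕ) (D : Finset Pt) : Finset Pt :=
  (D.image (idx l)).filter fun z => 8 ^ l ≤ 2 * (D ∩ cube l z).card

/-- The coarse graining of `D` at level `l`: the union of the cubes with indices in `maj l D`. -/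
noncomputable def cg (l : ℕ) (D : Finset Pt) : Finset Pt := (maj l D).biUnion (cube l)

/-- The length of the path `s, w₀, w₁, …` in the `l¹` norm. -/
def jump : Pt → List Ed → ℕ
  | _, [] => 0
  | s, c :: w => (∑ i, (c.1 i - s i).natAbs) + jump c.1 w

/-! ## The lattice `ℤ^(3+m)` -/

/-- The sites of `ℤ^(3+m) = ℤ³ × ℤ^m`. -/
abbrev Site (m : ℕ) : Type := Pt × (Fin m → ℤ)

/-- The bond `(v, a)` joins `v` and `v + dir a`. -/
abbrev Bond (m : ℕ) : Type := Site m × (Fin 3 ⊕ Fin m)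

/-- The unit vectors: `inl i` is a direction of the planes, `inr j` is transversal. -/
def dir {m : ℕ} : Fin 3 ⊕ Fin m → Site m
  | Sum.inl i => (un i, 0)
  | Sum.inr j => (0, Pi.single j 1)

/-- The other end of a bond. -/
def far {m : ℕ} (b : Bond m) : Site m := b.1 + dir b.2

/-- The bonds with an end in `Λ`. -/
def bonds {m : ℕ} (Λ : Finset (Site m)) : Finset (Bond m) :=
  Λ.biUnion fun v => Finset.univ.biUnion fun a => {(v, a), (v - dir a, a)}

/-- `∑ J_b σ σ`, summed over the bonds with an end in `Λ` (minus the energy in `Λ`). -/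
def pair {m : ℕ} (J : Bond m → ℝ) (Λ : Finset (Site m)) (σ : Site m → ℝ) : ℝ :=
  ∑ b ∈ bonds Λ, J b * (σ b.1 * σ (far b))

/-- The configuration `σ` with the spins in `T` reversed. -/
def sw {m : ℕ} (T : Finset (Site m)) (σ : Site m → ℝ) : Site m → ℝ :=
  fun v => if v ∈ T then -σ v else σ v

/-- The maximum of `∑ J_b σ σ` over the configurations which agree with `τ` off `Λ`. -/
noncomputable def mx {m : ℕ} (Λ : Finset (Site m)) (τ : Site m → ℝ) (J : Bond m → ℝ) : ℝ :=
  Λ.powerset.sup' ⟨∅, Finset.empty_mem_powerset Λ⟩ fun T => pair J Λ (sw T τ)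

/-- The logarithm of the partition function in `Λ` with boundary condition `τ`. -/
noncomputable def lz {m : ℕ} (Λ : Finset (Site m)) (τ : Site m → ℝ) (J : Bond m → ℝ) : ℝ :=
  Real.log (∑ T ∈ Λ.powerset, Real.exp (pair J Λ (sw T τ)))

/-- The probability, in `Λ` with boundary condition `τ`, that the spin at `v` is not `τ v`. -/
noncomputable def mis {m : ℕ} (Λ : Finset (Site m)) (τ : Site m → ℝ) (J : Bond m → ℝ)
    (v : Site m) : ℝ :=
  (∑ T ∈ Λ.powerset with v ∈ T, Real.exp (pair J Λ (sw T τ))) /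
    ∑ T ∈ Λ.powerset, Real.exp (pair J Λ (sw T τ))

/-- The cube of radius `L` in `ℤ^(3+m)`. -/
noncomputable def box (m L : ℕ) : Finset (Site m) :=
  (Fintype.piFinset fun _ => Finset.Icc (-(L : ℤ)) L) ×ˢ
    (Fintype.piFinset fun _ => Finset.Icc (-(L : ℤ)) L)

open Classical in
/-- The couplings `J`, with `ψ (J b)` in place of `J b` on the bonds inside the planes of heights
`h ∈ H`. -/
noncomputable def plant {m : ℕ} (H : Set (Fin m → ℤ)) (ψ : ℝ → ℝ) (J : Bond m → ℝ) : Bond m → ℝ :=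
  fun b => if b.2.isLeft ∧ b.1.2 ∈ H then ψ (J b) else J b

open Classical in
/-- The couplings `J` with the signs of the bonds in `S` changed. -/
noncomputable def flipAt {m : ℕ} (S : Set (Bond m)) (J : Bond m → ℝ) : Bond m → ℝ :=
  fun b => if b ∈ S then -J b else J b

/-- The transversal bonds with an end in `D × {h}`. -/
def vert {m : ℕ} (h : Fin m → ℤ) (D : Finset Pt) : Set (Bond m) :=
  {b | b.2.isRight ∧ b.1.1 ∈ D ∧ (b.1.2 = h ∨ (far b).2 = h)}

/-- `σ` maximises `∑ J_b σ σ` among the configurations equal to `τ` off `Λ`. -/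
def IsMax {m : ℕ} (Λ : Finset (Site m)) (τ : Site m → ℝ) (J : Bond m → ℝ) (σ : Site m → ℝ) : Prop :=
  (∃ T ⊆ Λ, σ = sw T τ) ∧ ∀ T ⊆ Λ, pair J Λ (sw T τ) ≤ pair J Λ σ

/-- No finite change lowers the energy. -/
def Weak {m : ℕ} (J : Bond m → ℝ) (σ : Site m → ℝ) : Prop :=
  (∀ v, σ v = 1 ∨ σ v = -1) ∧ ∀ T : Finset (Site m), pair J T (sw T σ) ≤ pair J T σ

/-- Ground states: every finite change (of at least one spin) raises the energy. -/
def IsGS {m : ℕ} (J : Bond m → ℝ) (σ : Site m → ℝ) : Prop :=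
  (∀ v, σ v = 1 ∨ σ v = -1) ∧ ∀ ρ : Site m → ℝ, (∀ v, ρ v = 1 ∨ ρ v = -1) →
    {v | ρ v ≠ σ v}.Finite → ρ ≠ σ →
      0 < ∑ᶠ b : Bond m, J b * (σ b.1 * σ (far b) - ρ b.1 * ρ (far b))

/-- Translation along the planes. -/
def shift {m : ℕ} (x : Pt) (J : Bond m → ℝ) : Bond m → ℝ := fun b => J (b.1 + (x, 0), b.2)

/-- `true` stands for `1`, `false` for `-1`. -/
def sg (b : Bool) : ℝ := if b then 1 else -1

/-! ## Gibbs states -/

/-- The real valued spins of a configuration. -/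
def spin {m : ℕ} (ω : Site m → Bool) : Site m → ℝ := fun v => sg (ω v)

/-- The configuration equal to `η` on `Λ` and to `ω` off `Λ`. -/
def glue {m : ℕ} (Λ : Finset (Site m)) (η : Λ → Bool) (ω : Site m → Bool) : Site m → Bool :=
  fun v => if h : v ∈ Λ then η ⟨v, h⟩ else ω v

/-- The probability of `A` in `Λ` with boundary condition `ω` (weights `exp (∑ J σ σ)`). -/
noncomputable def fv {m : ℕ} (J : Bond m → ℝ) (Λ : Finset (Site m)) (ω : Site m → Bool)
    (A : Set (Site m → Bool)) : ℝ :=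
  (∑ η : Λ → Bool, Real.exp (pair J Λ (spin (glue Λ η ω))) *
      A.indicator (fun _ => (1 : ℝ)) (glue Λ η ω)) /
    ∑ η : Λ → Bool, Real.exp (pair J Λ (spin (glue Λ η ω)))

/-- Gibbs states for the couplings `J` (the inverse temperature is in `J`). -/
def IsGibbs {m : ℕ} (J : Bond m → ℝ) (π : Measure (Site m → Bool)) : Prop :=
  IsProbabilityMeasure π ∧ ∀ (Λ : Finset (Site m)) (A : Set (Site m → Bool)), MeasurableSet A →
    (π A).toReal = ∫ ω, fv J Λ ω A ∂π

/-- The law of the couplings. -/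
noncomputable abbrev law (m : ℕ) (μ : Measure ℝ) : Measure (Bond m → ℝ) :=
  Measure.infinitePi fun _ : Bond m => μ

/-! ## Part A: combinatorics in `ℤ³` -/

/-- JOB CONTOUR. A contour of the boundary of `S` around the origin.
Proof. Let `E = bd S`. For an edge set `E'` let `par E' x` be the parity of the number of `t : ℕ`
with `(x + t e_0, 0) ∈ E'`. Classes: for `a ∈ E` let `cl a` be the set of `b ∈ E` with
`ReflTransGen (fun u v => v ∈ E ∧ Near u v) a b`; `Near` is symmetric, so the classes partition `E`.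
(1) Each unit square has an even number of edges in `bd S` (go round the square: the indicator of
`S` changes an even number of times), and its four edges
`(x,i), (x+e_j,i), (x,j), (x+e_i,j)` are pairwise `Near`: so they are in one class, and each class
also has an even number of edges in each square. (2) Let `E'` be a class and
`D' = {x | par E' x odd}`. For direction `0`: `x ∈ D'` xor `x + e_0 ∈ D'` iff `(x,0) ∈ E'`. For
`i ≠ 0`: adding up the squares `(x + t e_0; 0, i)`, `t ≥ 0`, `par E' x + par E' (x + e_i)` has the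
parity of `[(x,i) ∈ E']` (telescoping, `E'` finite). `D'` is finite: if `x` is outside a large cube,
move to a point whose ray misses `E'` without crossing `E'` (if `x_0` is very negative, move in
direction `e_1` far away first; otherwise the ray itself misses `E'`). So `D'` is a finite set with
`bd D' = E'`, connected. (3) The parity of the number of edges of `E` on the ray from `0` is odd
since `0 ∈ S` and `S` is finite; hence some class `E'` has odd parity at `0`: `0 ∈ D'`. -/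
def S_CONTOUR : Prop := ∀ S : Finset Pt, (0 : Pt) ∈ S → ∃ D : Finset Pt, Cont D ∧ bd D ⊆ bd S

/-- JOB ISO. Relative isoperimetric inequality in a box with sides at most `s`.
Proof. Let `f` be the indicator of `D`. `2 |D∩R| |R∖D| = ∑_{x,y ∈ R} |f x - f y|`, and
`|f x - f y| ≤ |f(x0,x1,x2) - f(y0,x1,x2)| + |f(y0,x1,x2) - f(y0,y1,x2)| + |f(y0,y1,x2) - f(y)|`.
On a line segment with at most `s` points, `∑_{u,v} |g u - g v| ≤ s² ·` (number of edges of the
segment where `g` changes). The remaining coordinates give a factor `s²`. -/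
def S_ISO : Prop := ∀ (D : Finset Pt) (a : Pt) (n : Fin 3 → ℕ) (s : ℕ), (∀ i, n i ≤ s) →
  let R : Finset Pt := Fintype.piFinset fun i => Finset.Ico (a i) (a i + n i)
  (D ∩ R).card * (R \ D).card ≤
    s ^ 4 * ((bd D).filter fun e => e.1 ∈ R ∧ e.1 + un e.2 ∈ R).card

/-- JOB CGDIFF. Proof. For each cube `Q` of side `2^l` (`|Q| = 8^l`), `ISO` gives
`|D∩Q| |Q∖D| ≤ 16^l E_Q`, `E_Q` the number of edges of `bd D` inside `Q`; the larger factor is at
least `8^l/2`, and `cg l D ∩ Q` is `Q` or empty according to the majority, so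
`|(D △ cg l D) ∩ Q| ≤ 2 · 2^l E_Q`. The cubes are disjoint, sum over them. -/
def S_CGDIFF : Prop := ∀ (l : ℕ) (D : Finset Pt),
  (symmDiff D (cg l D)).card ≤ 2 * 2 ^ l * (bd D).card

/-- JOB COARSE. (1) Let `c = (z,i) ∈ bd (maj l D)`, `R = cube l z ∪ cube l (z+e_i)` (a box with
sides at most `2·2^l`, `2·8^l` points). One of the cubes has at least `8^l/2` points in `D`, the
other one more than `8^l/2` points not in `D`: `|D∩R| |R∖D| ≥ (3/4) 64^l`, and `ISO` with
`s = 2·2^l` gives at least `(3/64) 4^l` edges of `bd D` inside `R`. (2) Each edge of `bd D` is inside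
at most `6` such `R` (its first end is in `cube l z` or `cube l (z+e_i)`). -/
def S_COARSE : Prop := ∀ (l : ℕ) (D : Finset Pt),
  (∀ c ∈ bd (maj l D), 3 * 4 ^ l ≤ 64 * ((bd D).filter fun e =>
    e.1 ∈ cube l c.1 ∪ cube l (c.1 + un c.2) ∧
      e.1 + un e.2 ∈ cube l c.1 ∪ cube l (c.1 + un c.2)).card) ∧
  (bd (maj l D)).card * 4 ^ l ≤ 128 * (bd D).card

/-- JOB SMALL. (1) A finite set is determined by its boundary (if `bd A = bd B` then the indicator
of `A △ B` is constant along all edges, and `A △ B` is finite). (2) From a point of `D` go in the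
directions `e_0` and `-e_0` until you leave `D`: two different edges. (3) From (2) of `COARSE`:
`bd (maj l D)` is empty, so `maj l D` is empty by (1). -/
def S_SMALL : Prop :=
  (∀ A B : Finset Pt, bd A = bd B → A = B) ∧
  (∀ D : Finset Pt, D.Nonempty → 2 ≤ (bd D).card) ∧
  (∀ (l : ℕ) (D : Finset Pt), 128 * (bd D).card < 4 ^ l → maj l D = ∅)

/-- JOB WALK. A walk through a connected set. Proof: by induction on `k ≤ |E|` there are `W ⊆ E`
with `k` elements, `a ∈ W`, and a closed walk from `a` with at most `2(k-1)` steps inside `W` which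
visits `W` (as a list); if `W ≠ E` connectedness gives `u ∈ W`, `v ∈ E ∖ W` with `Near u v`, insert
`v, u` after a visit of `u`. Extend the list by a constant sequence (`Near` is reflexive). -/
def S_WALK : Prop := ∀ (E : Finset Ed), Conn E → ∀ a ∈ E, ∃ w : ℕ → Ed, w 0 = a ∧
  (∀ t, w t ∈ E ∧ Near (w t) (w (t + 1))) ∧ ∀ b ∈ E, ∃ t ≤ 2 * E.card, w t = b

/-- JOB START. Proof: going from `0 ∈ D` in the directions `e_0` and `-e_0` until one leaves `D`
gives `j, j' ≥ 0` with `(j e_0, 0)` and `(-(j'+1) e_0, 0)` in `bd D`. By `WALK` the second edge is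
reached from the first one in at most `2 |bd D|` steps, each of which changes the coordinate `0` by
at most `1`. -/
def S_START : Prop := ∀ D : Finset Pt, Cont D → ∃ j : ℕ, j ≤ 2 * (bd D).card ∧
  ((Pi.single 0 (j : ℤ) : Pt), (0 : Fin 3)) ∈ bd D

/-- JOB LISTS. Counting lists of edges with given length and bounded total jump. Proof: induction on
`n`, constructing `F n T s` as the union over the finitely many `c` with
`|c.1 - s|₁ ≤ T` of `c :: F (n-1) (T - |c.1 - s|₁) c.1`; the cardinality is at most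
`∑_c exp (b (T - |c.1-s|₁)) (192/b³)^(n-1)`, and
`∑_c exp (-b |c.1-s|₁) ≤ 3 (∑_{k∈ℤ} exp (-b|k|))³ ≤ 3 (4/b)³` for `0 < b ≤ 1`. -/
def S_LISTS : Prop := ∀ (b : ℝ), 0 < b → b ≤ 1 → ∀ (n T : ℕ) (s : Pt),
  ∃ F : Finset (List Ed), (∀ w : List Ed, w.length = n → jump s w ≤ T → w ∈ F) ∧
    (F.card : ℝ) ≤ Real.exp (b * T) * (192 / b ^ 3) ^ n

/-- JOB VISIT. Proof. Let `N = |bd D|`, `j` from `START` and `w` the walk of `WALK` from
`(j e_0, 0)`. Every coarse edge `c ∈ bd (maj l D)` has by `COARSE` (1) an edge of `bd D` inside its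
double cube; so there is a time `t_c ≤ 2N` with
`∑_i |c.1 i - idx l (w t_c).1 i| ≤ 1`. Order the coarse edges by `t_c` to get the list. Since
`|(w t).1 i - (w t').1 i| ≤ |t - t'|`, we have
`2^l |idx l (w t).1 i - idx l (w t').1 i| ≤ |t - t'| + 2^l`; each jump of the list, multiplied by
`2^l`, is at most `3 Δt + 5 · 2^l`, and the `Δt` add up to at most `2N`. -/
def S_VISIT : Prop := ∀ (D : Finset Pt) (l : ℕ), Cont D → ∃ (j : ℕ) (w : List Ed),
  j ≤ 2 * (bd D).card ∧ w.toFinset = bd (maj l D) ∧ w.length = (bd (maj l D)).card ∧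
    2 ^ l * jump (idx l (Pi.single 0 (j : ℤ))) w ≤ 6 * (bd D).card + 9 * 2 ^ l * w.length

/-- JOB COUNT. The number of coarse grainings at level `l` of the contours with `N` boundary edges.
Proof. `maj l D` is determined by `bd (maj l D)` (`SMALL`), hence by the list of `VISIT`, which is
one of the lists of `LISTS` with `b = 2^(-l)`, start `idx l (j e_0)`, `j ≤ 2N`, length
`n ≤ 128 N / 4^l` (`COARSE`), `T = 6N/2^l + 9n` (natural number division):
`exp(bT) ≤ exp(6N/4^l + 9n)`, `(192 · 8^l)^n = exp(n (log 192 + l log 8))`. Sum over `j` and `n`. -/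
def S_COUNT : Prop := ∃ C : ℝ, 1 ≤ C ∧ ∀ (N l : ℕ), ∃ F : Finset (Finset Pt),
  (∀ D : Finset Pt, Cont D → (bd D).card = N → maj l D ∈ F) ∧
    (F.card : ℝ) ≤ C * (N + 1) ^ 3 * Real.exp (C * (l + 1) * N / 4 ^ l)

/-! ## Part B: chaining -/

/-- The tail hypothesis on a random set function. -/
def Tail {Ω : Type} [MeasurableSpace Ω] (P : Measure Ω) (X : Finset Pt → Ω → ℝ) (κ : ℝ) : Prop :=
  (∀ ω, X ∅ ω = 0) ∧ ∀ (A B : Finset Pt) (t : ℝ), 0 < t →
    P {ω | t ≤ |X A ω - X B ω|} ≤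
      ENNReal.ofReal (2 * Real.exp (-t ^ 2 / (κ ^ 2 * (symmDiff A B).card)))

/-- JOB CHAINN. Fixed number `N` of boundary edges. Proof. For a contour `D` with `N` boundary edges
let `D_l = cg l D` (`D_0 = D`, as `maj 0 D = D` and the cubes of side one are points),
`D_l = ∅` if `4^l > 128 N` (`SMALL`). If `|X D| ≥ 12 a κ N` then, as
`∑_l (l+1) 2^(-l/2) = 1/(1 - 1/√2)² < 12`, for some `l` with `4^l ≤ 128 N`
`|X D_l - X D_(l+1)| ≥ t_l := a κ N (l+1) 2^(-l/2)`. By `CGDIFF`
`|D_l △ D_(l+1)| ≤ 6 · 2^l N`, so by `Tail` this has probability at most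
`2 exp(-a² (l+1)² N / (6 · 4^l))` for each pair `(D_l, D_(l+1))` (if `D_l = D_(l+1)` the event is
empty), and by `COUNT` there are at most
`(C (N+1)³ exp(C (l+2) N/4^l))²` pairs `(maj l D, maj (l+1) D)`. -/
def S_CHAINN : Prop := ∀ C : ℝ, 1 ≤ C → (∀ (N l : ℕ), ∃ F : Finset (Finset Pt),
    (∀ D : Finset Pt, Cont D → (bd D).card = N → maj l D ∈ F) ∧
    (F.card : ℝ) ≤ C * (N + 1) ^ 3 * Real.exp (C * (l + 1) * N / 4 ^ l)) →
  ∀ (Ω : Type) [MeasurableSpace Ω] (P : Measure Ω) [IsProbabilityMeasure P]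
    (X : Finset Pt → Ω → ℝ) (κ : ℝ), 0 < κ → Tail P X κ → ∀ (a : ℝ), 0 < a → ∀ N : ℕ, 2 ≤ N →
    P {ω | ∃ D, Cont D ∧ (bd D).card = N ∧ 12 * a * κ * N ≤ |X D ω|} ≤
      ∑ l ∈ (Finset.range (N + 10)).filter fun l => 4 ^ l ≤ 128 * N,
        ENNReal.ofReal (2 * C ^ 2 * (N + 1) ^ 6 *
          Real.exp ((4 * C * (l + 1) - a ^ 2 * (l + 1) ^ 2 / 6) * N / 4 ^ l))

/-- JOB NUMER. Proof. For `4^l ≤ 128 N`: with `y = N/4^l ≥ 1/128`,
`log N = log y + l log 4 ≤ 257 (l+1)² y`. So if `a²/6 - 4C ≥ 257 M` the exponent is at most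
`-M log N` and the term at most `2 C² (N+1)^6 N^(-M)`; for `N ≥ 2` and `M = 20 + M'` the double sum
is at most `2 C² ∑_N (N+10) (N+1)^6 N^(-20) 2^(-M')`, small for large `M'`. -/
def S_NUMER : Prop := ∀ C ε : ℝ, 1 ≤ C → 0 < ε → ∃ a : ℝ, 0 < a ∧
  ∑' N : ℕ, (∑ l ∈ (Finset.range (N + 2 + 10)).filter fun l => 4 ^ l ≤ 128 * (N + 2),
    ENNReal.ofReal (2 * C ^ 2 * ((N : ℝ) + 2 + 1) ^ 6 *
      Real.exp ((4 * C * (l + 1) - a ^ 2 * (l + 1) ^ 2 / 6) * ((N : ℝ) + 2) / 4 ^ l))) ≤
    ENNReal.ofReal ε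

/-- JOB CHAIN: from `COUNT`, `CHAINN`, `NUMER`, `SMALL` (2) (union over `N ≥ 2`). -/
def S_CHAIN : Prop := ∀ ε : ℝ, 0 < ε → ∃ lam : ℝ, 0 < lam ∧
  ∀ (Ω : Type) [MeasurableSpace Ω] (P : Measure Ω) [IsProbabilityMeasure P]
    (X : Finset Pt → Ω → ℝ) (κ : ℝ), 0 < κ → Tail P X κ →
    P {ω | ∃ D, Cont D ∧ lam * κ * (bd D).card ≤ |X D ω|} ≤ ENNReal.ofReal ε

/-- JOB SER. Proof: `COUNT` with `l = 0` (`maj 0 D = D`): at most `C (N+1)³ exp(C N)` contours have
`N` boundary edges, and `N ≥ 2` (`SMALL`). -/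
def S_SER : Prop := ∀ ε : ℝ, 0 < ε → ∃ K₁ : ℝ, 0 < K₁ ∧ ∀ K : ℝ, K₁ ≤ K →
  ∀ U : Finset (Finset Pt), (∀ D ∈ U, Cont D) → ∑ D ∈ U, Real.exp (-(K * (bd D).card)) ≤ ε

/-! ## Part C: concentration -/

/-- JOB MGF. One finite set of coordinates at a time. `g` is odd under the change of all signs in
`S` and Lipschitz in these coordinates. Proof. For a single coordinate, conditionally on the others:
if `φ` is `γ`-Lipschitz then `E exp(s(φ(x) - Eφ)) ≤ E exp(s(φ(x)-φ(x'))) = E cosh(s(φ(x)-φ(x')))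
≤ E cosh(sγ(x-x')) = E exp(sγ(x-x')) ≤ exp(c s² γ²)` (Jensen, symmetry, sub-Gaussian law). Integrate
out the coordinates of `S` one after the other (induction on `S`; the averages over one coordinate
are again `γ`-Lipschitz in the remaining ones): `E exp(s g) ≤ exp(c γ² s² |S|) E exp(s E_S g)` and
`E_S g = 0` since `g` is odd. Integrability: `|g| ≤ γ ∑_{b ∈ S} |J b|` by oddness. -/
def S_MGF : Prop := ∀ (V : Type) [Countable V] (μ : Measure ℝ) [IsProbabilityMeasure μ] (c : ℝ≥0),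
  μ.map (fun x => -x) = μ → HasSubgaussianMGF id c μ →
  ∀ (S : Finset V) [DecidableEq V] (g : (V → ℝ) → ℝ) (γ : ℝ), 0 < γ → Measurable g →
    (∀ J, g (fun b => if b ∈ S then -J b else J b) = -g J) →
    (∀ J J' : V → ℝ, (∀ b ∉ S, J b = J' b) → |g J - g J'| ≤ γ * ∑ b ∈ S, |J b - J' b|) →
    ∀ s : ℝ, ∫⁻ J, ENNReal.ofReal (Real.exp (s * g J)) ∂(Measure.infinitePi fun _ : V => μ) ≤
      ENNReal.ofReal (Real.exp (c * γ ^ 2 * s ^ 2 * S.card))

/-- JOB TAIL. Proof. `g J = Φ (flipAt (vert h B) J) - Φ (flipAt (vert h A) J)` is odd under the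
change of signs on `S = vert h (A △ B)` (a finite set of at most `2m |A △ B|` bonds; `vert h A` and
`vert h B` differ exactly by `S`) and `2κ₀`-Lipschitz in the coordinates of `S`. `MGF` and the
exponential Markov inequality with `s = ± t/(8 c κ₀² |S|)`: the bound is
`2 exp(-t²/(16 c κ₀² |S|))`. (If `c = 0` use `c = 1`; if `A = B` the right side is `2`.) -/
def S_TAIL : Prop := ∀ (m : ℕ) (c : ℝ≥0), ∃ κ : ℝ, 0 < κ ∧ ∀ (μ : Measure ℝ)
    [IsProbabilityMeasure μ], μ.map (fun x => -x) = μ → HasSubgaussianMGF id c μ →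
  ∀ (Φ : (Bond m → ℝ) → ℝ) (B₀ : Finset (Bond m)) (κ₀ : ℝ), 0 < κ₀ → Measurable Φ →
    (∀ J J' : Bond m → ℝ, (∀ b, b.2.isLeft → J b = J' b) →
      |Φ J - Φ J'| ≤ κ₀ * ∑ b ∈ B₀, |J b - J' b|) →
    ∀ h : Fin m → ℤ, Tail (law m μ) (fun A J => Φ J - Φ (flipAt (vert h A) J)) (κ₀ * κ)

/-! ## Part D: energies -/

/-- JOB LIP. Elementary properties of `plant`, `mx`, `lz`. (1), (2): each `pair` is Lipschitz, so
are the maximum and the logarithm of the sum of exponentials. (3): measurability. (4) `vert`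
consists of transversal bonds, which are not touched by `plant`. -/
def S_LIP : Prop := ∀ (m : ℕ) (Λ : Finset (Site m)) (τ : Site m → ℝ), (∀ v, τ v = 1 ∨ τ v = -1) →
  (∀ J J' : Bond m → ℝ, |mx Λ τ J - mx Λ τ J'| ≤ ∑ b ∈ bonds Λ, |J b - J' b|) ∧
  (∀ J J' : Bond m → ℝ, |lz Λ τ J - lz Λ τ J'| ≤ ∑ b ∈ bonds Λ, |J b - J' b|) ∧
  (∀ (H : Set (Fin m → ℤ)) (ψ : ℝ → ℝ) (β : ℝ), Measurable ψ →
    Measurable (fun J : Bond m → ℝ => mx Λ τ (plant H ψ J)) ∧
    Measurable (fun J : Bond m → ℝ => lz Λ τ (β • plant H ψ J))) ∧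
  ∀ (H : Set (Fin m → ℤ)) (ψ : ℝ → ℝ) (h : Fin m → ℤ) (D : Finset Pt) (J : Bond m → ℝ) (β : ℝ),
    plant H ψ (flipAt (vert h D) J) = flipAt (vert h D) (plant H ψ J) ∧
    β • flipAt (vert h D) J = flipAt (vert h D) (β • J)

/-- JOB ENE. The energy identity. `σ` has the same value `τ (0,h)` on the plane of height `h`
outside the box, and `(0,h)` has the other value: there is a contour `D` such that all edges of
`bd D` are unsatisfied, `D × {h}` is in the box, and reversing the spins in `D × {h}` and the signs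
of the bonds in `vert h D` raises `pair` by at least `2 K |bd D|`.
Proof. `CONTOUR` for `S = {x | σ (x,h) ≠ τ (0,h)}`, which is contained in the box. `D` is in the box:
if `x ∈ D` had `|x i| > L`, going from `x` away from the box in direction `± e_i` one must leave the
finite set `D` through an edge of `bd D ⊆ bd S` with both ends outside the box, hence not in `S`.
The sum: transversal bonds in `vert h D` have exactly one end in `D × {h}`, their sign changes twice
(`m`-directions are non zero, so `b.1.2 = h` and `(far b).2 = h` do not hold together); other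
transversal bonds do not change; bonds in the plane change iff they are in `bd D`, where the product
of the spins is `-1` before and `1` after. The bonds in other planes do not change. -/
def S_ENE : Prop := ∀ (m L : ℕ) (h : Fin m → ℤ) (τ : Site m → ℝ) (T : Finset (Site m)),
  (∀ v, τ v = 1 ∨ τ v = -1) → (∀ x, τ (x, h) = τ (0, h)) → T ⊆ box m L →
  ((0 : Pt), h) ∈ T → ∃ D : Finset Pt, Cont D ∧
    (D ×ˢ {h} : Finset (Site m)) ⊆ box m L ∧
    ∀ (K : ℝ) (J : Bond m → ℝ), 0 < K → (∀ x i, K ≤ J ((x, h), Sum.inl i)) →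
      pair J (box m L) (sw T τ) + 2 * K * (bd D).card ≤
        pair (flipAt (vert h D) J) (box m L) (sw (symmDiff T (D ×ˢ {h})) τ)

/-- JOB PEI0. Peierls argument for the maximisers. From `ENE`: if `σ = sw T τ` is a maximiser and
`(0,h) ∈ T` then `mx (flip J) ≥ mx J + 2 K |bd D|`. -/
def S_PEI0 : Prop := ∀ (m L : ℕ) (h : Fin m → ℤ) (τ σ : Site m → ℝ) (K : ℝ) (J : Bond m → ℝ),
  (∀ v, τ v = 1 ∨ τ v = -1) → (∀ x, τ (x, h) = τ (0, h)) → 0 < K →
  (∀ x i, K ≤ J ((x, h), Sum.inl i)) →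
  (∀ D, Cont D → |mx (box m L) τ J - mx (box m L) τ (flipAt (vert h D) J)| < K * (bd D).card) →
  IsMax (box m L) τ J σ → σ (0, h) = τ (0, h)

/-- JOB PEI1. Peierls argument at positive temperature. From `ENE`: choose for each `T ∋ (0,h)` a
contour `D(T)`; for fixed `D` the sum of `exp (pair J (sw T τ))` over the `T` with `D(T) = D` is at
most `exp(-2K|bd D|) ∑_{T'} exp (pair (flip J) (sw T' τ))` (`T ↦ T △ (D × {h})` is injective, and
`D × {h} ⊆ box`), which is at most `exp(-K |bd D|)` times the partition function of `J`. `U` is the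
set of all contours `D` with `D × {h} ⊆ box m L`. -/
def S_PEI1 : Prop := ∀ (m L : ℕ) (h : Fin m → ℤ) (τ : Site m → ℝ) (K : ℝ) (J : Bond m → ℝ),
  (∀ v, τ v = 1 ∨ τ v = -1) → (∀ x, τ (x, h) = τ (0, h)) → 0 < K →
  (∀ x i, K ≤ J ((x, h), Sum.inl i)) →
  (∀ D, Cont D → |lz (box m L) τ J - lz (box m L) τ (flipAt (vert h D) J)| ≤ K * (bd D).card) →
  ∃ U : Finset (Finset Pt), (∀ D ∈ U, Cont D) ∧
    mis (box m L) τ J (0, h) ≤ ∑ D ∈ U, Real.exp (-(K * (bd D).card))

/-- JOB LRO0: from `CHAIN`, `TAIL`, `LIP`, `PEI0` (`Φ J = mx (box m L) τ (plant H ψ J)`,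
`κ₀ = 1`, `K₀ > lam κ`). -/
def S_LRO0 : Prop := ∀ (m : ℕ) (c : ℝ≥0) (ε : ℝ), 0 < ε → ∃ K₀ : ℝ, 0 < K₀ ∧
  ∀ (μ : Measure ℝ) [IsProbabilityMeasure μ], μ.map (fun x => -x) = μ → HasSubgaussianMGF id c μ →
  ∀ ψ : ℝ → ℝ, Measurable ψ → (∀ x, K₀ ≤ ψ x) → ∀ (H : Set (Fin m → ℤ)) (h : Fin m → ℤ), h ∈ H →
  ∀ (L : ℕ) (τ : Site m → ℝ), (∀ v, τ v = 1 ∨ τ v = -1) → (∀ x, τ (x, h) = τ (0, h)) →
    law m μ {J | ∃ σ, IsMax (box m L) τ (plant H ψ J) σ ∧ σ (0, h) ≠ τ (0, h)} ≤ ENNReal.ofReal ε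

/-- JOB LRO1: from `CHAIN`, `TAIL`, `LIP`, `PEI1`, `SER` (`Φ J = lz (box m L) τ (β • plant H ψ J)`,
`κ₀ = β`, `K₀ ≥ lam κ` and `K₀ ≥ K₁(1/8)`). -/
def S_LRO1 : Prop := ∀ (m : ℕ) (c : ℝ≥0) (ε : ℝ), 0 < ε → ∃ K₀ : ℝ, 0 < K₀ ∧
  ∀ (μ : Measure ℝ) [IsProbabilityMeasure μ], μ.map (fun x => -x) = μ → HasSubgaussianMGF id c μ →
  ∀ ψ : ℝ → ℝ, Measurable ψ → (∀ x, K₀ ≤ ψ x) → ∀ β : ℝ, 1 ≤ β →
  ∀ (H : Set (Fin m → ℤ)) (h : Fin m → ℤ), h ∈ H →
  ∀ (L : ℕ) (τ : Site m → ℝ), (∀ v, τ v = 1 ∨ τ v = -1) → (∀ x, τ (x, h) = τ (0, h)) →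
    law m μ {J | 1 / 8 < mis (box m L) τ (β • plant H ψ J) (0, h)} ≤ ENNReal.ofReal ε

/-! ## Part E: infinite volume, zero temperature -/

/-- JOB PAT2. Proof: the union bound over the eight pairs `(s, i)`: with probability at least `1/2`
every `p ∈ G s ω` is `s`, so the union contains all four patterns. -/
def S_PAT2 : Prop := ∀ (Ω : Type) [MeasurableSpace Ω] (P : Measure Ω) [IsProbabilityMeasure P]
    (G : (Fin 2 → Bool) → Ω → Set (Fin 2 → Bool)), (∀ s ω, (G s ω).Nonempty) →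
  (∀ s i, P {ω | ∃ p ∈ G s ω, p i ≠ s i} ≤ ENNReal.ofReal (1 / 16)) →
    1 / 2 ≤ P {ω | 4 ≤ (⋃ s, G s ω).ncard}

/-- JOB PATK. Proof. Replace the events by measurable ones (`toMeasurable`). The expected number of
pairs `(s, i)` for which some `p ∈ G s ω` has `p i ≠ s i` is at most `k 2^k / 64`; so with
probability at least `1/2` it is at most `k 2^k / 32`, and then for at least `2^(k-1)` of the `s`
every `p ∈ G s ω` is at Hamming distance at most `k/16` from `s`. If the union `Π` of the `G s ω` had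
fewer than `n` elements, `2^(k-1) ≤ n V`, `V` the number of points in a Hamming ball of radius
`k/16`; `V ≤ (1+x)^k x^(-k/16)` for `0 < x ≤ 1`, with `x = 1/15`: `V ≤ 2^(0.34 k)`: false for large
`k`. -/
def S_PATK : Prop := ∀ n : ℕ, ∃ k : ℕ, ∀ (Ω : Type) [MeasurableSpace Ω] (P : Measure Ω)
    [IsProbabilityMeasure P] (G : (Fin k → Bool) → Ω → Set (Fin k → Bool)),
  (∀ s ω, (G s ω).Nonempty) →
  (∀ s i, P {ω | ∃ p ∈ G s ω, p i ≠ s i} ≤ ENNReal.ofReal (1 / 64)) →
    1 / 2 ≤ P {ω | n ≤ (⋃ s, G s ω).ncard}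

/-- JOB CPT. Compactness. Proof. If `σ` is a maximiser in `Λ` and `T ⊆ Λ' ⊆ Λ`, then
`pair J Λ' (sw T σ) ≤ pair J Λ' σ` (the bonds which do not touch `T` do not change, and
`pair J Λ (sw T σ) - pair J Λ σ = pair J Λ' (sw T σ) - pair J Λ' σ`). The sets
`C n = {σ ∈ {±1}^Site | σ (v i) = sg (p i), ∀ T ⊆ box m n, pair J T (sw T σ) ≤ pair J T σ}` are
compact, decreasing and nonempty. -/
def S_CPT : Prop := ∀ (m k : ℕ) (J : Bond m → ℝ) (v : Fin k → Site m) (p : Fin k → Bool),
  (∃ᶠ L : ℕ in atTop, ∃ τ σ : Site m → ℝ, (∀ v, τ v = 1 ∨ τ v = -1) ∧ IsMax (box m L) τ J σ ∧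
    ∀ i, σ (v i) = sg (p i)) →
  ∃ σ, Weak J σ ∧ ∀ i, σ (v i) = sg (p i)

/-- JOB GEN. Genericity. Proof. Let `T` be finite and nonempty. There is a transversal bond `b₀`
with exactly one end in `T` (a point of `T` with maximal coordinate in direction `inr 0`; `m ≥ 1`),
and `pair J T σ - pair J T (sw T σ) = 2 ∑ J_b σ σ` over the bonds with exactly one end in `T`. For
each of the finitely many sign patterns on `bonds T` the set of `J` where this sum (for
`plant H ψ J`) vanishes is null: given all coordinates but `b₀` there is at most one value of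
`J b₀`. There are countably many `T`. So almost surely a `Weak` configuration has
`pair J T (sw T σ) < pair J T σ` for all nonempty finite `T`; finally `ρ = sw T σ` with
`T = {ρ ≠ σ}`, and the `finsum` is `pair J T σ - pair J T ρ`. -/
def S_GEN : Prop := ∀ (m : ℕ), 1 ≤ m → ∀ (μ : Measure ℝ) [IsProbabilityMeasure μ],
  (∀ x, μ {x} = 0) → ∀ (H : Set (Fin m → ℤ)) (ψ : ℝ → ℝ), Measurable ψ →
    ∀ᵐ J ∂(law m μ), ∀ σ, Weak (plant H ψ J) σ → IsGS (plant H ψ J) σ

/-- JOB ZO. Zero-one law. Use `Q297.Bern.zero_one` (Pool/Agent/Q297/BernMix.lean) for the event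
`{J | ∃ x, shift x J ∈ F}`, which is invariant under all `shift y`; the bijection
`b ↦ (b.1 + (y, 0), b.2)` with `y` large moves a given finite set of bonds off itself. -/
def S_ZO : Prop := ∀ (m : ℕ) (μ : Measure ℝ) [IsProbabilityMeasure μ] (F : Set (Bond m → ℝ)),
  MeasurableSet F → law m μ F ≠ 0 → ∀ᵐ J ∂(law m μ), ∃ x : Pt, shift x J ∈ F

/-- JOB TRN. Translation of ground states; (2) shows that `plant` commutes with `shift`. -/
def S_TRN : Prop := ∀ (m : ℕ) (x : Pt) (H : Set (Fin m → ℤ)) (ψ : ℝ → ℝ) (J : Bond m → ℝ),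
  plant H ψ (shift x J) = shift x (plant H ψ J) ∧
  ∀ σ, IsGS (shift x J) σ → IsGS J (fun v => σ (v - (x, 0)))

/-- JOB MEAS0. Measurability: finitely many sets `T ⊆ box m L` and patterns. -/
def S_MEAS0 : Prop := ∀ (m k L n : ℕ) (H : Set (Fin m → ℤ)) (ψ : ℝ → ℝ), Measurable ψ →
  ∀ (v : Fin k → Site m) (τ : (Fin k → Bool) → Site m → ℝ),
    MeasurableSet {J : Bond m → ℝ | n ≤ (⋃ s, {p : Fin k → Bool |
      ∃ σ, IsMax (box m L) (τ s) (plant H ψ J) σ ∧ ∀ i, σ (v i) = sg (p i)}).ncard}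

/-- **T2.** -/
def S_T2 : Prop := ∀ (m : ℕ) (c : ℝ≥0), 1 ≤ m → ∃ K₀ : ℝ, ∀ (μ : Measure ℝ)
    [IsProbabilityMeasure μ], (∀ x, μ {x} = 0) → μ.map (fun x => -x) = μ →
    HasSubgaussianMGF id c μ → ∀ ψ : ℝ → ℝ, Measurable ψ → (∀ x, K₀ ≤ ψ x) →
  ∀ H : Set (Fin m → ℤ),
    (H.Nontrivial → ∀ᵐ J ∂(law m μ), ∃ σ τ, IsGS (plant H ψ J) σ ∧ IsGS (plant H ψ J) τ ∧
      τ ≠ σ ∧ τ ≠ -σ) ∧
    (H.Infinite → ∀ᵐ J ∂(law m μ), {σ | IsGS (plant H ψ J) σ}.Infinite)

/-! ## Part F: infinite volume, positive temperature -/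

/-- JOB MIS. The probability of `ω' v ≠ ω v` is `mis`. Proof: `η ↦ T = {v ∈ Λ | η v ≠ ω v}` is a
bijection from `Λ → Bool` to the subsets of `Λ` and `spin (glue Λ η ω) = sw T (spin ω)`. -/
def S_MIS : Prop := ∀ (m : ℕ) (J : Bond m → ℝ) (Λ : Finset (Site m)) (ω : Site m → Bool)
  (v : Site m), v ∈ Λ → fv J Λ ω {ω' | ω' v ≠ ω v} = mis Λ (spin ω) J v

/-- JOB GIBL. Existence of Gibbs states as limits. Proof. Let `P_L` be the probability measure
`A ↦ fv J (box m L) ω_L A` for the `L` of the hypothesis. The space of probability measures on the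
compact metrisable space `Site m → Bool` is compact (Mathlib: `ProbabilityMeasure` of a compact
space); take a limit point `π` along an ultrafilter finer than the given `L`. For cylinder sets the
measure of the limit is the limit. DLR: for `Λ ⊆ box m L`, `P_L A = ∫ fv J Λ ω A dP_L`
(consistency of the finite volume measures), and for a cylinder set `A` the function
`ω ↦ fv J Λ ω A` is continuous (it depends on finitely many spins); so
`π A = ∫ fv J Λ ω A dπ` for cylinder sets, hence for all measurable sets (π-λ theorem). -/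
def S_GIBL : Prop := ∀ (m : ℕ) (J : Bond m → ℝ) (A : Set (Site m → Bool)) (a : ℝ), IsClopen A →
  (∃ᶠ L : ℕ in atTop, ∃ ω : Site m → Bool, a ≤ fv J (box m L) ω A) →
  ∃ π : Measure (Site m → Bool), IsGibbs J π ∧ a ≤ (π A).toReal

/-- JOB TRN1. Translation of Gibbs states: `π'` is the image of `π` under `ω ↦ ω (· - (x,0))`. -/
def S_TRN1 : Prop := ∀ (m : ℕ) (x : Pt) (J : Bond m → ℝ) (π : Measure (Site m → Bool)),
  IsGibbs (shift x J) π →
    IsGibbs J (π.map fun (ω : Site m → Bool) (v : Site m) => ω (v - (x, 0)))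

/-- JOB MEAS1. Measurability. -/
def S_MEAS1 : Prop := ∀ (m L : ℕ) (H : Set (Fin m → ℤ)) (ψ : ℝ → ℝ), Measurable ψ →
  ∀ (β : ℝ) (v : Site m) (τ : Site m → ℝ),
    MeasurableSet {J : Bond m → ℝ | 1 / 8 < mis (box m L) τ (β • plant H ψ J) v}

/-- **T1.** -/
def S_T1 : Prop := ∀ (m : ℕ) (c : ℝ≥0), ∃ K₀ : ℝ, ∀ (μ : Measure ℝ)
    [IsProbabilityMeasure μ], μ.map (fun x => -x) = μ →
    HasSubgaussianMGF id c μ → ∀ ψ : ℝ → ℝ, Measurable ψ → (∀ x, K₀ ≤ ψ x) →
  ∀ β : ℝ, 1 ≤ β → ∀ H : Set (Fin m → ℤ),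
    (H.Nonempty → ∀ᵐ J ∂(law m μ), ∃ π π' : Measure (Site m → Bool),
      IsGibbs (β • plant H ψ J) π ∧ IsGibbs (β • plant H ψ J) π' ∧ π ≠ π') ∧
    (H.Nontrivial → ∀ᵐ J ∂(law m μ), ∃ (π π' : Measure (Site m → Bool)) (u v : Site m),
      IsGibbs (β • plant H ψ J) π ∧ IsGibbs (β • plant H ψ J) π' ∧
      1 / 2 < (π {ω | ω u = ω v}).toReal ∧ (π' {ω | ω u = ω v}).toReal < 1 / 2)

end Pool.Agent.Q83.SG
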