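import Pool.Agent.Q83.SG.T1
import Pool.Agent.Q83.SG.LROB

/-!
# Project SG: T1 and T2 for general laws of the couplings of the planes
-/

set_option autoImplicit false

open MeasureTheory ProbabilityTheory Filter
open scoped ENNReal NNReal

namespace Pool.Agent.Q83.SG

/-- **T2**, general law of the couplings of the planes. -/
def S_T2b : Prop := ∀ (m : ℕ) (c : ℝ≥0), 1 ≤ m → ∃ K₀ : ℝ, ∀ (μ : Measure ℝ)
    [IsProbabilityMeasure μ], (∀ x, μ {x} = 0) → μ.map (fun x => -x) = μ →
    HasSubgaussianMGF id c μ → ∀ ψ : ℝ → ℝ, Measurable ψ → Strong μ ψ K₀ →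
  ∀ H : Set (Fin m → ℤ),
    (H.Nontrivial → ∀ᵐ J ∂(law m μ), ∃ σ τ, IsGS (plant H ψ J) σ ∧ IsGS (plant H ψ J) τ ∧
      τ ≠ σ ∧ τ ≠ -σ) ∧
    (H.Infinite → ∀ᵐ J ∂(law m μ), {σ | IsGS (plant H ψ J) σ}.Infinite)

/-- **T1**, general law of the couplings of the planes. -/
def S_T1b : Prop := ∀ (m : ℕ) (c : ℝ≥0), ∃ K₀ : ℝ, ∀ (μ : Measure ℝ)
    [IsProbabilityMeasure μ], μ.map (fun x => -x) = μ →
    HasSubgaussianMGF id c μ → ∀ ψ : ℝ → ℝ, Measurable ψ → Strong μ ψ K₀ →
  ∀ β : ℝ, 1 ≤ β → ∀ H : Set (Fin m → ℤ),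
    (H.Nonempty → ∀ᵐ J ∂(law m μ), ∃ π π' : Measure (Site m → Bool),
      IsGibbs (β • plant H ψ J) π ∧ IsGibbs (β • plant H ψ J) π' ∧ π ≠ π') ∧
    (H.Nontrivial → ∀ᵐ J ∂(law m μ), ∃ (π π' : Measure (Site m → Bool)) (u v : Site m),
      IsGibbs (β • plant H ψ J) π ∧ IsGibbs (β • plant H ψ J) π' ∧
      1 / 2 < (π {ω | ω u = ω v}).toReal ∧ (π' {ω | ω u = ω v}).toReal < 1 / 2)

theorem t_T2b (hlro : S_LRO0b) (hpat2 : S_PAT2) (hpatk : S_PATK) (hcpt : S_CPT) (hgen : S_GEN)
    (hzo : S_ZO) (hmeas : S_MEAS0) : S_T2b := by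
  intro m c hm
  obtain ⟨K₀, hK₀, hl⟩ := hlro m c (1 / 64) (by norm_num)
  refine ⟨K₀, fun μ _ hat hsym hsub ψ hψ hψK H => ?_⟩
  have hev : ∀ (k : ℕ) (hs : Fin k → Fin m → ℤ), Function.Injective hs → (∀ i, hs i ∈ H) →
      ∀ (L : ℕ) (s : Fin k → Bool) (i : Fin k),
      law m μ {J | ∃ p ∈ pat H ψ hs L s J, p i ≠ s i} ≤ ENNReal.ofReal (1 / 64) := by
    intro k hs hinj hsH L s i
    refine le_trans (measure_mono ?_) (hl μ hsym hsub ψ hψ hψK H (hs i) (hsH i) L (bc hs s)
      (bc_pm hs s) (fun x => rfl))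
    rintro J ⟨p, ⟨σ, hσ, hσp⟩, hne⟩
    refine ⟨σ, hσ, ?_⟩
    rw [hσp i, bc_apply hinj]
    exact fun h => hne (sg_inj h)
  constructor
  · intro hH
    obtain ⟨h0, hh0, h1, hh1, hne⟩ := hH
    set hs : Fin 2 → Fin m → ℤ := ![h0, h1] with hhs
    have hinj : Function.Injective hs := by
      intro i j hij
      fin_cases i <;> fin_cases j <;> simp_all
    have hsH : ∀ i, hs i ∈ H := by
      intro i
      fin_cases i <;> simpa [hhs]
    have hP : ∀ L, 1 / 2 ≤ law m μ {J | 4 ≤ (⋃ s, pat H ψ hs L s J).ncard} := by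
      intro L
      refine hpat2 (Bond m → ℝ) (law m μ) (fun s J => pat H ψ hs L s J)
        (fun s J => pat_nonempty H ψ hs L s J) fun s i => ?_
      exact (hev 2 hs hinj hsH L s i).trans (ENNReal.ofReal_le_ofReal (by norm_num))
    filter_upwards [main0 hcpt hgen hzo hmeas hm μ hat ψ hψ H hs 4 hP] with J hJ
    obtain ⟨Γ, x, hΓ, hp⟩ := hJ
    have huniv : Γ = Set.univ := by
      have hc : (Set.univ : Set (Fin 2 → Bool)).ncard = 4 := by
        rw [Set.ncard_univ, Nat.card_eq_fintype_card]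
        rfl
      refine Set.eq_of_subset_of_ncard_le (Set.subset_univ _) (by rw [hc]; exact hΓ)
        (Set.toFinite _)
    obtain ⟨σ, hσ, hσp⟩ := hp ![true, true] (by rw [huniv]; trivial)
    obtain ⟨τ, hτ, hτp⟩ := hp ![true, false] (by rw [huniv]; trivial)
    have a0 := hσp 0
    have a1 := hσp 1
    have b0 := hτp 0
    have b1 := hτp 1
    simp only [sg, hhs, Matrix.cons_val_zero, Matrix.cons_val_one, if_true] at a0 a1 b0 b1
    refine ⟨σ, τ, hσ, hτ, ?_, ?_⟩
    · intro h
      rw [h, a1] at b1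
      norm_num at b1
    · intro h
      rw [h, Pi.neg_apply, a0] at b0
      norm_num at b0
  · intro hH
    have key : ∀ n : ℕ, ∀ᵐ J ∂(law m μ), (n : ℕ∞) ≤ {σ | IsGS (plant H ψ J) σ}.encard := by
      intro n
      obtain ⟨k, hk⟩ := hpatk n
      obtain ⟨t, htH, htk⟩ := hH.exists_subset_card_eq k
      set hs : Fin k → Fin m → ℤ := fun i => (t.equivFin.symm (Fin.cast htk.symm i)).1 with hhs
      have hinj : Function.Injective hs := by
        intro i j hij
        have h1 := t.equivFin.symm.injective (Subtype.ext hij)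
        exact Fin.cast_injective _ h1
      have hsH : ∀ i, hs i ∈ H := fun i => htH (t.equivFin.symm (Fin.cast htk.symm i)).2
      have hP : ∀ L, 1 / 2 ≤ law m μ {J | n ≤ (⋃ s, pat H ψ hs L s J).ncard} := fun L =>
        hk (Bond m → ℝ) (law m μ) (fun s J => pat H ψ hs L s J)
          (fun s J => pat_nonempty H ψ hs L s J) fun s i => hev k hs hinj hsH L s i
      filter_upwards [main0 hcpt hgen hzo hmeas hm μ hat ψ hψ H hs n hP] with J hJ
      obtain ⟨Γ, x, hΓ, hp⟩ := hJ
      choose! f hf hfp using hp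
      have hinjf : Set.InjOn f Γ := by
        intro p hp q hq hpq
        funext i
        apply sg_inj
        rw [← hfp p hp i, ← hfp q hq i, hpq]
      have h1 : (f '' Γ) ⊆ {σ | IsGS (plant H ψ J) σ} := by
        rintro _ ⟨p, hp, rfl⟩
        exact hf p hp
      calc (n : ℕ∞) ≤ (Γ.ncard : ℕ∞) := by exact_mod_cast hΓ
        _ = Γ.encard := (Set.toFinite Γ).cast_ncard_eq
        _ = (f '' Γ).encard := hinjf.encard_image.symm
        _ ≤ _ := Set.encard_le_encard h1
    filter_upwards [ae_all_iff.2 key] with J hJ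
    rw [← Set.encard_eq_top_iff]
    exact ENat.eq_top_iff_forall_ge.2 hJ

theorem main1b (hlro : S_LRO1b) (hmis : S_MIS) (hzo : S_ZO) (hmeas : S_MEAS1) (m : ℕ) (c : ℝ≥0) :
    ∃ K₀ : ℝ, ∀ (μ : Measure ℝ) [IsProbabilityMeasure μ], μ.map (fun x => -x) = μ →
    HasSubgaussianMGF id c μ → ∀ ψ : ℝ → ℝ, Measurable ψ → Strong μ ψ K₀ →
    ∀ β : ℝ, 1 ≤ β → ∀ (H : Set (Fin m → ℤ)) (k : ℕ), k ≤ 2 → ∀ hs : Fin k → Fin m → ℤ,
    Function.Injective hs → (∀ i, hs i ∈ H) → ∀ᵐ J ∂(law m μ), ∃ x : Pt, ∃ᶠ L : ℕ in atTop,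
      ∀ s i, fv (shift x (β • plant H ψ J)) (box m L) (bcb hs s)
        {ω | ω ((0 : Pt), hs i) ≠ s i} ≤ 1 / 8 := by
  obtain ⟨K₀, hK₀, hl⟩ := hlro m c (1 / 16) (by norm_num)
  refine ⟨K₀, fun μ _ hsym hsub ψ hψ hψK β hβ H k hk hs hinj hsH => ?_⟩
  set Q : ℕ → Set (Bond m → ℝ) := fun L => ⋂ s : Fin k → Bool, ⋂ i : Fin k,
    {J | 1 / 8 < mis (box m L) (spin (bcb hs s)) (β • plant H ψ J) ((0 : Pt), hs i)}ᶜ with hQ
  have hQm : ∀ L, MeasurableSet (Q L) := fun L => MeasurableSet.iInter fun s =>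
    MeasurableSet.iInter fun i => (hmeas m L H ψ hψ β _ _).compl
  have hQP : ∀ L, 1 / 2 ≤ law m μ (Q L) := by
    intro L
    have h1 : law m μ (Q L)ᶜ ≤ 1 / 2 := by
      rw [hQ]
      simp only [Set.compl_iInter, compl_compl]
      refine (measure_iUnion_le _).trans ?_
      rw [tsum_fintype]
      have h2 : ∀ s : Fin k → Bool, law m μ (⋃ i : Fin k,
          {J | 1 / 8 < mis (box m L) (spin (bcb hs s)) (β • plant H ψ J) ((0 : Pt), hs i)}) ≤
          k * ENNReal.ofReal (1 / 16) := by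
        intro s
        refine (measure_iUnion_le _).trans ?_
        rw [tsum_fintype]
        refine (Finset.sum_le_sum fun i _ => hl μ hsym hsub ψ hψ hψK β hβ H (hs i) (hsH i) L
          (spin (bcb hs s)) (spin_pm _) (fun x => rfl)).trans ?_
        simp
      refine (Finset.sum_le_sum fun s _ => h2 s).trans ?_
      rw [Finset.sum_const, Finset.card_univ, nsmul_eq_mul]
      have e : ENNReal.ofReal (1 / 16) = 1 / 16 := by
        rw [ENNReal.ofReal_div_of_pos (by norm_num)]
        simp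
      rw [e]
      have hcard : Fintype.card (Fin k → Bool) = 2 ^ k := by simp
      rw [hcard]
      have hnat : ((2 ^ k : ℕ) : ℝ≥0∞) * (k * (1 / 16)) = ((2 ^ k * k : ℕ) : ℝ≥0∞) * (1 / 16) := by
        push_cast
        ring
      rw [hnat]
      have h8 : (2 ^ k * k : ℕ) ≤ 8 := pow_mul_le hk
      calc ((2 ^ k * k : ℕ) : ℝ≥0∞) * (1 / 16) ≤ ((8 : ℕ) : ℝ≥0∞) * (1 / 16) := by
            gcongr
        _ = 1 / 2 := by
            have h816 : ((8 : ℕ) : ℝ≥0∞) * (1 / 16) = ENNReal.ofReal (8 * (1 / 16)) := by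
              rw [ENNReal.ofReal_mul (by norm_num), e]
              simp
            rw [h816]
            norm_num
            rw [ENNReal.ofReal_div_of_pos (by norm_num)]
            simp
    have h3 : (1 : ℝ≥0∞) ≤ law m μ (Q L) + law m μ (Q L)ᶜ := by
      rw [measure_add_measure_compl (hQm L), measure_univ]
    by_contra hcon
    rw [not_le] at hcon
    have h4 : law m μ (Q L) + law m μ (Q L)ᶜ < 1 / 2 + 1 / 2 :=
      ENNReal.add_lt_add_of_lt_of_le (by norm_num) hcon h1
    rw [ENNReal.add_halves] at h4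
    exact absurd h3 (not_le.2 h4)
  obtain ⟨hFm, hF0⟩ := freq_measure (law m μ) _ hQm hQP
  filter_upwards [hzo m μ _ hFm hF0] with J hJ
  obtain ⟨x, hx⟩ := hJ
  have hx' : ∃ᶠ L in atTop, shift x J ∈ Q L := hx
  have hev : ∀ᶠ L : ℕ in atTop, ∀ i : Fin k, ((0 : Pt), hs i) ∈ box m L :=
    Filter.eventually_all.2 fun i => eventually_box _
  refine ⟨x, (hx'.and_eventually hev).mono ?_⟩
  rintro L ⟨hL, hbox⟩ s i
  have e1 : {ω : Site m → Bool | ω ((0 : Pt), hs i) ≠ s i} =
      {ω' | ω' ((0 : Pt), hs i) ≠ bcb hs s ((0 : Pt), hs i)} := by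
    rw [bcb_apply hinj]
  have e2 : shift x (β • plant H ψ J) = β • plant H ψ (shift x J) := by
    rw [plant_shift]
    rfl
  rw [e1, e2, hmis m _ _ _ _ (hbox i)]
  have h5 := Set.mem_iInter.1 (Set.mem_iInter.1 hL s) i
  exact not_lt.1 h5

theorem t_T1b (hlro : S_LRO1b) (hmis : S_MIS) (hzo : S_ZO) (hmeas : S_MEAS1) (hgib : S_GIBL)
    (htrn : S_TRN1) : S_T1b := by
  intro m c
  obtain ⟨K₀, hm⟩ := main1b hlro hmis hzo hmeas m c
  refine ⟨K₀, fun μ _ hsym hsub ψ hψ hψK β hβ H => ⟨fun hH => ?_, fun hH => ?_⟩⟩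
  · obtain ⟨h0, hh0⟩ := hH
    set hs : Fin 1 → Fin m → ℤ := fun _ => h0 with hhs
    have hinj : Function.Injective hs := fun i j _ => Subsingleton.elim i j
    filter_upwards [hm μ hsym hsub ψ hψ hψK β hβ H 1 (by norm_num) hs hinj (fun _ => hh0)]
      with J hJ
    obtain ⟨x, hx⟩ := hJ
    set A : Bool → Set (Site m → Bool) := fun b => {ω | ω ((0 : Pt), h0) = b} with hA
    have hclo : ∀ b, IsClopen (A b) := by
      intro b
      exact (isClopen_discrete ({b} : Set Bool)).preimage (continuous_apply ((0 : Pt), h0))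
    have hex : ∀ b, ∃ π : Measure (Site m → Bool), IsGibbs (shift x (β • plant H ψ J)) π ∧
        7 / 8 ≤ (π (A b)).toReal := by
      intro b
      refine hgib m _ (A b) (7 / 8) (hclo b) (hx.mono fun L hL => ⟨bcb hs fun _ => b, ?_⟩)
      have h1 := hL (fun _ => b) 0
      have h2 := fv_compl (shift x (β • plant H ψ J)) (box m L) (bcb hs fun _ => b) (A b)
      have e : (A b)ᶜ = {ω | ω ((0 : Pt), hs 0) ≠ b} := by
        ext ω; simp [hA, hhs]
      rw [e] at h2
      linarith
    obtain ⟨π, hπ, hπA⟩ := hex true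
    obtain ⟨π', hπ', hπA'⟩ := hex false
    refine ⟨π.map (tr x), π'.map (tr x), htrn m x _ π hπ, htrn m x _ π' hπ', fun heq => ?_⟩
    have := hπ.1
    have := hπ'.1
    have hval : ∀ (ρ : Measure (Site m → Bool)),
        (ρ.map (tr x)) {ω | ω ((x, h0) : Site m) = true} = ρ (A true) := by
      intro ρ
      have hms : MeasurableSet {ω : Site m → Bool | ω ((x, h0) : Site m) = true} := by
        have hf : Measurable fun ω : Site m → Bool => ω ((x, h0) : Site m) :=
          measurable_pi_apply _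
        exact hf (measurableSet_singleton true)
      rw [Measure.map_apply (tr_meas x) hms]
      congr 1
      ext ω
      have : (tr x ω) (x, h0) = ω ((0 : Pt), h0) := by
        unfold tr
        congr 1
        ext1 <;> simp
      simp only [Set.mem_preimage, Set.mem_ofPred_eq, this, hA]
    have h1 := hval π
    have h2 := hval π'
    rw [heq, h2] at h1
    have hdis : (π' (A true)).toReal ≤ 1 - (π' (A false)).toReal := by
      have hc : (A false)ᶜ = A true := by
        ext ω; simp [hA]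
      rw [← hc]
      have h6 : π'.real (A false)ᶜ = 1 - π'.real (A false) := by
        rw [measureReal_compl (hclo false).1.measurableSet, probReal_univ]
      exact h6.le
    rw [h1] at hdis
    linarith
  · obtain ⟨h0, hh0, h1, hh1, hne⟩ := hH
    set hs : Fin 2 → Fin m → ℤ := ![h0, h1] with hhs
    have hinj : Function.Injective hs := by
      intro i j hij
      fin_cases i <;> fin_cases j <;> simp_all
    have hsH : ∀ i, hs i ∈ H := by
      intro i
      fin_cases i <;> simpa [hhs]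
    filter_upwards [hm μ hsym hsub ψ hψ hψK β hβ H 2 le_rfl hs hinj hsH] with J hJ
    obtain ⟨x, hx⟩ := hJ
    set A : Set (Site m → Bool) := {ω | ω ((0 : Pt), h0) = ω ((0 : Pt), h1)} with hA
    have hclo : IsClopen A := by
      have hc : Continuous fun ω : Site m → Bool => (ω ((0 : Pt), h0), ω ((0 : Pt), h1)) :=
        (continuous_apply _).prodMk (continuous_apply _)
      exact (isClopen_discrete {p : Bool × Bool | p.1 = p.2}).preimage hc
    have hhs0 : hs 0 = h0 := rfl
    have hhs1 : hs 1 = h1 := rfl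
    obtain ⟨π, hπ, hπA⟩ : ∃ π : Measure (Site m → Bool),
        IsGibbs (shift x (β • plant H ψ J)) π ∧ 3 / 4 ≤ (π A).toReal := by
      refine hgib m _ A (3 / 4) hclo (hx.mono fun L hL => ⟨bcb hs ![true, true], ?_⟩)
      have a0 := hL ![true, true] 0
      have a1 := hL ![true, true] 1
      rw [hhs0] at a0
      rw [hhs1] at a1
      have h2 := fv_compl (shift x (β • plant H ψ J)) (box m L) (bcb hs ![true, true]) A
      have hsub : Aᶜ ⊆ {ω : Site m → Bool | ω ((0 : Pt), h0) ≠ ![true, true] 0} ∪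
          {ω | ω ((0 : Pt), h1) ≠ ![true, true] 1} := by
        intro ω hω
        by_contra hcon
        simp only [Set.mem_union, Set.mem_ofPred_eq, not_or, not_not, Matrix.cons_val_zero,
          Matrix.cons_val_one] at hcon
        exact hω (by rw [hA, Set.mem_ofPred_eq, hcon.1, hcon.2])
      have h3 := fv_mono (shift x (β • plant H ψ J)) (box m L) (bcb hs ![true, true]) hsub
      have h4 := fv_union (shift x (β • plant H ψ J)) (box m L) (bcb hs ![true, true])
        {ω : Site m → Bool | ω ((0 : Pt), h0) ≠ ![true, true] 0}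
        {ω | ω ((0 : Pt), h1) ≠ ![true, true] 1}
      linarith
    obtain ⟨π', hπ', hπA'⟩ : ∃ π : Measure (Site m → Bool),
        IsGibbs (shift x (β • plant H ψ J)) π ∧ 3 / 4 ≤ (π Aᶜ).toReal := by
      refine hgib m _ Aᶜ (3 / 4) hclo.compl (hx.mono fun L hL => ⟨bcb hs ![true, false], ?_⟩)
      have a0 := hL ![true, false] 0
      have a1 := hL ![true, false] 1
      rw [hhs0] at a0
      rw [hhs1] at a1
      have h2 := fv_compl (shift x (β • plant H ψ J)) (box m L) (bcb hs ![true, false]) A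
      have hsub : A ⊆ {ω : Site m → Bool | ω ((0 : Pt), h0) ≠ ![true, false] 0} ∪
          {ω | ω ((0 : Pt), h1) ≠ ![true, false] 1} := by
        intro ω hω
        by_contra hcon
        simp only [Set.mem_union, Set.mem_ofPred_eq, not_or, not_not, Matrix.cons_val_zero,
          Matrix.cons_val_one] at hcon
        have hω' : ω ((0 : Pt), h0) = ω ((0 : Pt), h1) := hω
        rw [hcon.1, hcon.2] at hω'
        exact Bool.noConfusion hω'
      have h3 := fv_mono (shift x (β • plant H ψ J)) (box m L) (bcb hs ![true, false]) hsub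
      have h4 := fv_union (shift x (β • plant H ψ J)) (box m L) (bcb hs ![true, false])
        {ω : Site m → Bool | ω ((0 : Pt), h0) ≠ ![true, false] 0}
        {ω | ω ((0 : Pt), h1) ≠ ![true, false] 1}
      linarith
    have := hπ.1
    have := hπ'.1
    have hval : ∀ (ρ : Measure (Site m → Bool)),
        (ρ.map (tr x)) {ω | ω ((x, h0) : Site m) = ω ((x, h1) : Site m)} = ρ A := by
      intro ρ
      have hms : MeasurableSet {ω : Site m → Bool | ω ((x, h0) : Site m) = ω (x, h1)} :=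
        measurableSet_eq_fun (measurable_pi_apply _) (measurable_pi_apply _)
      rw [Measure.map_apply (tr_meas x) hms]
      congr 1
      ext ω
      have e0 : (tr x ω) (x, h0) = ω ((0 : Pt), h0) := by
        unfold tr
        congr 1
        ext1 <;> simp
      have e1 : (tr x ω) (x, h1) = ω ((0 : Pt), h1) := by
        unfold tr
        congr 1
        ext1 <;> simp
      simp only [Set.mem_preimage, Set.mem_ofPred_eq, e0, e1, hA]
    refine ⟨π.map (tr x), π'.map (tr x), (x, h0), (x, h1), htrn m x _ π hπ,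
      htrn m x _ π' hπ', ?_, ?_⟩
    · rw [hval π]
      linarith
    · rw [hval π']
      have h6 : π'.real Aᶜ = 1 - π'.real A := by
        rw [measureReal_compl hclo.1.measurableSet, probReal_univ]
      have h7 : (π' Aᶜ).toReal = 1 - (π' A).toReal := h6
      linarith

end Pool.Agent.Q83.SG
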